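import Pool.Agent.R446.KR.Compl

set_option autoImplicit false

/-! Completeness of exponentials with complex frequencies on a compact interval. -/

namespace Pool.Agent.K4H66.OL

open Complex Filter Topology Set Pool.Agent.R446.KR

noncomputable section

/-- exponentials with frequencies in `A` approximate all exponentials uniformly on `[-K, K]` -/
def CplC (A : Set ℂ) (K : ℝ) : Prop := ∀ (α : ℂ) (ε : ℝ), 0 < ε → ∃ (s : Finset ℂ) (c : ℂ → ℂ),
  (∀ a ∈ s, a ∈ A) ∧ ∀ ξ : ℝ, |ξ| ≤ K → ‖cexp (I * α * ξ) - ∑ a ∈ s, c a * cexp (I * a * ξ)‖ ≤ ε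

/-- the closed span of the exponentials -/
def sp (A : Set ℂ) (K : ℝ) : Submodule ℂ C(Icc (-K) K, ℂ) :=
  (Submodule.span ℂ ((fun a : ℂ => ee K a) '' A)).topologicalClosure

lemma sp_of {A : Set ℂ} {K : ℝ} (h : ∀ α : ℂ, ee K α ∈ sp A K) : CplC A K := by
  intro α ε hε
  have h0 : ee K α ∈ closure (Submodule.span ℂ ((fun a : ℂ => ee K a) '' A) : Set C(Icc (-K) K, ℂ)) := h α
  obtain ⟨q, hq, hd⟩ := Metric.mem_closure_iff.1 h0 ε hε
  obtain ⟨l, hl, rfl⟩ := (Finsupp.mem_span_image_iff_linearCombination ℂ).1 hq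
  refine ⟨l.support, l, fun a ha => ?_, fun ξ hξ => ?_⟩
  · exact (Finsupp.mem_supported ℂ l).1 hl ha
  have hx : ξ ∈ Icc (-K) K := abs_le.1 hξ
  have h1 := (ContinuousMap.dist_lt_iff hε).1 hd ⟨ξ, hx⟩
  rw [dist_eq_norm] at h1
  refine le_of_eq_of_le ?_ h1.le
  congr 1
  rw [ee_apply, Finsupp.linearCombination_apply, Finsupp.sum, ContinuousMap.coe_sum, Finset.sum_apply]
  congr 1
  · congr 1; ring
  · refine Finset.sum_congr rfl fun a _ => ?_
    rw [ContinuousMap.coe_smul, Pi.smul_apply, ee_apply, smul_eq_mul]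
    congr 2; ring

lemma mem_sp {A : Set ℂ} {K : ℝ} {α : ℂ} (h : ∀ ε : ℝ, 0 < ε → ∃ (s : Finset ℂ) (c : ℂ → ℂ),
    (∀ a ∈ s, a ∈ A) ∧ ∀ ξ : ℝ, |ξ| ≤ K → ‖cexp (I * α * ξ) - ∑ a ∈ s, c a * cexp (I * a * ξ)‖ ≤ ε) :
    ee K α ∈ sp A K := by
  have h0 : ee K α ∈ closure (Submodule.span ℂ ((fun a : ℂ => ee K a) '' A) : Set C(Icc (-K) K, ℂ)) := by
    rw [Metric.mem_closure_iff]
    intro ε hε
    obtain ⟨s, c, hs, hc⟩ := h (ε / 2) (by positivity)
    refine ⟨∑ a ∈ s, c a • ee K a, ?_, ?_⟩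
    · refine Submodule.sum_mem _ fun a ha => Submodule.smul_mem _ _ (Submodule.subset_span ⟨a, hs a ha, rfl⟩)
    · refine lt_of_le_of_lt ((ContinuousMap.dist_le (by positivity)).2 fun x => ?_) (half_lt_self hε)
      rw [dist_eq_norm]
      refine le_of_eq_of_le ?_ (hc x (abs_le.2 x.2))
      congr 1
      rw [ee_apply, ContinuousMap.coe_sum, Finset.sum_apply]
      congr 1
      · congr 1; ring
      · refine Finset.sum_congr rfl fun a _ => ?_
        rw [ContinuousMap.coe_smul, Pi.smul_apply, ee_apply, smul_eq_mul]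
        congr 2; ring
  exact h0

lemma sp_trans {A A' : Set ℂ} {K : ℝ} (h : ∀ b ∈ A', ee K b ∈ sp A K) {α : ℂ} (hα : ee K α ∈ sp A' K) :
    ee K α ∈ sp A K := by
  have h1 : Submodule.span ℂ ((fun a : ℂ => ee K a) '' A') ≤ sp A K := by
    rw [Submodule.span_le]
    rintro _ ⟨b, hb, rfl⟩
    exact h b hb
  have h2 : sp A' K ≤ sp A K := Submodule.topologicalClosure_minimal _ h1 (Submodule.isClosed_topologicalClosure _)
  exact h2 hα

lemma sp_mono {A A' : Set ℂ} {K : ℝ} (h : A ⊆ A') {α : ℂ} (hα : ee K α ∈ sp A K) : ee K α ∈ sp A' K := by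
  refine sp_trans (fun b hb => ?_) hα
  exact Submodule.le_topologicalClosure _ (Submodule.subset_span ⟨b, h hb, rfl⟩)

theorem sp_infinite {A : Set ℂ} {K R : ℝ} (hA : (A ∩ Metric.closedBall 0 R).Infinite) (α : ℂ) :
    ee K α ∈ sp A K := by
  by_contra hn
  set p : Submodule ℂ C(Icc (-K) K, ℂ) := Submodule.span ℂ ((fun a : ℂ => ee K a) '' A) with hp
  have h1 : ‖(Submodule.Quotient.mk (ee K α) : C(Icc (-K) K, ℂ) ⧸ p)‖ ≠ 0 := by
    intro h0
    exact hn ((QuotientAddGroup.norm_mk_eq_zero_iff_mem_closure (S := p.toAddSubgroup)).1 h0)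
  obtain ⟨g, -, hg⟩ := exists_dual_vector ℂ _ h1
  set Λ : C(Icc (-K) K, ℂ) →L[ℂ] ℂ := g.comp p.mkQL with hΛ
  have hd := ee_deriv K Λ
  have hz : ∀ a ∈ A, Λ (ee K a) = 0 := by
    intro a ha
    have h2 : ee K a ∈ p := Submodule.subset_span ⟨a, ha, rfl⟩
    have h3 : p.mkQL (ee K a) = 0 := (Submodule.Quotient.mk_eq_zero p).2 h2
    rw [hΛ, ContinuousLinearMap.comp_apply, h3, map_zero]
  obtain ⟨x0, -, hx0⟩ := hA.exists_accPt_of_subset_isCompact (isCompact_closedBall 0 R) (inter_subset_right)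
  rw [accPt_iff_frequently_nhdsNE] at hx0
  have hfr : ∃ᶠ z in 𝓝[≠] x0, Λ (ee K z) = 0 := hx0.mono fun x hx => hz x hx.1
  have hall := (hd.differentiableOn.analyticOnNhd isOpen_univ).eqOn_zero_of_preconnected_of_frequently_eq_zero
    isPreconnected_univ (mem_univ x0) hfr
  have h4 : Λ (ee K α) = 0 := hall (mem_univ _)
  have h5 : Λ (ee K α) = ((‖(Submodule.Quotient.mk (ee K α) : C(Icc (-K) K, ℂ) ⧸ p)‖ : ℝ) : ℂ) := hg
  rw [h5] at h4
  exact h1 (by exact_mod_cast h4)

theorem sp_lattice {A : Set ℂ} {K c : ℝ} (hc : 0 < c) (hK : c * K < Real.pi)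
    (hA : ∀ m : ℤ, ((c * m : ℝ) : ℂ) ∈ A) (α : ℂ) : ee K α ∈ sp A K := by
  have h1 : Cpl {x : ℝ | (x : ℂ) ∈ A} K := cpl_of_lattice hc hK hA
  have h2 : ∀ b ∈ (fun x : ℝ => (x : ℂ)) '' (univ : Set ℝ), ee K b ∈ sp A K := by
    rintro _ ⟨x, -, rfl⟩
    refine mem_sp fun ε hε => ?_
    obtain ⟨s, d, hs, hd⟩ := h1 x ε hε
    refine ⟨s.map ⟨fun x : ℝ => (x : ℂ), Complex.ofReal_injective⟩, fun z => d z.re, fun a ha => ?_, fun ξ hξ => ?_⟩
    · obtain ⟨y, hy, rfl⟩ := Finset.mem_map.1 ha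
      exact hs y hy
    · rw [Finset.sum_map]
      exact hd ξ hξ
  refine sp_trans h2 (sp_infinite (R := 1) ?_ α)
  have h3 : (Icc (0:ℝ) 1).Infinite := Icc_infinite (by norm_num)
  refine (h3.image (Complex.ofReal_injective.injOn)).mono ?_
  rintro _ ⟨x, hx, rfl⟩
  refine ⟨⟨x, mem_univ _, rfl⟩, ?_⟩
  rw [mem_closedBall_zero_iff, Complex.norm_real, Real.norm_of_nonneg hx.1]
  exact hx.2

/-- one step of the proof of the theorem of Muntz (von Golitschek) -/
lemma muntz_step {q l M : ℝ} (hl : 0 < l) (hql : q ≠ l) {t : Finset ℝ} (ht : l ∉ t) (c : ℝ → ℝ)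
    (h : ∀ y : ℝ, y ≤ 0 → |Real.exp (q * y) + ∑ a ∈ t, c a * Real.exp (a * y)| ≤ M) :
    ∃ c' : ℝ → ℝ, ∀ y : ℝ, y ≤ 0 →
      |Real.exp (q * y) + ∑ a ∈ insert l t, c' a * Real.exp (a * y)| ≤ |1 - q / l| * M := by
  classical
  have hM : 0 ≤ M := le_trans (abs_nonneg _) (h 0 le_rfl)
  -- the coefficients
  set c1 : ℝ → ℝ := fun a => -(c a * ((l - q) / (a - l))) with hc1
  set d : ℝ := -1 + ∑ a ∈ t, c a * ((l - q) / (a - l)) with hd
  set f : ℝ → ℝ := fun y => Real.exp (q * y) + ∑ a ∈ t, c a * Real.exp (a * y) with hf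
  set G : ℝ → ℝ := fun y => Real.exp (q * y) + (d * Real.exp (l * y) + ∑ a ∈ t, c1 a * Real.exp (a * y)) with hG
  refine ⟨fun a => if a = l then d else c1 a, fun y hy => ?_⟩
  have e1 : Real.exp (q * y) + ∑ a ∈ insert l t, (if a = l then d else c1 a) * Real.exp (a * y) = G y := by
    rw [Finset.sum_insert ht, if_pos rfl, hG]
    simp only
    congr 2
    refine Finset.sum_congr rfl fun a ha => ?_
    rw [if_neg (fun h : a = l => ht (h ▸ ha))]
  rw [e1]
  -- the primitive
  set Φ : ℝ → ℝ := fun x => G x * Real.exp (-(l * x)) with hΦ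
  have hΦ0 : Φ 0 = 0 := by
    simp only [hΦ, hG, hd, hc1, mul_zero, Real.exp_zero, mul_one, neg_zero, Finset.sum_neg_distrib]
    ring
  have hder : ∀ x : ℝ, HasDerivAt Φ (-(l - q) * f x * Real.exp (-(l * x))) x := by
    intro x
    have hE : ∀ a : ℝ, HasDerivAt (fun x : ℝ => Real.exp (a * x)) (Real.exp (a * x) * a) x := by
      intro a
      have := ((hasDerivAt_id x).const_mul a).exp
      simpa using this
    have hS : HasDerivAt (fun x : ℝ => ∑ a ∈ t, c1 a * Real.exp (a * x))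
        (∑ a ∈ t, c1 a * (Real.exp (a * x) * a)) x := by
      have := HasDerivAt.fun_sum (u := t) (A := fun a x => c1 a * Real.exp (a * x))
        (A' := fun a => c1 a * (Real.exp (a * x) * a)) (x := x) (fun a _ => (hE a).const_mul (c1 a))
      exact this
    have hGd : HasDerivAt G (Real.exp (q * x) * q + (d * (Real.exp (l * x) * l) +
        ∑ a ∈ t, c1 a * (Real.exp (a * x) * a))) x := (hE q).add (((hE l).const_mul d).add hS)
    have hEn : HasDerivAt (fun x : ℝ => Real.exp (-(l * x))) (Real.exp (-(l * x)) * -l) x := by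
      have := hE (-l)
      simpa [neg_mul] using this
    have := hGd.mul hEn
    refine this.congr_deriv ?_
    simp only [hG, hf]
    have e2 : ∑ a ∈ t, c1 a * (Real.exp (a * x) * a) = l * (∑ a ∈ t, c1 a * Real.exp (a * x)) -
        (l - q) * ∑ a ∈ t, c a * Real.exp (a * x) := by
      rw [Finset.mul_sum, Finset.mul_sum, ← Finset.sum_sub_distrib]
      refine Finset.sum_congr rfl fun a ha => ?_
      have hal : a - l ≠ 0 := sub_ne_zero.2 fun h => ht (h ▸ ha)
      simp only [hc1]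
      field_simp
      ring
    rw [e2]
    ring
  have hcont : Continuous (fun x => -(l - q) * f x * Real.exp (-(l * x))) := by
    have : Continuous f := by
      rw [hf]
      exact (by fun_prop : Continuous fun y : ℝ => Real.exp (q * y)).add
        (continuous_finsetSum _ fun a _ => by fun_prop)
    fun_prop
  have hint : ∫ x in y..0, -(l - q) * f x * Real.exp (-(l * x)) = Φ 0 - Φ y :=
    intervalIntegral.integral_eq_sub_of_hasDerivAt (fun x _ => hder x) (hcont.intervalIntegrable _ _)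
  rw [hΦ0, zero_sub] at hint
  have hexpint : ∫ x in y..0, Real.exp (-(l * x)) = (Real.exp (-(l * y)) - 1) / l := by
    have h1 : ∀ x ∈ uIcc y 0, HasDerivAt (fun x : ℝ => -(Real.exp (-(l * x)) / l)) (Real.exp (-(l * x))) x := by
      intro x _
      have h2 : HasDerivAt (fun x : ℝ => Real.exp (-(l * x))) (Real.exp (-(l * x)) * -(l * 1)) x :=
        (((hasDerivAt_id x).const_mul l).neg).exp
      have h3 := (h2.div_const l).neg
      refine h3.congr_deriv ?_
      field_simp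
    rw [intervalIntegral.integral_eq_sub_of_hasDerivAt h1 ((by fun_prop : Continuous fun x : ℝ =>
      Real.exp (-(l * x))).intervalIntegrable _ _)]
    simp only [mul_zero, neg_zero, Real.exp_zero]
    ring
  have hbound : |Φ y| ≤ |l - q| * M * ((Real.exp (-(l * y)) - 1) / l) := by
    rw [← abs_neg, ← hint, ← hexpint, ← intervalIntegral.integral_const_mul, ← Real.norm_eq_abs]
    refine intervalIntegral.norm_integral_le_of_norm_le hy ?_ ((by fun_prop : Continuous fun x : ℝ =>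
      |l - q| * M * Real.exp (-(l * x))).intervalIntegrable _ _)
    refine Eventually.of_forall fun x hx => ?_
    have hx0 : x ≤ 0 := hx.2
    rw [Real.norm_eq_abs, abs_mul, abs_mul, abs_neg, abs_of_pos (Real.exp_pos _)]
    have := h x hx0
    gcongr
  have hGy : G y = Φ y * Real.exp (l * y) := by
    simp only [hΦ]
    rw [mul_assoc, ← Real.exp_add, neg_add_cancel, Real.exp_zero, mul_one]
  rw [hGy, abs_mul, abs_of_pos (Real.exp_pos _)]
  have hE1 : Real.exp (-(l * y)) * Real.exp (l * y) = 1 := by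
    rw [← Real.exp_add, neg_add_cancel, Real.exp_zero]
  have hE0 := Real.exp_pos (l * y)
  calc |Φ y| * Real.exp (l * y) ≤ |l - q| * M * ((Real.exp (-(l * y)) - 1) / l) * Real.exp (l * y) := by gcongr
    _ = |l - q| / l * M * (Real.exp (-(l * y)) * Real.exp (l * y) - Real.exp (l * y)) := by ring
    _ = |l - q| / l * M * (1 - Real.exp (l * y)) := by rw [hE1]
    _ ≤ |l - q| / l * M * 1 := by
        gcongr
        linarith
    _ = |1 - q / l| * M := by
        have : |1 - q / l| = |l - q| / l := by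
          rw [show 1 - q / l = (l - q) / l by field_simp, abs_div, abs_of_pos hl]
        rw [this, mul_one]

/-- the approximation of `exp (q y)`, `y ≤ 0` -/
lemma muntz_fin {q : ℝ} (hq : 0 ≤ q) (t : Finset ℝ) (ht : ∀ a ∈ t, 0 < a) (hqt : q ∉ t) :
    ∃ c : ℝ → ℝ, ∀ y : ℝ, y ≤ 0 →
      |Real.exp (q * y) + ∑ a ∈ t, c a * Real.exp (a * y)| ≤ ∏ a ∈ t, |1 - q / a| := by
  classical
  induction t using Finset.induction_on with
  | empty =>
    refine ⟨0, fun y hy => ?_⟩
    simp only [Finset.sum_empty, add_zero, Finset.prod_empty]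
    rw [abs_of_pos (Real.exp_pos _), Real.exp_le_one_iff]
    nlinarith
  | insert l t hlt ih =>
    obtain ⟨c, hc⟩ := ih (fun a ha => ht a (Finset.mem_insert_of_mem ha))
      (fun h => hqt (Finset.mem_insert_of_mem h))
    obtain ⟨c', hc'⟩ := muntz_step (ht l (Finset.mem_insert_self l t))
      (fun h => hqt (by rw [h]; exact Finset.mem_insert_self l t)) hlt c hc
    refine ⟨c', fun y hy => ?_⟩
    rw [Finset.prod_insert hlt]
    exact hc' y hy

/-- the theorem of Muntz -/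
theorem muntz {S : Set ℝ} (hS : ∀ x ∈ S, 0 < x) (hfin : ∀ R : ℝ, (S ∩ Iic R).Finite)
    (hsum : ¬ Summable (fun x : S => (x : ℝ)⁻¹)) {q : ℝ} (hq : 0 < q) (hqS : q ∉ S) {ε : ℝ} (hε : 0 < ε) :
    ∃ (t : Finset ℝ) (c : ℝ → ℝ), (∀ a ∈ t, a ∈ S) ∧ ∀ y : ℝ, y ≤ 0 →
      |Real.exp (q * y) + ∑ a ∈ t, c a * Real.exp (a * y)| ≤ ε := by
  classical
  -- the small exponents
  set t0 : Finset ℝ := (hfin (2 * q)).toFinset with ht0
  set D : ℝ := ∏ a ∈ t0, |1 - q / a| with hD
  have hD0 : 0 ≤ D := Finset.prod_nonneg fun a _ => abs_nonneg _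
  -- a finite set of large exponents with large sum
  obtain ⟨X, hX⟩ : ∃ X : ℝ, D * Real.exp (-(q * X)) ≤ ε := by
    have h1 : Tendsto (fun X : ℝ => D * Real.exp (-(q * X))) atTop (𝓝 (D * 0)) := by
      refine Tendsto.const_mul _ ?_
      refine Real.tendsto_exp_neg_atTop_nhds_zero.comp ?_
      exact tendsto_id.const_mul_atTop hq
    rw [mul_zero] at h1
    obtain ⟨X, hX⟩ := (h1.eventually_lt_const hε).exists
    exact ⟨X, hX.le⟩
  obtain ⟨w, hw⟩ : ∃ w : Finset S, X + ∑ a ∈ t0, a⁻¹ < ∑ x ∈ w, (x : ℝ)⁻¹ := by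
    by_contra hcon
    push Not at hcon
    refine hsum (summable_of_sum_le (c := X + ∑ a ∈ t0, a⁻¹) (fun x => ?_) hcon)
    exact inv_nonneg.2 (hS x x.2).le
  set t1 : Finset ℝ := (w.image (fun x : S => (x : ℝ))) \ t0 with ht1
  have hdisj : Disjoint t0 t1 := Finset.disjoint_sdiff
  have ht1S : ∀ a ∈ t1, a ∈ S := by
    intro a ha
    obtain ⟨x, -, rfl⟩ := Finset.mem_image.1 (Finset.mem_sdiff.1 ha).1
    exact x.2
  have ht0S : ∀ a ∈ t0, a ∈ S := fun a ha => ((hfin (2 * q)).mem_toFinset.1 ha).1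
  have hlarge : ∀ a ∈ t1, 2 * q < a := by
    intro a ha
    by_contra hcon
    push Not at hcon
    exact (Finset.mem_sdiff.1 ha).2 ((hfin (2 * q)).mem_toFinset.2 ⟨ht1S a ha, hcon⟩)
  have hsum1 : X ≤ ∑ a ∈ t1, a⁻¹ := by
    have e1 : ∑ x ∈ w, (x : ℝ)⁻¹ = ∑ a ∈ w.image (fun x : S => (x : ℝ)), a⁻¹ := by
      rw [Finset.sum_image fun x _ y _ h => Subtype.ext h]
    have e2 : ∑ a ∈ w.image (fun x : S => (x : ℝ)), a⁻¹ ≤ ∑ a ∈ t1 ∪ t0, a⁻¹ := by
      refine Finset.sum_le_sum_of_subset_of_nonneg ?_ fun a ha _ => ?_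
      · intro a ha
        by_cases h : a ∈ t0
        · exact Finset.mem_union_right _ h
        · exact Finset.mem_union_left _ (Finset.mem_sdiff.2 ⟨ha, h⟩)
      · rcases Finset.mem_union.1 ha with h | h
        · exact inv_nonneg.2 (hS a (ht1S a h)).le
        · exact inv_nonneg.2 (hS a (ht0S a h)).le
    rw [Finset.sum_union hdisj.symm] at e2
    linarith
  have hprod1 : ∏ a ∈ t1, |1 - q / a| ≤ Real.exp (-(q * X)) := by
    calc ∏ a ∈ t1, |1 - q / a| ≤ ∏ a ∈ t1, Real.exp (-(q * a⁻¹)) := by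
          refine Finset.prod_le_prod (fun a _ => abs_nonneg _) fun a ha => ?_
          have ha1 := hlarge a ha
          have ha0 : 0 < a := by linarith
          have h1 : q / a ≤ 1 := by rw [div_le_one ha0]; linarith
          rw [abs_of_nonneg (by linarith), div_eq_mul_inv]
          have := Real.add_one_le_exp (-(q * a⁻¹))
          linarith
      _ = Real.exp (∑ a ∈ t1, -(q * a⁻¹)) := (Real.exp_sum _ _).symm
      _ ≤ _ := by
          refine Real.exp_le_exp.2 ?_
          rw [Finset.sum_neg_distrib, ← Finset.mul_sum]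
          have := mul_le_mul_of_nonneg_left hsum1 hq.le
          linarith
  obtain ⟨c, hc⟩ := muntz_fin hq.le (t0 ∪ t1) (fun a ha => by
      rcases Finset.mem_union.1 ha with h | h
      · exact hS a (ht0S a h)
      · exact hS a (ht1S a h)) (fun h => by
      rcases Finset.mem_union.1 h with h | h
      · exact hqS (ht0S q h)
      · exact hqS (ht1S q h))
  refine ⟨t0 ∪ t1, c, fun a ha => ?_, fun y hy => (hc y hy).trans ?_⟩
  · rcases Finset.mem_union.1 ha with h | h
    · exact ht0S a h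
    · exact ht1S a h
  · rw [Finset.prod_union hdisj]
    calc D * ∏ a ∈ t1, |1 - q / a| ≤ D * Real.exp (-(q * X)) := by gcongr
      _ ≤ ε := hX

/-- exponents on the half line `-i S` with divergent sum of reciprocals -/
theorem sp_muntz {A : Set ℂ} {K : ℝ} {S : Set ℝ} (hS : ∀ x ∈ S, 0 < x)
    (hsum : ¬ Summable (fun x : S => (x : ℝ)⁻¹)) (hA : ∀ x ∈ S, -(I * (x : ℂ)) ∈ A) (α : ℂ) :
    ee K α ∈ sp A K := by
  classical
  have hinj : Function.Injective (fun x : ℝ => -(I * (x : ℂ))) := by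
    intro x y h
    have h1 : I * (x : ℂ) = I * y := neg_injective h
    exact Complex.ofReal_injective (mul_left_cancel₀ I_ne_zero h1)
  have hnorm : ∀ x : ℝ, ‖-(I * (x : ℂ))‖ = |x| := fun x => by
    rw [norm_neg, norm_mul, norm_I, one_mul, Complex.norm_real, Real.norm_eq_abs]
  by_cases hfin : ∀ R : ℝ, (S ∩ Iic R).Finite
  swap
  · push Not at hfin
    obtain ⟨R, hR⟩ := hfin
    refine sp_infinite (R := R) ?_ α
    have h1 : (S ∩ Iic R).Infinite := hR
    refine (h1.image hinj.injOn).mono ?_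
    rintro _ ⟨x, hx, rfl⟩
    refine ⟨hA x hx.1, ?_⟩
    rw [mem_closedBall_zero_iff, hnorm, abs_of_pos (hS x hx.1)]
    exact hx.2
  · have h2 : ∀ b ∈ (fun x : ℝ => -(I * (x : ℂ))) '' (Icc 1 2), ee K b ∈ sp A K := by
      rintro _ ⟨q, hq, rfl⟩
      by_cases hqS : q ∈ S
      · exact Submodule.le_topologicalClosure _ (Submodule.subset_span ⟨_, hA q hqS, rfl⟩)
      refine mem_sp fun ε hε => ?_
      have hq0 : 0 < q := by linarith [hq.1]
      obtain ⟨t, c, ht, hc⟩ := muntz hS hfin hsum hq0 hqS (ε := ε * Real.exp (-(q * K))) (by positivity)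
      refine ⟨t.map ⟨fun x : ℝ => -(I * (x : ℂ)), hinj⟩,
        fun z => ((-(c (-z.im) * Real.exp (-(-z.im * K)) * Real.exp (q * K)) : ℝ) : ℂ), fun a ha => ?_, fun ξ hξ => ?_⟩
      · obtain ⟨y, hy, rfl⟩ := Finset.mem_map.1 ha
        exact hA y (ht y hy)
      rw [Finset.sum_map]
      simp only [Function.Embedding.coeFn_mk]
      have him : ∀ a : ℝ, -(-(I * (a : ℂ))).im = a := fun a => by simp
      have hx : ξ - K ≤ 0 := by have := (abs_le.1 hξ).2; linarith
      have h3 := hc (ξ - K) hx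
      have e1 : cexp (I * -(I * (q : ℂ)) * ξ) - ∑ a ∈ t, ((-(c (-(-(I * (a : ℂ))).im) *
          Real.exp (-(-(-(I * (a : ℂ))).im * K)) * Real.exp (q * K)) : ℝ) : ℂ) * cexp (I * -(I * (a : ℂ)) * ξ) =
          ((Real.exp (q * K) * (Real.exp (q * (ξ - K)) + ∑ a ∈ t, c a * Real.exp (a * (ξ - K))) : ℝ) : ℂ) := by
        have e2 : ∀ a : ℝ, cexp (I * -(I * (a : ℂ)) * ξ) = ((Real.exp (a * ξ) : ℝ) : ℂ) := by
          intro a
          rw [Complex.ofReal_exp]
          congr 1
          have : I * -(I * (a : ℂ)) * ξ = -(I * I) * (a * ξ) := by ring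
          rw [this, I_mul_I]
          push_cast
          ring
        simp only [him, e2]
        have e3 : ∀ a : ℝ, Real.exp (q * K) * (c a * Real.exp (a * (ξ - K))) =
            (c a * Real.exp (-(a * K)) * Real.exp (q * K)) * Real.exp (a * ξ) := by
          intro a
          rw [show a * (ξ - K) = -(a * K) + a * ξ by ring, Real.exp_add]
          ring
        have e4 : Real.exp (q * K) * Real.exp (q * (ξ - K)) = Real.exp (q * ξ) := by
          rw [← Real.exp_add]; congr 1; ring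
        rw [mul_add, e4, Finset.mul_sum]
        simp only [e3]
        push_cast
        simp only [neg_mul, Finset.sum_neg_distrib, sub_neg_eq_add]
      rw [e1, Complex.norm_real, Real.norm_eq_abs, abs_mul, abs_of_pos (Real.exp_pos _)]
      calc Real.exp (q * K) * _ ≤ Real.exp (q * K) * (ε * Real.exp (-(q * K))) := by gcongr
        _ = ε * (Real.exp (q * K) * Real.exp (-(q * K))) := by ring
        _ = ε := by rw [← Real.exp_add, add_neg_cancel, Real.exp_zero, mul_one]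
    refine sp_trans h2 (sp_infinite (R := 2) ?_ α)
    have h3 : (Icc (1:ℝ) 2).Infinite := Icc_infinite (by norm_num)
    refine (h3.image hinj.injOn).mono ?_
    rintro _ ⟨x, hx, rfl⟩
    refine ⟨⟨x, hx, rfl⟩, ?_⟩
    rw [mem_closedBall_zero_iff, hnorm, abs_of_nonneg (by linarith [hx.1])]
    exact hx.2

end

end Pool.Agent.K4H66.OL
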