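import Pool.Agent.TH535.SM.A10

set_option autoImplicit false

/-! The smoothed indicator off the critical line; the powers of zeta on the lines near it. -/

namespace Pool.Agent.K4H66.OL

open Complex MeasureTheory Filter Topology Set Pool.Agent.TH535.SM
open scoped FourierTransform ComplexConjugate

noncomputable section

lemma V_eq_int (T : ℝ) (s : ℂ) : V T s = (((√Real.pi)⁻¹ : ℝ) : ℂ) *
    ∫ y in (0:ℝ)..T, cexp ((s - 1 / 2 - y * I) ^ 2) := by
  have h := intervalIntegral.smul_integral_comp_mul_left (a := 0) (b := 1)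
    (f := fun y : ℝ => cexp ((s - 1 / 2 - y * I) ^ 2)) T
  simp only [mul_zero, mul_one] at h
  unfold V
  rw [← h, intervalIntegral.integral_const_mul, Complex.real_smul]
  push_cast
  ring

/-- the derivative of `V` -/
lemma V_deriv (T : ℝ) (s : ℂ) : deriv (V T) s = (((√Real.pi)⁻¹ : ℝ) : ℂ) * I *
    (cexp ((s - 1 / 2 - T * I) ^ 2) - cexp ((s - 1 / 2) ^ 2)) := by
  set g : ℝ → ℂ := fun y => cexp ((s - 1 / 2 - y * I) ^ 2) with hg
  have hgc : Continuous g := by rw [hg]; fun_prop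
  have h1 : HasDerivAt (fun η : ℝ => V T (s + η * I)) (deriv (V T) s * I) 0 := by
    have h2 : HasDerivAt (fun η : ℝ => s + η * I) I 0 := by
      have h3 : HasDerivAt (fun η : ℝ => (η : ℂ)) 1 0 := Complex.ofRealCLM.hasDerivAt
      simpa using (h3.mul_const I).const_add s
    have h4 : HasDerivAt (V T) (deriv (V T) s) (s + ((0:ℝ) : ℂ) * I) := by
      simpa using (V_diff T s).hasDerivAt
    exact h4.comp_of_eq (0:ℝ) h2 rfl
  set Φ : ℝ → ℂ := fun x => ∫ y in (0:ℝ)..x, g y with hΦ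
  have hΦd : ∀ x : ℝ, HasDerivAt Φ (g x) x := fun x =>
    intervalIntegral.integral_hasDerivAt_right (hgc.intervalIntegrable _ _)
      (hgc.stronglyMeasurableAtFilter _ _) hgc.continuousAt
  have e : ∀ η : ℝ, V T (s + η * I) = (((√Real.pi)⁻¹ : ℝ) : ℂ) * (Φ (T - η) - Φ (-η)) := by
    intro η
    rw [V_eq_int]
    congr 1
    have e2 : ∫ y in (0:ℝ)..T, cexp ((s + η * I - 1 / 2 - y * I) ^ 2) = ∫ y in (0:ℝ)..T, g (y - η) := by
      refine intervalIntegral.integral_congr fun y _ => ?_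
      simp only [hg]
      congr 2
      push_cast
      ring
    rw [e2, intervalIntegral.integral_comp_sub_right, zero_sub]
    have := intervalIntegral.integral_interval_sub_left (a := (0:ℝ)) (b := T - η) (c := -η)
      (hgc.intervalIntegrable (μ := volume) _ _) (hgc.intervalIntegrable _ _)
    rw [← this]
  have h5 : HasDerivAt (fun η : ℝ => V T (s + η * I)) ((((√Real.pi)⁻¹ : ℝ) : ℂ) *
      (g T * (-1) - g 0 * (-1))) 0 := by
    have h6 : HasDerivAt (fun η : ℝ => Φ (T - η)) (g T * (-1)) 0 := by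
      have h7 : HasDerivAt (fun η : ℝ => T - η) (-1) 0 := by
        simpa using (hasDerivAt_id (0:ℝ)).const_sub T
      have h8 : HasDerivAt (fun η : ℝ => Φ (T - η)) ((-1 : ℝ) • g (T - 0)) 0 :=
        (hΦd (T - 0)).scomp (0:ℝ) h7
      have e3 : g T * (-1) = (-1 : ℝ) • g (T - 0) := by
        rw [sub_zero, Complex.real_smul]; push_cast; ring
      rw [e3]
      exact h8
    have h9 : HasDerivAt (fun η : ℝ => Φ (-η)) (g 0 * (-1)) 0 := by
      have h7 : HasDerivAt (fun η : ℝ => -η) (-1) 0 := by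
        exact hasDerivAt_neg (0:ℝ)
      have h8 : HasDerivAt (fun η : ℝ => Φ (-η)) ((-1 : ℝ) • g (-0)) 0 :=
        (hΦd (-0)).scomp (0:ℝ) h7
      have e3 : g 0 * (-1) = (-1 : ℝ) • g (-0) := by
        rw [neg_zero, Complex.real_smul]; push_cast; ring
      rw [e3]
      exact h8
    have h10 := (h6.sub h9).const_mul (((√Real.pi)⁻¹ : ℝ) : ℂ)
    refine h10.congr_of_eventuallyEq (Eventually.of_forall fun η => ?_)
    simp only [Pi.sub_apply]
    exact e η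
  have h11 := h1.unique h5
  have h12 : deriv (V T) s = deriv (V T) s * I * (-I) := by
    rw [mul_assoc, mul_neg, I_mul_I]; ring
  rw [h12, h11]
  simp only [hg]
  push_cast
  ring_nf

lemma nexp (x y : ℝ) : ‖cexp (((x : ℂ) + y * I) ^ 2)‖ = Real.exp (x ^ 2) * Real.exp (-y ^ 2) := by
  rw [Complex.norm_exp, ← Real.exp_add]
  congr 1
  simp [pow_two]
  ring

/-- moving `V` horizontally -/
lemma V_hor {T r : ℝ} (hr : |r| ≤ 1 / 4) (t : ℝ) :
    ‖V T (((1 / 2 + r : ℝ) : ℂ) + t * I) - (v T t : ℂ)‖ ≤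
      (1 / 2) * (Real.exp (-t ^ 2) + Real.exp (-(t - T) ^ 2)) := by
  have hd : ∀ x ∈ segment ℝ (1 / 2 + (t : ℂ) * I) (((1 / 2 + r : ℝ) : ℂ) + t * I),
      ‖deriv (V T) x‖ ≤ 2 * (Real.exp (-t ^ 2) + Real.exp (-(t - T) ^ 2)) := by
    intro x hx
    obtain ⟨a, b, ha, hb, hab, rfl⟩ := hx
    have e1 : (a • (1 / 2 + (t : ℂ) * I) + b • (((1 / 2 + r : ℝ) : ℂ) + t * I)) =
        1 / 2 + ((b * r : ℝ) : ℂ) + t * I := by
      have ha' : a = 1 - b := by linarith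
      rw [ha', Complex.real_smul, Complex.real_smul]
      push_cast
      ring
    rw [e1, V_deriv]
    have hb1 : b ≤ 1 := by linarith
    have hx2 : (b * r) ^ 2 ≤ 1 := by
      have : |b * r| ≤ 1 := by
        rw [abs_mul, abs_of_nonneg hb]
        nlinarith [abs_nonneg r]
      rw [← sq_abs]
      exact pow_le_one₀ (abs_nonneg _) this
    have hp : (√Real.pi)⁻¹ ≤ 2 / 3 := by
      rw [inv_le_comm₀ (by positivity) (by norm_num)]
      refine Real.le_sqrt_of_sq_le ?_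
      have := Real.pi_gt_three
      norm_num
      linarith
    have he : Real.exp ((b * r) ^ 2) ≤ 3 := by
      refine (Real.exp_le_exp.2 hx2).trans ?_
      have := Real.exp_one_lt_d9
      linarith
    have e2 : (1 / 2 + ((b * r : ℝ) : ℂ) + t * I - 1 / 2 - T * I) = ((b * r : ℝ) : ℂ) + ((t - T : ℝ) : ℂ) * I := by
      push_cast; ring
    have e3 : (1 / 2 + ((b * r : ℝ) : ℂ) + t * I - 1 / 2) = ((b * r : ℝ) : ℂ) + (t : ℂ) * I := by
      push_cast; ring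
    rw [e2, e3, norm_mul, norm_mul, norm_I, mul_one, Complex.norm_real, Real.norm_of_nonneg (by positivity)]
    have h3 : ‖cexp ((((b * r : ℝ) : ℂ) + ((t - T : ℝ) : ℂ) * I) ^ 2) - cexp ((((b * r : ℝ) : ℂ) + (t : ℂ) * I) ^ 2)‖ ≤
        3 * (Real.exp (-t ^ 2) + Real.exp (-(t - T) ^ 2)) := by
      refine (norm_sub_le _ _).trans ?_
      rw [nexp, nexp]
      have p1 := Real.exp_pos (-t ^ 2)
      have p2 := Real.exp_pos (-(t - T) ^ 2)
      nlinarith
    calc (√Real.pi)⁻¹ * _ ≤ (2 / 3) * (3 * (Real.exp (-t ^ 2) + Real.exp (-(t - T) ^ 2))) := by gcongr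
      _ = _ := by ring
  have h := (convex_segment (1 / 2 + (t : ℂ) * I) (((1 / 2 + r : ℝ) : ℂ) + t * I)).norm_image_sub_le_of_norm_deriv_le
    (f := V T) (fun x _ => V_diff T x) hd (left_mem_segment ℝ _ _) (right_mem_segment ℝ _ _)
  rw [V_line] at h
  refine h.trans ?_
  have e4 : ‖((1 / 2 + r : ℝ) : ℂ) + (t : ℂ) * I - (1 / 2 + (t : ℂ) * I)‖ = |r| := by
    have : ((1 / 2 + r : ℝ) : ℂ) + (t : ℂ) * I - (1 / 2 + (t : ℂ) * I) = (r : ℂ) := by push_cast; ring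
    rw [this, Complex.norm_real, Real.norm_eq_abs]
  rw [e4]
  have p1 := Real.exp_pos (-t ^ 2)
  have p2 := Real.exp_pos (-(t - T) ^ 2)
  nlinarith

/-- the powers of zeta on the line `Re s = 1/2 + r` -/
def zr (k : ℕ) (r t : ℝ) : ℂ := riemannZeta (((1 / 2 + r : ℝ) : ℂ) + t * I) ^ k

lemma zr_zero (k : ℕ) : zr k 0 = Pool.Agent.TH535.SM.ze ^ k := by
  funext t
  unfold zr ze
  simp

lemma ln_ne {r : ℝ} (hr : |r| ≤ 1 / 4) (t : ℝ) : (((1 / 2 + r : ℝ) : ℂ) + t * I) ≠ 1 := by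
  intro h
  have := congrArg Complex.re h
  simp at this
  have := (abs_le.1 hr).2
  linarith

lemma ln_dist {r : ℝ} (hr : |r| ≤ 1 / 4) (t : ℝ) : 1 / 4 ≤ ‖(((1 / 2 + r : ℝ) : ℂ) + t * I) - 1‖ := by
  have h1 := Complex.abs_re_le_norm ((((1 / 2 + r : ℝ) : ℂ) + t * I) - 1)
  have h2 : ((((1 / 2 + r : ℝ) : ℂ) + t * I) - 1).re = r - 1 / 2 := by simp; ring
  rw [h2] at h1
  have h3 := (abs_le.1 hr).2
  rw [abs_of_nonpos (by linarith)] at h1
  linarith

lemma zr_cont (k : ℕ) {r : ℝ} (hr : |r| ≤ 1 / 4) : Continuous (zr k r) := by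
  refine Continuous.pow ?_ k
  rw [continuous_iff_continuousAt]
  intro t
  have h := (differentiableAt_riemannZeta (ln_ne hr t)).continuousAt
  exact ContinuousAt.comp (f := fun t : ℝ => (((1 / 2 + r : ℝ) : ℂ) + (t : ℂ) * I)) h (by fun_prop)

lemma H_ler (k : ℕ) {u : ℕ} (hu : 1 ≤ u) {r : ℝ} (hr : |r| ≤ 1 / 4) (t : ℝ) :
    ‖H k u (((1 / 2 + r : ℝ) : ℂ) + t * I)‖ ≤ ‖zr k r t‖ := by
  have hu1 : (1:ℝ) ≤ u := by exact_mod_cast hu
  unfold zr
  rw [norm_pow]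
  refine H_le ?_ (ln_ne hr t)
  have := (abs_le.1 hr).1
  simp
  linarith

lemma H_close_r (k : ℕ) {u : ℕ} (hu : 1 ≤ u) : ∃ C : ℝ, 0 ≤ C ∧ ∀ r : ℝ, |r| ≤ 1 / 4 → ∀ t : ℝ,
    ‖H k u (((1 / 2 + r : ℝ) : ℂ) + t * I) - zr k r t‖ ≤ C / (1 + |t|) * ‖zr k r t‖ := by
  have hu1 : (1:ℝ) ≤ u := by exact_mod_cast hu
  refine ⟨k * (2 * (2 * u + 2)), by positivity, fun r hr t => ?_⟩
  have hr1 := (abs_le.1 hr).1
  set s : ℂ := ((1 / 2 + r : ℝ) : ℂ) + t * I with hs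
  have hre : s.re = 1 / 2 + r := by simp [hs]
  have him : s.im = t := by simp [hs]
  have hne : s ≠ 1 := ln_ne hr t
  have hd1 := den_norm (u := u) (s := s) (by rw [hre]; linarith)
  have hd0 : s + (2 * u + 1 : ℕ) ≠ 0 := norm_pos_iff.1 (by linarith)
  set b : ℂ := (s - 1) / (s + (2 * u + 1 : ℕ)) with hb
  have e : H k u s = b ^ k * riemannZeta s ^ k := by
    unfold H
    rw [Y_eq hne, hb, ← mul_pow]
    congr 1; ring
  have hb1 : ‖b‖ ≤ 1 := by
    rw [hb, norm_div, div_le_one (by linarith)]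
    exact ratio_le (by rw [hre]; linarith)
  have hb2 : ‖b - 1‖ ≤ 2 * (2 * u + 2) / (1 + |t|) := by
    have e3 : b - 1 = -((2 * u + 2 : ℕ) : ℂ) / (s + (2 * u + 1 : ℕ)) := by
      rw [hb, div_sub_one hd0]
      congr 1
      push_cast; ring
    rw [e3, norm_div, norm_neg, Complex.norm_natCast]
    have h4 : (1 + |t|) / 2 ≤ ‖s + (2 * u + 1 : ℕ)‖ := by
      have h5 := Complex.abs_im_le_norm (s + (2 * u + 1 : ℕ))
      rw [den_im, him] at h5
      linarith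
    have e5 : ((2 * u + 2 : ℕ) : ℝ) = 2 * u + 2 := by push_cast; ring
    rw [e5, div_le_div_iff₀ (by linarith) (by positivity)]
    nlinarith [mul_le_mul_of_nonneg_left h4 (by linarith : (0:ℝ) ≤ 2 * u + 2)]
  have ez : zr k r t = riemannZeta s ^ k := rfl
  rw [e, ez, ← sub_one_mul, norm_mul]
  refine mul_le_mul_of_nonneg_right ?_ (by positivity)
  refine (pow_sub_one_le hb1 k).trans ?_
  rw [mul_div_assoc]
  gcongr

lemma zr_le_H (k : ℕ) {u : ℕ} (hu : 1 ≤ u) : ∃ C : ℝ, 1 ≤ C ∧ ∀ r : ℝ, |r| ≤ 1 / 4 → ∀ t : ℝ,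
    ‖zr k r t‖ ≤ C * ‖H k u (((1 / 2 + r : ℝ) : ℂ) + t * I)‖ := by
  have hu1 : (1:ℝ) ≤ u := by exact_mod_cast hu
  refine ⟨(1 + 4 * (2 * u + 2)) ^ k, one_le_pow₀ (by linarith), fun r hr t => ?_⟩
  have hr1 := (abs_le.1 hr).1
  have hdist := ln_dist hr t
  set s : ℂ := ((1 / 2 + r : ℝ) : ℂ) + t * I with hs
  have hre : s.re = 1 / 2 + r := by simp [hs]
  have hne : s ≠ 1 := ln_ne hr t
  have hd1 := den_norm (u := u) (s := s) (by rw [hre]; linarith)
  have hd0 : s + (2 * u + 1 : ℕ) ≠ 0 := norm_pos_iff.1 (by linarith)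
  have ez : zr k r t = riemannZeta s ^ k := rfl
  rw [ez]
  unfold H
  rw [norm_pow, norm_pow, ← mul_pow]
  refine pow_le_pow_left₀ (norm_nonneg _) ?_ k
  rw [Y_eq hne, norm_div, norm_mul]
  have h2 : ‖s + (2 * u + 1 : ℕ)‖ ≤ (1 + 4 * (2 * u + 2)) * ‖s - 1‖ := by
    have e1 : s + (2 * u + 1 : ℕ) = (s - 1) + (2 * u + 2 : ℕ) := by push_cast; ring
    rw [e1]
    refine (norm_add_le _ _).trans ?_
    rw [Complex.norm_natCast]
    push_cast
    nlinarith
  rw [mul_div_assoc', le_div_iff₀ (by linarith)]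
  have h3 := norm_nonneg (riemannZeta s)
  nlinarith [mul_le_mul_of_nonneg_right h2 h3]

lemma zr_bd (k : ℕ) : ∃ (C : ℝ) (p : ℕ), 1 ≤ C ∧ ∀ r : ℝ, |r| ≤ 1 / 4 → ∀ t : ℝ,
    ‖zr k r t‖ ^ 2 ≤ C * (1 + |t|) ^ p := by
  obtain ⟨C1, hC1, h1⟩ := zr_le_H k (u := 1) le_rfl
  obtain ⟨C2, M, hC2, h2⟩ := H_strip k (u := 1) le_rfl
  refine ⟨(C1 * C2) ^ 2, 2 * M, one_le_pow₀ (by nlinarith), fun r hr t => ?_⟩
  have hr1 := (abs_le.1 hr)
  have h3 := h2 (((1 / 2 + r : ℝ) : ℂ) + t * I) (by simp; linarith [hr1.1]) (by simp; linarith [hr1.2])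
  have him : (((1 / 2 + r : ℝ) : ℂ) + t * I).im = t := by simp
  rw [him] at h3
  have h4 := h1 r hr t
  calc ‖zr k r t‖ ^ 2 ≤ (C1 * (C2 * (1 + |t|) ^ M)) ^ 2 := by
        gcongr
        exact h4.trans (by gcongr)
    _ = _ := by ring

/-- the structure of the library, with constants which depend on the line -/
lemma zr_dat (k : ℕ) {r : ℝ} (hr : |r| ≤ 1 / 4) : ∃ (G : ℂ → ℂ) (K : ℕ), Dat (zr k r) G 2 K := by
  obtain ⟨C, p, hC, hb⟩ := zr_bd k
  obtain ⟨C1, hC1, h1⟩ := H_close_r k (u := 3) (by norm_num)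
  obtain ⟨C2, M, hC2, h2⟩ := H_strip k (u := 3) (by norm_num)
  have hr1 := (abs_le.1 hr)
  have hre : ∀ s : ℂ, (s + r).re = s.re + r := fun s => by simp
  have him : ∀ s : ℂ, (s + r).im = s.im := fun s => by simp
  have hbd : ∀ s : ℂ, 1 / 2 - ((2:ℕ) : ℝ) ≤ s.re → s.re ≤ 1 / 2 + ((2:ℕ) : ℝ) →
      ‖H k 3 (s + r)‖ ≤ C2 * (1 + |s.im|) ^ M := by
    intro s a b
    push_cast at a b
    have := h2 (s + r) (by rw [hre]; push_cast; linarith) (by rw [hre]; push_cast; linarith)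
    rwa [him] at this
  refine ⟨fun s => H k 3 (s + r), M, ⟨zr_cont k hr, ⟨C, p, hC, hb r hr⟩,
    ⟨fun s a b => ?_, C2, M, by linarith, hbd⟩, ⟨C1, hC1, fun t => ?_⟩, ?_, ⟨C2, hC2, fun t => ?_⟩⟩⟩
  · push_cast at a b
    have h3 : DifferentiableAt ℂ (H k 3) (s + r) := H_diff k (by rw [hre]; push_cast; linarith)
    exact DifferentiableAt.comp (f := fun s : ℂ => s + r) s h3 (by fun_prop)
  · have e : (1 / 2 + (t : ℂ) * I + r) = ((1 / 2 + r : ℝ) : ℂ) + t * I := by push_cast; ring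
    rw [e]
    exact h1 r hr t
  · obtain ⟨Z, hZ, hz⟩ := zeta_right
    refine ⟨Z ^ k, one_le_pow₀ hZ, fun t => ?_⟩
    set s : ℂ := ((1 / 2 + (2:ℕ) : ℝ) : ℂ) + t * I + r with hs
    have hsre : s.re = 5 / 2 + r := by simp [hs]; norm_num
    refine (H_le (by rw [hsre]; push_cast; linarith) ?_).trans ?_
    · intro h
      have := congrArg Complex.re h
      rw [hsre, one_re] at this
      linarith
    · have := hz s (by rw [hsre]; linarith)
      gcongr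
  · have := hbd (((1 / 2 - (2:ℕ) : ℝ) : ℂ) + t * I) (by simp) (by simp; linarith)
    have e2 : (((1 / 2 - (2:ℕ) : ℝ) : ℂ) + t * I).im = t := by simp
    rw [e2] at this
    refine this.trans ?_
    have h4 : (1 + |t|) ^ M ≤ (1 + |t|) ^ (2 * M) :=
      pow_le_pow_right₀ (by linarith [abs_nonneg t]) (by omega)
    gcongr

end

end Pool.Agent.K4H66.OL
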