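import Pool.Agent.K4H66.OL.A

set_option autoImplicit false

/-! Functions analytic in a strip: comparison of the square integrals on vertical lines. -/

namespace Pool.Agent.K4H66.OL

open Complex MeasureTheory Filter Topology Set Pool.Agent.TH535.SM
open scoped FourierTransform ComplexConjugate

noncomputable section

/-- analytic with quadratic decay in the strip `|Re s - 1/2| ≤ u` -/
structure SD (F : ℂ → ℂ) (u : ℕ) : Prop where
  diff : ∀ s : ℂ, 1 / 2 - (u : ℝ) ≤ s.re → s.re ≤ 1 / 2 + u → DifferentiableAt ℂ F s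
  bd : ∃ B : ℝ, 0 ≤ B ∧ ∀ s : ℂ, 1 / 2 - (u : ℝ) ≤ s.re → s.re ≤ 1 / 2 + u →
    ‖F s‖ ≤ B * ((1 + |s.im|) ^ 2)⁻¹

/-- restriction to the line `Re s = 1/2 + r` -/
def Fl (F : ℂ → ℂ) (r t : ℝ) : ℂ := F (((1 / 2 + r : ℝ) : ℂ) + t * I)

variable {F : ℂ → ℂ} {u : ℕ}

lemma SD.dec (h : SD F u) {r : ℝ} (hr : |r| ≤ u) : Dec (Fl F r) := by
  obtain ⟨h1, h2⟩ := abs_le.1 hr
  have hre : ∀ t : ℝ, (((1 / 2 + r : ℝ) : ℂ) + t * I).re = 1 / 2 + r := fun t => by simp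
  have him : ∀ t : ℝ, (((1 / 2 + r : ℝ) : ℂ) + t * I).im = t := fun t => by simp
  refine ⟨?_, ?_⟩
  · rw [continuous_iff_continuousAt]
    intro t
    have hd : ContinuousAt F (((1 / 2 + r : ℝ) : ℂ) + t * I) :=
      (h.diff _ (by rw [hre]; linarith) (by rw [hre]; linarith)).continuousAt
    exact ContinuousAt.comp (f := fun t : ℝ => (((1 / 2 + r : ℝ) : ℂ) + t * I)) hd (by fun_prop)
  · obtain ⟨B, hB, hb⟩ := h.bd
    refine ⟨B, hB, fun t => ?_⟩
    have := hb (((1 / 2 + r : ℝ) : ℂ) + t * I) (by rw [hre]; linarith) (by rw [hre]; linarith)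
    rwa [him] at this

lemma SD.shift (h : SD F u) {r1 r2 : ℝ} (h1 : -(u:ℝ) ≤ r1) (h12 : r1 ≤ r2) (h2 : r2 ≤ u) (w : ℝ) :
    cexp (-(2 * Real.pi * w * r1 : ℝ)) * 𝓕 (Fl F r1) w =
      cexp (-(2 * Real.pi * w * r2 : ℝ)) * 𝓕 (Fl F r2) w := by
  obtain ⟨B, hB, hb⟩ := h.bd
  set f : ℂ → ℂ := fun s => cexp (-(2 * Real.pi * w * (s - 1 / 2))) * F s with hf
  have hline : ∀ r : ℝ, ∫ y : ℝ, f (((1 / 2 + r : ℝ) : ℂ) + y * I) =
      cexp (-(2 * Real.pi * w * r : ℝ)) * 𝓕 (Fl F r) w := by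
    intro r
    rw [ft_eq, ← integral_const_mul]
    refine integral_congr_ae (Eventually.of_forall fun y => ?_)
    simp only [hf, Fl]
    have e : cexp (-(2 * Real.pi * w * ((((1 / 2 + r : ℝ) : ℂ) + y * I) - 1 / 2))) =
        cexp (-(2 * Real.pi * w * r : ℝ)) * cexp (-(2 * Real.pi * w * y * I)) := by
      rw [← Complex.exp_add]
      congr 1
      push_cast
      ring
    rw [e]
    ring
  rw [← hline, ← hline]
  refine W182.KO.strip_shift (B := Real.exp (2 * Real.pi * |w| * u) * B) (by linarith)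
    (by positivity) ?_ ?_
  · intro s a b
    exact DifferentiableAt.mul (by fun_prop) (h.diff s (by linarith) (by linarith))
  · intro s a b
    have h3 := hb s (by linarith) (by linarith)
    rw [hf]
    simp only
    have h7 : ‖cexp (-(2 * (Real.pi:ℂ) * w * (s - 1 / 2)))‖ ≤ Real.exp (2 * Real.pi * |w| * u) := by
      rw [Complex.norm_exp]
      refine Real.exp_le_exp.2 ?_
      have e1 : (-(2 * (Real.pi:ℂ) * w * (s - 1 / 2))).re = -(2 * Real.pi * w * (s.re - 1 / 2)) := by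
        have : (-(2 * (Real.pi:ℂ) * w * (s - 1 / 2))) = ((-(2 * Real.pi * w) : ℝ) : ℂ) * (s - 1 / 2) := by
          push_cast; ring
        rw [this, Complex.re_ofReal_mul]
        simp
      rw [e1]
      have h4 : |s.re - 1 / 2| ≤ u := abs_le.2 ⟨by linarith, by linarith⟩
      have h5 : |w * (s.re - 1 / 2)| ≤ |w| * u := by
        rw [abs_mul]; gcongr
      have h6 := neg_abs_le (w * (s.re - 1 / 2))
      have hp := Real.pi_pos
      nlinarith [mul_le_mul_of_nonneg_left h5 hp.le, mul_le_mul_of_nonneg_left h6 hp.le]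
    calc ‖cexp (-(2 * (Real.pi:ℂ) * w * (s - 1 / 2))) * F s‖ =
          ‖cexp (-(2 * (Real.pi:ℂ) * w * (s - 1 / 2)))‖ * ‖F s‖ := norm_mul _ _
      _ ≤ Real.exp (2 * Real.pi * |w| * u) * (B * ((1 + |s.im|) ^ 2)⁻¹) :=
          mul_le_mul h7 h3 (norm_nonneg _) (Real.exp_pos _).le
      _ = _ := by rw [div_eq_mul_inv]; ring

/-- the Fourier transforms on two lines -/
lemma SD.four (h : SD F u) {r r' : ℝ} (hr : |r| ≤ u) (hr' : |r'| ≤ u) (w : ℝ) :
    ‖𝓕 (Fl F r) w‖ ^ 2 = Real.exp (4 * Real.pi * w * (r - r')) * ‖𝓕 (Fl F r') w‖ ^ 2 := by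
  obtain ⟨h1, h2⟩ := abs_le.1 hr
  obtain ⟨h3, h4⟩ := abs_le.1 hr'
  have key : cexp (-(2 * Real.pi * w * r : ℝ)) * 𝓕 (Fl F r) w =
      cexp (-(2 * Real.pi * w * r' : ℝ)) * 𝓕 (Fl F r') w := by
    rcases le_total r r' with h5 | h5
    · exact h.shift h1 h5 h4 w
    · exact (h.shift h3 h5 h2 w).symm
  have e : 𝓕 (Fl F r) w = cexp ((2 * Real.pi * w * (r - r') : ℝ)) * 𝓕 (Fl F r') w := by
    have e1 : 𝓕 (Fl F r) w = cexp ((2 * Real.pi * w * r : ℝ)) * (cexp (-(2 * Real.pi * w * r : ℝ)) * 𝓕 (Fl F r) w) := by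
      rw [← mul_assoc, ← Complex.exp_add, add_neg_cancel, Complex.exp_zero, one_mul]
    rw [e1, key, ← mul_assoc, ← Complex.exp_add]
    congr 2
    push_cast
    ring
  rw [e, norm_mul, mul_pow, ← Complex.ofReal_exp, Complex.norm_real, Real.norm_of_nonneg (Real.exp_pos _).le,
    ← Real.exp_nat_mul]
  congr 2
  push_cast
  ring

/-- interpolation between the lines `0`, `u`, `-u` -/
lemma SD.interp (h : SD F u) {r : ℝ} (hr : |r| ≤ u) {y0 : ℝ} (hy : 0 ≤ y0) :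
    ∫ t, ‖Fl F r t‖ ^ 2 ≤ Real.exp (4 * Real.pi * y0 * |r|) * (∫ t, ‖Fl F 0 t‖ ^ 2) +
      Real.exp (-(4 * Real.pi * y0 * (u - |r|))) * ((∫ t, ‖Fl F u t‖ ^ 2) + ∫ t, ‖Fl F (-u) t‖ ^ 2) := by
  have hu0 : (0:ℝ) ≤ u := Nat.cast_nonneg u
  have h0 : |(0:ℝ)| ≤ u := by rw [abs_zero]; exact hu0
  have hu : |(u:ℝ)| ≤ u := by rw [Nat.abs_cast]
  have hu' : |-(u:ℝ)| ≤ u := by rw [abs_neg, Nat.abs_cast]
  have i12 := iadd (planch (h.dec hu)).1 (planch (h.dec hu')).1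
  rw [← (planch (h.dec hr)).2, ← (planch (h.dec h0)).2, ← (planch (h.dec hu)).2, ← (planch (h.dec hu')).2,
    ← integral_const_mul, ← integral_add (planch (h.dec hu)).1 (planch (h.dec hu')).1, ← integral_const_mul,
    ← integral_add ((planch (h.dec h0)).1.const_mul _) (i12.const_mul _)]
  refine integral_mono (planch (h.dec hr)).1 (iadd ((planch (h.dec h0)).1.const_mul _)
      (i12.const_mul _)) fun w => ?_
  simp only
  have hp := Real.pi_pos
  have habs := abs_nonneg r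
  have hrr := le_abs_self r
  have hrn := neg_abs_le r
  have n0 : 0 ≤ ‖𝓕 (Fl F 0) w‖ ^ 2 := by positivity
  have nu : 0 ≤ ‖𝓕 (Fl F u) w‖ ^ 2 := by positivity
  have nu' : 0 ≤ ‖𝓕 (Fl F (-u)) w‖ ^ 2 := by positivity
  have E1 := Real.exp_pos (4 * Real.pi * y0 * |r|)
  have E2 := Real.exp_pos (-(4 * Real.pi * y0 * (u - |r|)))
  have m0 := mul_nonneg E1.le n0
  have m1 := mul_nonneg E2.le nu
  have m2 := mul_nonneg E2.le nu'
  rcases le_total |w| y0 with hw | hw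
  · have h1 := h.four hr h0 w
    have h2 : Real.exp (4 * Real.pi * w * (r - 0)) ≤ Real.exp (4 * Real.pi * y0 * |r|) := by
      refine Real.exp_le_exp.2 ?_
      have h3 : w * r ≤ y0 * |r| := by
        calc w * r ≤ |w * r| := le_abs_self _
          _ = |w| * |r| := abs_mul _ _
          _ ≤ y0 * |r| := by gcongr
      have := mul_le_mul_of_nonneg_left h3 (by positivity : 0 ≤ 4 * Real.pi)
      linarith
    rw [h1]
    have := mul_le_mul_of_nonneg_right h2 n0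
    linarith
  · rcases le_total 0 w with hw0 | hw0
    · rw [abs_of_nonneg hw0] at hw
      have h1 := h.four hr hu w
      have h2 : Real.exp (4 * Real.pi * w * (r - u)) ≤ Real.exp (-(4 * Real.pi * y0 * (u - |r|))) := by
        refine Real.exp_le_exp.2 ?_
        have h3 : y0 * (u - |r|) ≤ w * (u - r) := by
          have hur : 0 ≤ (u:ℝ) - |r| := by linarith
          calc y0 * (u - |r|) ≤ w * (u - |r|) := mul_le_mul_of_nonneg_right hw hur
            _ ≤ w * (u - r) := mul_le_mul_of_nonneg_left (by linarith) hw0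
        have := mul_le_mul_of_nonneg_left h3 (by positivity : 0 ≤ 4 * Real.pi)
        linarith
      rw [h1]
      have := mul_le_mul_of_nonneg_right h2 nu
      linarith
    · rw [abs_of_nonpos hw0] at hw
      have h1 := h.four hr hu' w
      have h2 : Real.exp (4 * Real.pi * w * (r - -u)) ≤ Real.exp (-(4 * Real.pi * y0 * (u - |r|))) := by
        refine Real.exp_le_exp.2 ?_
        have h3 : y0 * (u - |r|) ≤ (-w) * (u + r) := by
          have hur : 0 ≤ (u:ℝ) - |r| := by linarith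
          calc y0 * (u - |r|) ≤ (-w) * (u - |r|) := mul_le_mul_of_nonneg_right hw hur
            _ ≤ (-w) * (u + r) := mul_le_mul_of_nonneg_left (by linarith) (by linarith)
        have := mul_le_mul_of_nonneg_left h3 (by positivity : 0 ≤ 4 * Real.pi)
        linarith
      rw [h1]
      have := mul_le_mul_of_nonneg_right h2 nu'
      linarith

/-- `V_T G` -/
lemma VG_SD {G : ℂ → ℂ} (hG : PG G u) {T : ℝ} (hT : 1 ≤ T) : SD (fun s => V T s * G s) u :=
  ⟨fun s a b => (V_diff T s).mul (hG.diff s a b), VG_bd hG hT⟩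

lemma Fn_eq (G : ℂ → ℂ) (T r : ℝ) : Fn G T r = Fl (fun s => V T s * G s) r := rfl

/-- the Gaussian at height `T` -/
def gs (T : ℝ) (s : ℂ) : ℂ := cexp ((s - 1 / 2 - T * I) ^ 2 / 8)

lemma gs_norm (T : ℝ) (s : ℂ) :
    ‖gs T s‖ = Real.exp ((s.re - 1 / 2) ^ 2 / 8) * Real.exp (-(s.im - T) ^ 2 / 8) := by
  unfold gs
  rw [Complex.norm_exp, ← Real.exp_add]
  congr 1
  have e : (s - 1 / 2 - T * I) ^ 2 / 8 = (((1 / 8 : ℝ) : ℂ)) * (s - 1 / 2 - T * I) ^ 2 := by push_cast; ring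
  rw [e, Complex.re_ofReal_mul]
  simp [pow_two]
  ring

lemma poly8 (p : ℕ) {d : ℝ} (hd : 0 ≤ d) :
    (1 + d) ^ p * Real.exp (-d ^ 2 / 8) ≤ p.factorial * Real.exp 3 := by
  have h1 := Real.pow_div_factorial_le_exp (1 + d) (by linarith) p
  have hf : (0:ℝ) < p.factorial := by exact_mod_cast Nat.factorial_pos p
  rw [div_le_iff₀ hf] at h1
  calc (1 + d) ^ p * Real.exp (-d ^ 2 / 8) ≤ (Real.exp (1 + d) * p.factorial) * Real.exp (-d ^ 2 / 8) := by
        gcongr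
    _ = p.factorial * Real.exp (1 + d + -d ^ 2 / 8) := by rw [Real.exp_add (1 + d)]; ring
    _ ≤ p.factorial * Real.exp 3 := by
        refine mul_le_mul_of_nonneg_left (Real.exp_le_exp.2 ?_) hf.le
        nlinarith [sq_nonneg (d - 4)]

lemma gG_SD {G : ℂ → ℂ} (hG : PG G u) (T : ℝ) : SD (fun s => gs T s * G s) u := by
  refine ⟨fun s a b => DifferentiableAt.mul (by unfold gs; fun_prop) (hG.diff s a b), ?_⟩
  obtain ⟨C, M, hC, hb⟩ := hG.bd
  refine ⟨Real.exp ((u:ℝ) ^ 2 / 8) * C * ((1 + |T|) ^ (M + 2) * ((M + 2).factorial * Real.exp 3)),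
    by positivity, fun s a b => ?_⟩
  have hpos : 0 < (1 + |s.im|) ^ 2 := by positivity
  rw [norm_mul, gs_norm, ← div_eq_mul_inv, le_div_iff₀ hpos]
  have h5 : Real.exp ((s.re - 1 / 2) ^ 2 / 8) ≤ Real.exp ((u:ℝ) ^ 2 / 8) := by
    refine Real.exp_le_exp.2 ?_
    have : |s.re - 1 / 2| ≤ u := abs_le.2 ⟨by linarith, by linarith⟩
    rw [← sq_abs (s.re - 1 / 2)]
    gcongr
  have h1 : 1 + |s.im| ≤ (1 + |s.im - T|) * (1 + |T|) := by
    have := one_add_abs_le s.im (-T)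
    rw [abs_neg] at this
    rwa [← sub_eq_add_neg] at this
  have h2 := poly8 (M + 2) (abs_nonneg (s.im - T))
  rw [sq_abs] at h2
  calc Real.exp ((s.re - 1 / 2) ^ 2 / 8) * Real.exp (-(s.im - T) ^ 2 / 8) * ‖G s‖ * (1 + |s.im|) ^ 2 ≤
        Real.exp ((u:ℝ) ^ 2 / 8) * Real.exp (-(s.im - T) ^ 2 / 8) * (C * (1 + |s.im|) ^ M) * (1 + |s.im|) ^ 2 := by
        gcongr
        exact hb s a b
    _ = Real.exp ((u:ℝ) ^ 2 / 8) * C * (Real.exp (-(s.im - T) ^ 2 / 8) * (1 + |s.im|) ^ (M + 2)) := by ring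
    _ ≤ Real.exp ((u:ℝ) ^ 2 / 8) * C * (Real.exp (-(s.im - T) ^ 2 / 8) * ((1 + |s.im - T|) * (1 + |T|)) ^ (M + 2)) := by
        gcongr
    _ = Real.exp ((u:ℝ) ^ 2 / 8) * C * ((1 + |T|) ^ (M + 2) * ((1 + |s.im - T|) ^ (M + 2) * Real.exp (-(s.im - T) ^ 2 / 8))) := by
        rw [mul_pow]; ring
    _ ≤ _ := by gcongr

lemma gl_sq {G : ℂ → ℂ} (T r t : ℝ) : ‖Fl (fun s => gs T s * G s) r t‖ ^ 2 =
    Real.exp (r ^ 2 / 4) * (Real.exp (-(t - T) ^ 2 / 4) * ‖G (((1 / 2 + r : ℝ) : ℂ) + t * I)‖ ^ 2) := by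
  unfold Fl
  rw [norm_mul, gs_norm]
  have hre : (((1 / 2 + r : ℝ) : ℂ) + t * I).re = 1 / 2 + r := by simp
  have him : (((1 / 2 + r : ℝ) : ℂ) + t * I).im = t := by simp
  have e1 : Real.exp ((1 / 2 + r - 1 / 2) ^ 2 / 8) ^ 2 = Real.exp (r ^ 2 / 4) := by
    rw [← Real.exp_nat_mul]; congr 1; push_cast; ring
  have e2 : Real.exp (-(t - T) ^ 2 / 8) ^ 2 = Real.exp (-(t - T) ^ 2 / 4) := by
    rw [← Real.exp_nat_mul]; congr 1; push_cast; ring
  rw [hre, him, mul_pow, mul_pow, e1, e2, mul_assoc]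

/-- the local moments on the lines near the critical line, at height `T` -/
theorem BrT (k : ℕ) {b : ℝ} (hb0 : 0 ≤ b) : ∃ C T0 : ℝ, 0 ≤ C ∧ 1 < T0 ∧ ∀ T : ℝ, T0 ≤ T → ∀ r : ℝ,
    |r| ≤ b / Real.log T → B (zr k r) T ≤ C * (1 + B (zr k 0) T) := by
  obtain ⟨C1, hC1, h1⟩ := zr_le_H k (u := 1) le_rfl
  obtain ⟨C2, hC2, h2⟩ := H_right k (u := 1) le_rfl
  obtain ⟨C3, hC3, h3⟩ := H_left k (u := 1) le_rfl
  set J : ℝ := ∫ t : ℝ, Real.exp (-(t - 0) ^ 2 / 4) * (1 + |t|) ^ (2 * k) with hJ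
  have hJ0 : 0 ≤ J := integral_nonneg fun t => by positivity
  set E : ℝ := Real.exp (1 / 4) with hE
  refine ⟨C1 ^ 2 * (Real.exp (2 * (k + 1) * b) + E * C2 ^ 2 * 4 + E * C3 ^ 2 * (4 ^ k * J)),
    Real.exp (4 * (k + 1) * (b + 1)), by positivity, ?_, fun T hT r hr => ?_⟩
  · exact Real.one_lt_exp_iff.2 (by positivity)
  have hT0 : 0 < T := lt_of_lt_of_le (Real.exp_pos _) hT
  have hL : 4 * (k + 1) * (b + 1) ≤ Real.log T := by rwa [Real.le_log_iff_exp_le hT0]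
  have hk0 : (0:ℝ) ≤ k := Nat.cast_nonneg k
  have hL4 : 4 ≤ Real.log T := by nlinarith
  have hL0 : 0 < Real.log T := by linarith
  have hT1 : 1 ≤ T := by
    have := Real.log_le_sub_one_of_pos hT0
    linarith
  set L := Real.log T with hLd
  have hbL : b / L * (4 * (k + 1)) ≤ 1 := by
    rw [div_mul_eq_mul_div, div_le_one hL0]
    nlinarith
  have hrk : |r| * (4 * (k + 1)) ≤ 1 := (mul_le_mul_of_nonneg_right hr (by positivity)).trans hbL
  have hr4 : |r| ≤ 1 / 4 := by nlinarith [abs_nonneg r]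
  have hPG := H_PG k (u := 1) le_rfl
  have hSD := gG_SD hPG T
  have hrL : |r| * L ≤ b := by rwa [le_div_iff₀ hL0] at hr
  have hp := Real.pi_pos
  -- interpolation
  have hint := hSD.interp (r := r) (by push_cast; linarith) (y0 := (k + 1) * L / (2 * Real.pi)) (by positivity)
  have e1 : 4 * Real.pi * ((k + 1) * L / (2 * Real.pi)) * |r| = 2 * (k + 1) * (|r| * L) := by
    field_simp; ring
  have e2 : 4 * Real.pi * ((k + 1) * L / (2 * Real.pi)) * ((1:ℕ) - |r|) = 2 * (k + 1) * (1 - |r|) * L := by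
    push_cast; field_simp; ring
  rw [e1, e2] at hint
  have hE1 : Real.exp (2 * (k + 1) * (|r| * L)) ≤ Real.exp (2 * (k + 1) * b) := by
    refine Real.exp_le_exp.2 ?_
    exact mul_le_mul_of_nonneg_left hrL (by positivity)
  have hE2 : Real.exp (-(2 * (k + 1) * (1 - |r|) * L)) * T ^ (2 * k) ≤ 1 := by
    have e3 : T ^ (2 * k) = Real.exp ((2 * k : ℕ) * L) := by
      rw [Real.exp_nat_mul, Real.exp_log hT0]
    rw [e3, ← Real.exp_add, Real.exp_le_one_iff]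
    push_cast
    have : 0 ≤ (2 - 2 * (k + 1) * |r|) * L := mul_nonneg (by linarith) hL0.le
    nlinarith
  have hE3 : Real.exp (-(2 * (k + 1) * (1 - |r|) * L)) ≤ 1 := by
    rw [Real.exp_le_one_iff]
    have : 0 ≤ 2 * (k + 1) * (1 - |r|) * L := by
      have : 0 ≤ 1 - |r| := by linarith
      positivity
    linarith
  -- the lines
  have l0 : ∫ t, ‖Fl (fun s => gs T s * H k 1 s) 0 t‖ ^ 2 ≤ B (zr k 0) T := by
    obtain ⟨G, K, D⟩ := zr_dat k (r := 0) (by norm_num)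
    refine integral_mono (hSD.dec (by simp)).sq (B_int D T) fun t => ?_
    simp only
    rw [gl_sq]
    simp only [ne_eq, OfNat.ofNat_ne_zero, not_false_eq_true, zero_pow, zero_div, Real.exp_zero, one_mul]
    have := H_ler k (u := 1) le_rfl (r := 0) (by norm_num) t
    gcongr
  have l1 : ∫ t, ‖Fl (fun s => gs T s * H k 1 s) ((1:ℕ) : ℝ) t‖ ^ 2 ≤ E * C2 ^ 2 * 4 := by
    have hi : Integrable (fun t : ℝ => E * C2 ^ 2 * Real.exp (-(t - T) ^ 2 / 4)) :=
      (g_int4.comp_sub_right T).const_mul _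
    calc _ ≤ ∫ t : ℝ, E * C2 ^ 2 * Real.exp (-(t - T) ^ 2 / 4) := by
          refine integral_mono (hSD.dec (by simp)).sq hi fun t => ?_
          simp only
          rw [gl_sq]
          have h4 := h2 t
          have e4 : Real.exp (((1:ℕ) : ℝ) ^ 2 / 4) = E := by rw [hE]; norm_num
          rw [e4]
          have h5 : ‖H k 1 (((1 / 2 + ((1:ℕ) : ℝ) : ℝ) : ℂ) + t * I)‖ ^ 2 ≤ C2 ^ 2 := by gcongr
          calc _ ≤ E * (Real.exp (-(t - T) ^ 2 / 4) * C2 ^ 2) := by gcongr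
            _ = _ := by ring
      _ = E * C2 ^ 2 * ∫ t : ℝ, Real.exp (-t ^ 2 / 4) := by
          rw [integral_const_mul, integral_sub_right_eq_self (fun t : ℝ => Real.exp (-t ^ 2 / 4)) T]
      _ ≤ _ := by gcongr; exact g_val4
  have l2 : ∫ t, ‖Fl (fun s => gs T s * H k 1 s) (-((1:ℕ) : ℝ)) t‖ ^ 2 ≤ E * C3 ^ 2 * (4 ^ k * J) * T ^ (2 * k) := by
    have hi0 := (gp_int (2 * k) 0).comp_sub_right T
    have hi : Integrable (fun t : ℝ => E * C3 ^ 2 * (2 * T) ^ (2 * k) *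
        (Real.exp (-(t - T - 0) ^ 2 / 4) * (1 + |t - T|) ^ (2 * k))) := hi0.const_mul _
    calc _ ≤ ∫ t : ℝ, E * C3 ^ 2 * (2 * T) ^ (2 * k) *
        (Real.exp (-(t - T - 0) ^ 2 / 4) * (1 + |t - T|) ^ (2 * k)) := by
          refine integral_mono (hSD.dec (by simp)).sq hi fun t => ?_
          simp only
          rw [gl_sq, sub_zero]
          have h4 := h3 t
          have e4 : Real.exp ((-((1:ℕ) : ℝ)) ^ 2 / 4) = E := by rw [hE]; norm_num
          have e5 : (((1 / 2 + -((1:ℕ) : ℝ) : ℝ) : ℂ) + t * I) = (((1 / 2 - ((1:ℕ) : ℝ) : ℝ) : ℂ) + t * I) := by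
            push_cast; ring
          rw [e4, e5]
          have h6 : 1 + |t| ≤ (2 * T) * (1 + |t - T|) := by
            have := one_add_abs_le t (-T)
            rw [abs_neg, abs_of_pos hT0, ← sub_eq_add_neg] at this
            nlinarith [abs_nonneg (t - T)]
          have h5 : ‖H k 1 (((1 / 2 - ((1:ℕ) : ℝ) : ℝ) : ℂ) + t * I)‖ ^ 2 ≤ (C3 * ((2 * T) * (1 + |t - T|)) ^ k) ^ 2 := by
            rw [one_mul] at h4
            gcongr
            exact h4.trans (by gcongr)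
          calc _ ≤ E * (Real.exp (-(t - T) ^ 2 / 4) * (C3 * ((2 * T) * (1 + |t - T|)) ^ k) ^ 2) := by gcongr
            _ = _ := by
              rw [mul_pow C3, ← pow_mul, mul_comm k 2, mul_pow (2 * T)]; ring
      _ = E * C3 ^ 2 * (2 * T) ^ (2 * k) * J := by
          rw [integral_const_mul, integral_sub_right_eq_self
            (fun t : ℝ => Real.exp (-(t - 0) ^ 2 / 4) * (1 + |t|) ^ (2 * k)) T]
      _ = _ := by
          have e7 : (2 * T) ^ (2 * k) = 4 ^ k * T ^ (2 * k) := by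
            rw [mul_pow, pow_mul 2 2 k]; norm_num
          rw [e7]; ring
  -- assembling
  have lr : B (zr k r) T ≤ C1 ^ 2 * ∫ t, ‖Fl (fun s => gs T s * H k 1 s) r t‖ ^ 2 := by
    obtain ⟨G, K, D⟩ := zr_dat k hr4
    rw [← integral_const_mul]
    refine integral_mono (B_int D T) ((hSD.dec (by push_cast; linarith)).sq.const_mul _) fun t => ?_
    simp only
    rw [gl_sq]
    have h4 := h1 r hr4 t
    have h5 : 1 ≤ Real.exp (r ^ 2 / 4) := Real.one_le_exp (by positivity)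
    calc Real.exp (-(t - T) ^ 2 / 4) * ‖zr k r t‖ ^ 2 ≤ Real.exp (-(t - T) ^ 2 / 4) *
          (C1 * ‖H k 1 (((1 / 2 + r : ℝ) : ℂ) + t * I)‖) ^ 2 := by gcongr
      _ = C1 ^ 2 * (1 * (Real.exp (-(t - T) ^ 2 / 4) * ‖H k 1 (((1 / 2 + r : ℝ) : ℂ) + t * I)‖ ^ 2)) := by ring
      _ ≤ _ := by gcongr
  have hB0 := B_nonneg (zr k 0) T
  have hX : 0 ≤ E * C3 ^ 2 * (4 ^ k * J) := by positivity
  have hfin : ∫ t, ‖Fl (fun s => gs T s * H k 1 s) r t‖ ^ 2 ≤
      (Real.exp (2 * (k + 1) * b) + E * C2 ^ 2 * 4 + E * C3 ^ 2 * (4 ^ k * J)) * (1 + B (zr k 0) T) := by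
    have a1 : Real.exp (2 * (k + 1) * (|r| * L)) * (∫ t, ‖Fl (fun s => gs T s * H k 1 s) 0 t‖ ^ 2) ≤
        Real.exp (2 * (k + 1) * b) * B (zr k 0) T := by gcongr
    have a2 : Real.exp (-(2 * (k + 1) * (1 - |r|) * L)) * ((∫ t, ‖Fl (fun s => gs T s * H k 1 s) ((1:ℕ) : ℝ) t‖ ^ 2) +
        ∫ t, ‖Fl (fun s => gs T s * H k 1 s) (-((1:ℕ) : ℝ)) t‖ ^ 2) ≤
        E * C2 ^ 2 * 4 + E * C3 ^ 2 * (4 ^ k * J) := by
      rw [mul_add]
      refine add_le_add ?_ ?_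
      · calc _ ≤ 1 * (E * C2 ^ 2 * 4) := by gcongr
          _ = _ := one_mul _
      · calc _ ≤ Real.exp (-(2 * (k + 1) * (1 - |r|) * L)) * (E * C3 ^ 2 * (4 ^ k * J) * T ^ (2 * k)) := by gcongr
          _ = (E * C3 ^ 2 * (4 ^ k * J)) * (Real.exp (-(2 * (k + 1) * (1 - |r|) * L)) * T ^ (2 * k)) := by ring
          _ ≤ (E * C3 ^ 2 * (4 ^ k * J)) * 1 := by gcongr
          _ = _ := mul_one _
    have a3 : 0 < Real.exp (2 * (k + 1) * b) := Real.exp_pos _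
    have a4 : 0 ≤ E * C2 ^ 2 * 4 := by positivity
    nlinarith [mul_nonneg a4 hB0, mul_nonneg hX hB0]
  calc B (zr k r) T ≤ C1 ^ 2 * ∫ t, ‖Fl (fun s => gs T s * H k 1 s) r t‖ ^ 2 := lr
    _ ≤ C1 ^ 2 * ((Real.exp (2 * (k + 1) * b) + E * C2 ^ 2 * 4 + E * C3 ^ 2 * (4 ^ k * J)) * (1 + B (zr k 0) T)) := by
        gcongr
    _ = _ := by ring

end

end Pool.Agent.K4H66.OL
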