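import Pool.Agent.K4H66.OL.B

set_option autoImplicit false

/-! Comparison of the smoothed functions with the sharp cut-off on the lines near the critical line. -/

namespace Pool.Agent.K4H66.OL

open Complex MeasureTheory Filter Topology Set Pool.Agent.TH535.SM
open scoped FourierTransform ComplexConjugate

noncomputable section

/-- pointwise comparison -/
lemma close_r (k : ℕ) {u : ℕ} (hu : 1 ≤ u) : ∃ C : ℝ, 1 ≤ C ∧ ∀ T : ℝ, 1 ≤ T → ∀ r : ℝ, |r| ≤ 1 / 4 →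
    ∀ t a : ℝ, |a| ≤ 1 →
    ‖Fn (H k u) T r (t + a) - ind T t * zr k r (t + a)‖ ^ 2 ≤
      C * (Wq T (t + a) * ‖zr k r (t + a)‖ ^ 2) := by
  obtain ⟨C1, hC1, h1⟩ := H_close_r k hu
  refine ⟨3 * (16 + 2 + C1 ^ 2), by nlinarith [sq_nonneg C1], fun T hT r hr t a ha => ?_⟩
  have hT0 : 0 ≤ T := by linarith
  obtain ⟨x, hx⟩ : ∃ x, x = t + a := ⟨_, rfl⟩
  have hd := ind_diff (T := T) (t := t) ha
  rw [← hx] at hd ⊢
  have hc := h1 r hr x
  have hH := H_ler k hu hr x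
  have hV : ‖V T (((1 / 2 + r : ℝ) : ℂ) + x * I) - (ind T x : ℂ)‖ ≤
      2 * (Real.exp (-x ^ 2 / 2) + Real.exp (-(x - T) ^ 2 / 2)) := by
    have a1 := V_hor (T := T) hr x
    have a2 := v_close hT0 x
    have a3 : ‖((v T x : ℝ) : ℂ) - (ind T x : ℂ)‖ ≤ √2 * (Real.exp (-x ^ 2 / 2) + Real.exp (-(x - T) ^ 2 / 2)) := by
      rw [← Complex.ofReal_sub, Complex.norm_real, Real.norm_eq_abs, abs_sub_comm]
      exact a2
    have a4 : √2 ≤ 3 / 2 := by
      rw [Real.sqrt_le_left (by norm_num)]; norm_num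
    have a5 : Real.exp (-x ^ 2) ≤ Real.exp (-x ^ 2 / 2) := Real.exp_le_exp.2 (by nlinarith [sq_nonneg x])
    have a6 : Real.exp (-(x - T) ^ 2) ≤ Real.exp (-(x - T) ^ 2 / 2) :=
      Real.exp_le_exp.2 (by nlinarith [sq_nonneg (x - T)])
    have p1 := Real.exp_pos (-x ^ 2 / 2)
    have p2 := Real.exp_pos (-(x - T) ^ 2 / 2)
    have e : V T (((1 / 2 + r : ℝ) : ℂ) + x * I) - (ind T x : ℂ) =
        (V T (((1 / 2 + r : ℝ) : ℂ) + x * I) - (v T x : ℂ)) + (((v T x : ℝ) : ℂ) - (ind T x : ℂ)) := by ring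
    rw [e]
    refine (norm_add_le _ _).trans ?_
    have a7 : √2 * (Real.exp (-x ^ 2 / 2) + Real.exp (-(x - T) ^ 2 / 2)) ≤
        3 / 2 * (Real.exp (-x ^ 2 / 2) + Real.exp (-(x - T) ^ 2 / 2)) := by gcongr
    linarith
  obtain ⟨A1, hA1⟩ : ∃ A1, A1 = 2 * (Real.exp (-x ^ 2 / 2) + Real.exp (-(x - T) ^ 2 / 2)) := ⟨_, rfl⟩
  rw [← hA1] at hV
  obtain ⟨A2, hA2⟩ : ∃ A2, A2 = |ind T x - ind T t| := ⟨_, rfl⟩
  obtain ⟨A3, hA3⟩ : ∃ A3, A3 = ind T x * (C1 / (1 + |x|)) := ⟨_, rfl⟩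
  have hi0 := ind_nonneg T x
  have hA10 : 0 ≤ A1 := by rw [hA1]; positivity
  have hn1 : ‖Fn (H k u) T r x - ind T t * zr k r x‖ ≤ (A1 + A2 + A3) * ‖zr k r x‖ := by
    have e : Fn (H k u) T r x - (ind T t : ℂ) * zr k r x =
        (V T (((1 / 2 + r : ℝ) : ℂ) + x * I) - (ind T x : ℂ)) * H k u (((1 / 2 + r : ℝ) : ℂ) + x * I) +
        ((ind T x - ind T t : ℝ) : ℂ) * zr k r x +
        (ind T x : ℂ) * (H k u (((1 / 2 + r : ℝ) : ℂ) + x * I) - zr k r x) := by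
      unfold Fn
      push_cast
      ring
    rw [e]
    refine (norm_add_le _ _).trans ?_
    rw [add_mul]
    refine add_le_add ((norm_add_le _ _).trans ?_) ?_
    · rw [add_mul]
      refine add_le_add ?_ ?_
      · rw [norm_mul]
        gcongr
      · rw [norm_mul, Complex.norm_real, Real.norm_eq_abs, hA2]
    · rw [norm_mul, Complex.norm_real, Real.norm_of_nonneg hi0, hA3, mul_assoc]
      gcongr
  have hinv : ((1 + |x|) ^ 2)⁻¹ ≤ 1 := by
    refine inv_le_one_of_one_le₀ (one_le_pow₀ ?_)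
    have := abs_nonneg x
    linarith
  have hinv0 : 0 ≤ ((1 + |x|) ^ 2)⁻¹ := by positivity
  have b12 : Real.exp (-x ^ 2 / 4) + Real.exp (-(x - T) ^ 2 / 4) ≤ Wq T x := by
    unfold Wq
    have := mul_nonneg hi0 hinv0
    linarith
  have b1 : A1 ^ 2 ≤ 16 * Wq T x := by
    have h3 : Real.exp (-x ^ 2 / 2) ^ 2 ≤ Real.exp (-x ^ 2 / 4) := by
      rw [← Real.exp_nat_mul]; refine Real.exp_le_exp.2 ?_
      push_cast; nlinarith [sq_nonneg x]
    have h4 : Real.exp (-(x - T) ^ 2 / 2) ^ 2 ≤ Real.exp (-(x - T) ^ 2 / 4) := by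
      rw [← Real.exp_nat_mul]; refine Real.exp_le_exp.2 ?_
      push_cast; nlinarith [sq_nonneg (x - T)]
    rw [hA1]
    nlinarith [sq_nonneg (Real.exp (-x ^ 2 / 2) - Real.exp (-(x - T) ^ 2 / 2)),
      Real.exp_pos (-x ^ 2 / 4), Real.exp_pos (-(x - T) ^ 2 / 4)]
  have b2 : A2 ^ 2 ≤ 2 * Wq T x := by
    rw [hA2, sq_abs]; linarith
  have b3 : A3 ^ 2 ≤ C1 ^ 2 * Wq T x := by
    have h5 : ind T x ^ 2 = ind T x := by
      by_cases h : x ∈ Icc 0 T
      · rw [ind_mem h]; norm_num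
      · rw [ind_not h]; norm_num
    have h6 : ind T x * ((1 + |x|) ^ 2)⁻¹ ≤ Wq T x := by
      unfold Wq
      have p1 := Real.exp_pos (-x ^ 2 / 4)
      have p2 := Real.exp_pos (-(x - T) ^ 2 / 4)
      linarith
    calc A3 ^ 2 = C1 ^ 2 * (ind T x * ((1 + |x|) ^ 2)⁻¹) := by
          rw [hA3, mul_pow, h5, div_pow, div_eq_mul_inv]; ring
      _ ≤ _ := by gcongr
  have hz := sq_nonneg ‖zr k r x‖
  have hA20 : 0 ≤ A2 := by rw [hA2]; positivity
  have hA30 : 0 ≤ A3 := by rw [hA3]; positivity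
  calc ‖Fn (H k u) T r x - ind T t * zr k r x‖ ^ 2 ≤ ((A1 + A2 + A3) * ‖zr k r x‖) ^ 2 := by gcongr
    _ = (A1 + A2 + A3) ^ 2 * ‖zr k r x‖ ^ 2 := by ring
    _ ≤ (3 * (A1 ^ 2 + A2 ^ 2 + A3 ^ 2)) * ‖zr k r x‖ ^ 2 := by
        gcongr
        nlinarith [sq_nonneg (A1 - A2), sq_nonneg (A1 - A3), sq_nonneg (A2 - A3)]
    _ ≤ (3 * (16 * Wq T x + 2 * Wq T x + C1 ^ 2 * Wq T x)) * ‖zr k r x‖ ^ 2 := by
        gcongr
    _ = _ := by ring

lemma B0_unif (k : ℕ) : ∃ C : ℝ, 0 ≤ C ∧ ∀ r : ℝ, |r| ≤ 1 / 4 → B (zr k r) 0 ≤ C := by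
  obtain ⟨C, p, hC, hb⟩ := zr_bd k
  refine ⟨∫ t : ℝ, C * (Real.exp (-(t - 0) ^ 2 / 4) * (1 + |t|) ^ p), integral_nonneg fun t => by positivity,
    fun r hr => ?_⟩
  obtain ⟨G, K, D⟩ := zr_dat k hr
  refine integral_mono (B_int D 0) ((gp_int p 0).const_mul C) fun t => ?_
  simp only
  calc _ ≤ Real.exp (-(t - 0) ^ 2 / 4) * (C * (1 + |t|) ^ p) := by gcongr; exact hb r hr t
    _ = _ := by ring

lemma M_unif (k : ℕ) {S : ℝ} (hS : 0 ≤ S) : ∃ C : ℝ, 0 ≤ C ∧ ∀ r : ℝ, |r| ≤ 1 / 4 → M (zr k r) S ≤ C := by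
  obtain ⟨C, p, hC, hb⟩ := zr_bd k
  refine ⟨∫ t in (0:ℝ)..S, C * (1 + |t|) ^ p, intervalIntegral.integral_nonneg hS fun t _ => by positivity,
    fun r hr => ?_⟩
  obtain ⟨G, K, D⟩ := zr_dat k hr
  refine intervalIntegral.integral_mono_on hS (D.sc.intervalIntegrable _ _)
    ((by fun_prop : Continuous fun t : ℝ => C * (1 + |t|) ^ p).intervalIntegrable _ _) fun t _ => hb r hr t

/-- the error integral, uniformly in the line -/
lemma Om_r (k : ℕ) {b : ℝ} (hb0 : 0 ≤ b) {ε : ℝ} (hε : 0 < ε) : ∃ C T0 : ℝ, 0 ≤ C ∧ 1 < T0 ∧ ∀ T : ℝ, T0 ≤ T →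
    ∀ r : ℝ, |r| ≤ b / Real.log T → |r| ≤ 1 / 4 →
    Om (zr k r) T ≤ ε * M (zr k r) T + C * (1 + B (zr k 0) T) := by
  obtain ⟨S, hS⟩ := exists_nat_gt (ε⁻¹)
  have hS0 : (0:ℝ) < S := lt_trans (by positivity) hS
  have hS1 : (1:ℝ) ≤ S := by
    have : 0 < S := by exact_mod_cast hS0
    exact_mod_cast this
  obtain ⟨c0, hc0, hB0⟩ := B0_unif k
  obtain ⟨c1, hc1, hM1⟩ := M_unif k hS0.le
  obtain ⟨c2, T0, hc2, hT0, hBT⟩ := BrT k hb0
  refine ⟨c0 + c1 + c2, max T0 S, by positivity, lt_max_of_lt_left hT0, fun T hT r hr hr4 => ?_⟩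
  have hTT0 : T0 ≤ T := (le_max_left _ _).trans hT
  have hTS : (S:ℝ) ≤ T := (le_max_right _ _).trans hT
  have hTn : 0 ≤ T := by linarith
  obtain ⟨G, K, D⟩ := zr_dat k hr4
  have hc3 : Continuous (fun t : ℝ => ((1 + |t|) ^ 2)⁻¹ * ‖zr k r t‖ ^ 2) := by
    refine Continuous.mul ?_ D.sc
    refine Continuous.inv₀ (by fun_prop) (fun t => ?_)
    have := abs_nonneg t
    positivity
  have e : Om (zr k r) T = B (zr k r) 0 + B (zr k r) T + ∫ t in (0:ℝ)..T, ((1 + |t|) ^ 2)⁻¹ * ‖zr k r t‖ ^ 2 := by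
    rw [B0_eq]
    unfold Om B
    rw [← ind_val hTn, ← integral_add (B0_int D) (B_int D T), ← integral_add
      (iadd (B0_int D) (B_int D T)) (ind_bd hc3)]
    refine integral_congr_ae (Eventually.of_forall fun t => ?_)
    simp only
    unfold Wq
    ring
  rw [e]
  have h3 : ∫ t in (0:ℝ)..T, ((1 + |t|) ^ 2)⁻¹ * ‖zr k r t‖ ^ 2 ≤ M (zr k r) S + ε * M (zr k r) T := by
    rw [← intervalIntegral.integral_add_adjacent_intervals (a := 0) (b := (S:ℝ)) (c := T)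
      (hc3.intervalIntegrable _ _) (hc3.intervalIntegrable _ _)]
    have h4 : ∫ t in (0:ℝ)..S, ((1 + |t|) ^ 2)⁻¹ * ‖zr k r t‖ ^ 2 ≤ M (zr k r) S := by
      refine intervalIntegral.integral_mono_on hS0.le (hc3.intervalIntegrable _ _)
        (D.sc.intervalIntegrable _ _) fun t _ => ?_
      have : ((1 + |t|) ^ 2)⁻¹ ≤ 1 := by
        refine inv_le_one_of_one_le₀ (one_le_pow₀ ?_)
        have := abs_nonneg t
        linarith
      have h0 : 0 ≤ ‖zr k r t‖ ^ 2 := by positivity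
      nlinarith
    have h5 : ∫ t in (S:ℝ)..T, ((1 + |t|) ^ 2)⁻¹ * ‖zr k r t‖ ^ 2 ≤ ∫ t in (S:ℝ)..T, ε * ‖zr k r t‖ ^ 2 := by
      refine intervalIntegral.integral_mono_on hTS (hc3.intervalIntegrable _ _)
        ((D.sc.const_mul ε |>.intervalIntegrable _ _)) fun t ht => ?_
      have h6 : ((1 + |t|) ^ 2)⁻¹ ≤ ε := by
        rw [inv_le_comm₀ (by positivity) hε]
        have h7 : (S:ℝ) ≤ |t| := ht.1.trans (le_abs_self t)
        nlinarith
      gcongr
    rw [intervalIntegral.integral_const_mul] at h5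
    have h8 : ∫ t in (S:ℝ)..T, ‖zr k r t‖ ^ 2 ≤ M (zr k r) T := by
      unfold M
      rw [← intervalIntegral.integral_add_adjacent_intervals (a := 0) (b := (S:ℝ)) (c := T)
        (D.sc.intervalIntegrable _ _) (D.sc.intervalIntegrable _ _)]
      have : 0 ≤ ∫ t in (0:ℝ)..S, ‖zr k r t‖ ^ 2 :=
        intervalIntegral.integral_nonneg hS0.le fun t _ => by positivity
      linarith
    have h9 := mul_le_mul_of_nonneg_left h8 hε.le
    linarith
  have h10 := hB0 r hr4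
  have h11 := hM1 r hr4
  have h12 := hBT T hTT0 r hr
  have h13 := B_nonneg (zr k 0) T
  nlinarith [mul_nonneg hc0 h13, mul_nonneg hc1 h13]

/-- the spectral side on the line `r` with shift `a` -/
def SpC (F : ℝ → ℂ) (a : ℝ) : ℂ := ∫ w, cexp ((4 * Real.pi * a * w : ℝ) * I) * ((‖𝓕 F w‖ ^ 2 : ℝ) : ℂ)

lemma prod_int {F : ℝ → ℂ} (hF : Dec F) (a : ℝ) : Integrable (fun t => F (t + a) * conj (F (t + -a))) := by
  have h1 := (hF.shift a)
  have h2 := (hF.shift (-a))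
  refine (iadd h1.sq h2.sq).mono' ((h1.cont.mul (Complex.continuous_conj.comp h2.cont)).aestronglyMeasurable)
    (Eventually.of_forall fun t => ?_)
  rw [norm_mul, RCLike.norm_conj]
  nlinarith [sq_nonneg (‖F (t + a)‖ - ‖F (t + -a)‖), sq_nonneg ‖F (t + a)‖, sq_nonneg ‖F (t + -a)‖]

lemma spec_re {F : ℝ → ℂ} (hF : Dec F) (a κ : ℝ) :
    (cexp (κ * I) * ∫ t, F (t + a) * conj (F (t + -a))).re =
      ∫ w, Real.cos (4 * Real.pi * a * w + κ) * ‖𝓕 F w‖ ^ 2 := by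
  have hcosI : Integrable (fun w => Real.cos (4 * Real.pi * a * w + κ) * ‖𝓕 F w‖ ^ 2) := by
    refine ((planch hF).1).mono' ?_ (Eventually.of_forall fun w => ?_)
    · have : Continuous (fun w => Real.cos (4 * Real.pi * a * w + κ) * ‖𝓕 F w‖ ^ 2) := by
        have := ft_cont hF
        fun_prop
      exact this.aestronglyMeasurable
    · rw [norm_mul, Real.norm_eq_abs, Real.norm_of_nonneg (by positivity)]
      exact mul_le_of_le_one_left (by positivity) (Real.abs_cos_le_one _)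
  have h1 : ∫ t, ‖U a κ F t‖ ^ 2 = 2 * (∫ t, ‖F t‖ ^ 2) +
      2 * ∫ w, Real.cos (4 * Real.pi * a * w + κ) * ‖𝓕 F w‖ ^ 2 := by
    rw [U_norm hF, ← (planch hF).2]
    unfold mu
    rw [← integral_const_mul, ← integral_const_mul, ← integral_add ((planch hF).1.const_mul 2)
      (hcosI.const_mul 2)]
    refine integral_congr_ae (Eventually.of_forall fun w => ?_)
    simp only
    ring
  have hp := prod_int hF a
  have hre : (cexp (κ * I) * ∫ t, F (t + a) * conj (F (t + -a))).re =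
      ∫ t, (cexp (κ * I) * (F (t + a) * conj (F (t + -a)))).re := by
    rw [← integral_const_mul]
    exact (integral_re (hp.const_mul _)).symm
  have h2 : ∫ t, ‖U a κ F t‖ ^ 2 = 2 * (∫ t, ‖F t‖ ^ 2) +
      2 * (cexp (κ * I) * ∫ t, F (t + a) * conj (F (t + -a))).re := by
    have i1 := (hF.shift a).sq
    have i2 := (hF.shift (-a)).sq
    have i3 : Integrable (fun t => 2 * (cexp (κ * I) * (F (t + a) * conj (F (t + -a)))).re) :=
      ((hp.const_mul (cexp (κ * I))).re).const_mul 2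
    calc ∫ t, ‖U a κ F t‖ ^ 2 = ∫ t, ((‖F (t + a)‖ ^ 2 + ‖F (t + -a)‖ ^ 2) +
        2 * (cexp (κ * I) * (F (t + a) * conj (F (t + -a)))).re) :=
          integral_congr_ae (Eventually.of_forall fun t => Uz_sq F a κ t)
      _ = _ := by
          rw [integral_add (iadd i1 i2) i3, integral_add i1 i2, integral_const_mul, hre,
            integral_add_right_eq_self (fun t : ℝ => ‖F t‖ ^ 2) a,
            integral_add_right_eq_self (fun t : ℝ => ‖F t‖ ^ 2) (-a)]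
          ring
  linarith

lemma SpC_int {F : ℝ → ℂ} (hF : Dec F) (a : ℝ) :
    Integrable (fun w => cexp ((4 * Real.pi * a * w : ℝ) * I) * ((‖𝓕 F w‖ ^ 2 : ℝ) : ℂ)) := by
  refine ((planch hF).1).mono' ?_ (Eventually.of_forall fun w => ?_)
  · have : Continuous (fun w : ℝ => cexp ((4 * Real.pi * a * w : ℝ) * I) * ((‖𝓕 F w‖ ^ 2 : ℝ) : ℂ)) := by
      have := ft_cont hF
      fun_prop
    exact this.aestronglyMeasurable
  · rw [norm_mul, Complex.norm_exp_ofReal_mul_I, one_mul, Complex.norm_real, Real.norm_of_nonneg (by positivity)]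

/-- Plancherel for the correlations -/
theorem spec_eq {F : ℝ → ℂ} (hF : Dec F) (a : ℝ) :
    ∫ t, F (t + a) * conj (F (t + -a)) = SpC F a := by
  have hI := SpC_int hF a
  apply Complex.ext
  · have h := spec_re hF a 0
    simp only [ofReal_zero, zero_mul, Complex.exp_zero, one_mul, add_zero] at h
    rw [h]
    have e : (SpC F a).re = ∫ w, (cexp ((4 * Real.pi * a * w : ℝ) * I) * ((‖𝓕 F w‖ ^ 2 : ℝ) : ℂ)).re :=
      (integral_re hI).symm
    rw [e]
    refine integral_congr_ae (Eventually.of_forall fun w => ?_)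
    simp only
    rw [mul_comm (cexp _), Complex.re_ofReal_mul, Complex.exp_ofReal_mul_I_re, mul_comm]
  · have h := spec_re hF a (-(Real.pi / 2))
    have e0 : cexp (((-(Real.pi / 2) : ℝ) : ℂ) * I) = -I := by
      push_cast
      rw [neg_mul, Complex.exp_neg, Complex.exp_pi_div_two_mul_I, inv_I]
    rw [e0] at h
    have e1 : (-I * ∫ t, F (t + a) * conj (F (t + -a))).re = (∫ t, F (t + a) * conj (F (t + -a))).im := by
      simp
    rw [e1] at h
    rw [h]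
    have e : (SpC F a).im = ∫ w, (cexp ((4 * Real.pi * a * w : ℝ) * I) * ((‖𝓕 F w‖ ^ 2 : ℝ) : ℂ)).im :=
      (integral_im hI).symm
    rw [e]
    refine integral_congr_ae (Eventually.of_forall fun w => ?_)
    simp only
    rw [mul_comm (cexp _), Complex.im_ofReal_mul, Complex.exp_ofReal_mul_I_im, ← sub_eq_add_neg,
      Real.cos_sub_pi_div_two, mul_comm]

end

end Pool.Agent.K4H66.OL
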