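import Pool.Agent.K4H66.OL.C

set_option autoImplicit false

/-! The correlations on the lines near the critical line and their spectral side. -/

namespace Pool.Agent.K4H66.OL

open Complex MeasureTheory Filter Topology Set Pool.Agent.TH535.SM
open scoped FourierTransform ComplexConjugate

noncomputable section

lemma indC_eq (T : ℝ) (g : ℝ → ℂ) : (fun t => (ind T t : ℂ) * g t) = (Icc (0:ℝ) T).indicator g := by
  funext t
  by_cases ht : t ∈ Icc 0 T
  · rw [indicator_of_mem ht, ind_mem ht, ofReal_one, one_mul]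
  · rw [indicator_of_notMem ht, ind_not ht, ofReal_zero, zero_mul]

lemma indC_int (T : ℝ) {g : ℝ → ℂ} (hg : Continuous g) : Integrable (fun t => (ind T t : ℂ) * g t) := by
  rw [indC_eq]
  exact (integrable_indicator_iff measurableSet_Icc).2 (hg.continuousOn.integrableOn_Icc)

lemma indC_val {T : ℝ} (hT : 0 ≤ T) (g : ℝ → ℂ) : ∫ t, (ind T t : ℂ) * g t = ∫ t in (0:ℝ)..T, g t := by
  have e := indC_eq T g
  rw [intervalIntegral.integral_of_le hT, ← integral_Icc_eq_integral_Ioc, ← integral_indicator measurableSet_Icc,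
    ← e]

lemma Fn_decr (k : ℕ) {u : ℕ} (hu : 1 ≤ u) {T : ℝ} (hT : 1 ≤ T) {r : ℝ} (hr : |r| ≤ u) :
    Dec (Fn (H k u) T r) := by
  rw [Fn_eq]
  exact (VG_SD (H_PG k hu) hT).dec hr

/-- correlation against the smoothed correlation -/
theorem cor_close (k : ℕ) {u : ℕ} (hu : 1 ≤ u) {b : ℝ} (hb0 : 0 ≤ b) {ε : ℝ} (hε : 0 < ε) :
    ∃ C T0 : ℝ, 0 ≤ C ∧ 1 < T0 ∧ ∀ T : ℝ, T0 ≤ T → ∀ r : ℝ, |r| ≤ b / Real.log T → |r| ≤ 1 / 4 →
      ∀ a : ℝ, |a| ≤ 1 →
      ‖Cor (zr k r) a T - SpC (Fn (H k u) T r) a‖ ≤ ε * M (zr k r) T + C * (1 + B (zr k 0) T) := by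
  obtain ⟨C1, hC1, hcl⟩ := close_r k hu
  set η : ℝ := ε / 4 with hη
  have hη0 : 0 < η := by positivity
  obtain ⟨c0, hc0, hB0⟩ := B0_unif k
  obtain ⟨c2, T2, hc2, hT2, hBT⟩ := BrT k hb0
  obtain ⟨c3, T3, hc3, hT3, hOm⟩ := Om_r k hb0 (ε := ε / (2 * ((η⁻¹ + 1) * C1))) (by positivity)
  have hKK : 0 < (η⁻¹ + 1) * C1 := by positivity
  refine ⟨2 * η * (c0 + c2) + (η⁻¹ + 1) * C1 * c3, max T2 T3, by positivity, lt_max_of_lt_left hT2,
    fun T hT r hr hr4 a ha => ?_⟩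
  have hTT2 : T2 ≤ T := (le_max_left _ _).trans hT
  have hTT3 : T3 ≤ T := (le_max_right _ _).trans hT
  have hT1 : 1 ≤ T := by linarith
  have hTn : 0 ≤ T := by linarith
  obtain ⟨G, K, D⟩ := zr_dat k hr4
  set z := zr k r with hz
  set F := Fn (H k u) T r with hF
  have hu1 : (1:ℝ) ≤ u := by exact_mod_cast hu
  have hdec : Dec F := Fn_decr k hu hT1 (by linarith)
  have hzc : Continuous z := D.zc
  have hgc : Continuous (fun t => z (t + a) * conj (z (t + -a))) :=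
    (hzc.comp (by fun_prop)).mul (Complex.continuous_conj.comp (hzc.comp (by fun_prop)))
  have i1 := prod_int hdec a
  have i2 := indC_int T hgc
  have j1 := (Om_int D T).comp_add_right a
  have j2 := (Om_int D T).comp_add_right (-a)
  have hca : Continuous (fun t => ‖z (t + a)‖ ^ 2) := D.sc.comp (by fun_prop)
  have hcb : Continuous (fun t => ‖z (t + -a)‖ ^ 2) := D.sc.comp (by fun_prop)
  have j3 := ind_bd (T := T) hca
  have j4 := ind_bd (T := T) hcb
  have e1 : Cor z a T - SpC F a = ∫ t, ((ind T t : ℂ) * (z (t + a) * conj (z (t + -a))) -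
      F (t + a) * conj (F (t + -a))) := by
    rw [integral_sub i2 i1, indC_val hTn, spec_eq hdec]
    rfl
  have hA : ∀ x y e : ℝ, 0 < e → x * y ≤ e / 2 * x ^ 2 + e⁻¹ / 2 * y ^ 2 := by
    intro x y e he
    have h4 : 0 ≤ (e * x - y) ^ 2 * e⁻¹ := by positivity
    have h5 : (e * x - y) ^ 2 * e⁻¹ = e * x ^ 2 + e⁻¹ * y ^ 2 - 2 * (x * y) := by
      field_simp
      ring
    linarith
  have hpt : ∀ t, ‖(ind T t : ℂ) * (z (t + a) * conj (z (t + -a))) - F (t + a) * conj (F (t + -a))‖ ≤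
      η / 2 * (ind T t * ‖z (t + a)‖ ^ 2 + ind T t * ‖z (t + -a)‖ ^ 2) +
      (η⁻¹ + 1) * C1 / 2 * (Wq T (t + a) * ‖z (t + a)‖ ^ 2 + Wq T (t + -a) * ‖z (t + -a)‖ ^ 2) := by
    intro t
    have h2 := hcl T hT1 r hr4 t a ha
    have h3 := hcl T hT1 r hr4 t (-a) (by rwa [abs_neg])
    rw [← hF, ← hz] at h2 h3
    obtain ⟨E1, hE1⟩ : ∃ E1, E1 = F (t + a) - ind T t * z (t + a) := ⟨_, rfl⟩
    obtain ⟨E2, hE2⟩ : ∃ E2, E2 = F (t + -a) - ind T t * z (t + -a) := ⟨_, rfl⟩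
    rw [← hE1] at h2
    rw [← hE2] at h3
    have f1 : F (t + a) = ind T t * z (t + a) + E1 := by rw [hE1]; ring
    have f2 : F (t + -a) = ind T t * z (t + -a) + E2 := by rw [hE2]; ring
    have hi : ((ind T t : ℝ) : ℂ) * (ind T t : ℂ) = (ind T t : ℂ) := by
      by_cases h : t ∈ Icc 0 T
      · rw [ind_mem h]; norm_num
      · rw [ind_not h]; norm_num
    have e2 : (ind T t : ℂ) * (z (t + a) * conj (z (t + -a))) - F (t + a) * conj (F (t + -a)) =
        -(((ind T t : ℂ) * z (t + a)) * conj E2 + E1 * ((ind T t : ℂ) * conj (z (t + -a))) + E1 * conj E2) := by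
      rw [f1, f2, map_add, map_mul, Complex.conj_ofReal]
      have : ((ind T t : ℂ) * z (t + a) + E1) * ((ind T t : ℂ) * conj (z (t + -a)) + conj E2) =
          ((ind T t : ℂ) * (ind T t : ℂ)) * (z (t + a) * conj (z (t + -a))) + ((ind T t : ℂ) * z (t + a)) * conj E2 +
          E1 * ((ind T t : ℂ) * conj (z (t + -a))) + E1 * conj E2 := by ring
      rw [this, hi]
      ring
    rw [e2, norm_neg]
    have hi0 := ind_nonneg T t
    have hi1 := ind_le T t
    have n1 : ‖((ind T t : ℂ) * z (t + a)) * conj E2‖ ≤ η / 2 * (ind T t * ‖z (t + a)‖ ^ 2) + η⁻¹ / 2 * ‖E2‖ ^ 2 := by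
      rw [norm_mul, RCLike.norm_conj, ← ind_sq]
      exact hA _ _ _ hη0
    have n2 : ‖E1 * ((ind T t : ℂ) * conj (z (t + -a)))‖ ≤ η / 2 * (ind T t * ‖z (t + -a)‖ ^ 2) + η⁻¹ / 2 * ‖E1‖ ^ 2 := by
      have e3 : ‖(ind T t : ℂ) * conj (z (t + -a))‖ = ‖(ind T t : ℂ) * z (t + -a)‖ := by
        rw [norm_mul, norm_mul, RCLike.norm_conj]
      rw [norm_mul, e3, mul_comm, ← ind_sq]
      exact hA _ _ _ hη0
    have n3 : ‖E1 * conj E2‖ ≤ 1 / 2 * ‖E1‖ ^ 2 + 1 / 2 * ‖E2‖ ^ 2 := by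
      rw [norm_mul, RCLike.norm_conj]
      nlinarith [sq_nonneg (‖E1‖ - ‖E2‖)]
    have n4 := norm_add_le (((ind T t : ℂ) * z (t + a)) * conj E2 + E1 * ((ind T t : ℂ) * conj (z (t + -a)))) (E1 * conj E2)
    have n5 := norm_add_le (((ind T t : ℂ) * z (t + a)) * conj E2) (E1 * ((ind T t : ℂ) * conj (z (t + -a))))
    have hηi : 0 < η⁻¹ := by positivity
    have n6 : (η⁻¹ + 1) / 2 * (‖E1‖ ^ 2 + ‖E2‖ ^ 2) ≤ (η⁻¹ + 1) / 2 *
        (C1 * (Wq T (t + a) * ‖z (t + a)‖ ^ 2) + C1 * (Wq T (t + -a) * ‖z (t + -a)‖ ^ 2)) := by gcongr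
    calc _ ≤ η / 2 * (ind T t * ‖z (t + a)‖ ^ 2 + ind T t * ‖z (t + -a)‖ ^ 2) +
        (η⁻¹ + 1) / 2 * (‖E1‖ ^ 2 + ‖E2‖ ^ 2) := by linarith
      _ ≤ _ := by linarith
  have hint : Integrable (fun t => η / 2 * (ind T t * ‖z (t + a)‖ ^ 2 + ind T t * ‖z (t + -a)‖ ^ 2) +
      (η⁻¹ + 1) * C1 / 2 * (Wq T (t + a) * ‖z (t + a)‖ ^ 2 + Wq T (t + -a) * ‖z (t + -a)‖ ^ 2)) :=
    iadd ((iadd j3 j4).const_mul _) ((iadd j1 j2).const_mul _)
  have hmain : ‖Cor z a T - SpC F a‖ ≤ η / 2 * ((∫ t in (0:ℝ)..T, ‖z (t + a)‖ ^ 2) +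
      ∫ t in (0:ℝ)..T, ‖z (t + -a)‖ ^ 2) + (η⁻¹ + 1) * C1 * Om z T := by
    rw [e1]
    refine (norm_integral_le_of_norm_le hint (Eventually.of_forall hpt)).trans (le_of_eq ?_)
    rw [integral_add ((iadd j3 j4).const_mul _) ((iadd j1 j2).const_mul _), integral_const_mul,
      integral_const_mul, integral_add j3 j4, integral_add j1 j2, ind_val hTn, ind_val hTn,
      integral_add_right_eq_self (μ := volume) (fun t : ℝ => Wq T t * ‖z t‖ ^ 2) a,
      integral_add_right_eq_self (μ := volume) (fun t : ℝ => Wq T t * ‖z t‖ ^ 2) (-a)]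
    unfold Om
    ring
  have s1 := shift_le D hTn ha
  have s2 := shift_le D hTn (a := -a) (by rwa [abs_neg])
  have b0 := hB0 r hr4
  have bT := hBT T hTT2 r hr
  have hom := hOm T hTT3 r hr hr4
  rw [← hz] at b0 bT hom
  have hBn := B_nonneg (zr k 0) T
  have hM := M_nonneg z hTn
  have h4 := mul_le_mul_of_nonneg_left hom hKK.le
  have e5 : (η⁻¹ + 1) * C1 * (ε / (2 * ((η⁻¹ + 1) * C1)) * M z T + c3 * (1 + B (zr k 0) T)) =
      ε / 2 * M z T + (η⁻¹ + 1) * C1 * c3 * (1 + B (zr k 0) T) := by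
    field_simp
  rw [e5] at h4
  have h5 : η / 2 * ((∫ t in (0:ℝ)..T, ‖z (t + a)‖ ^ 2) + ∫ t in (0:ℝ)..T, ‖z (t + -a)‖ ^ 2) ≤
      η / 2 * (2 * M z T + 4 * (c0 + c2 * (1 + B (zr k 0) T))) := by
    refine mul_le_mul_of_nonneg_left ?_ (by positivity)
    linarith
  have h6 : c0 ≤ c0 * (1 + B (zr k 0) T) := by nlinarith [mul_nonneg hc0 hBn]
  have h7 : η * c0 ≤ η * (c0 * (1 + B (zr k 0) T)) := mul_le_mul_of_nonneg_left h6 hη0.le
  have h8 : η * M z T = ε / 4 * M z T := by rw [hη]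
  have h9 : 0 ≤ ε * M z T := by positivity
  calc _ ≤ η / 2 * (2 * M z T + 4 * (c0 + c2 * (1 + B (zr k 0) T))) + (ε / 2 * M z T +
        (η⁻¹ + 1) * C1 * c3 * (1 + B (zr k 0) T)) := by linarith
    _ ≤ _ := by linarith

lemma Cor_zero' (z : ℝ → ℂ) (T : ℝ) : Cor z 0 T = ((M z T : ℝ) : ℂ) := by
  unfold Cor M
  rw [← intervalIntegral.integral_ofReal]
  refine intervalIntegral.integral_congr fun t _ => ?_
  simp only [neg_zero, add_zero]
  rw [Complex.mul_conj, Complex.normSq_eq_norm_sq]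

lemma SpC_zero {F : ℝ → ℂ} (hF : Dec F) : SpC F 0 = ((∫ t, ‖F t‖ ^ 2 : ℝ) : ℂ) := by
  unfold SpC
  rw [← (planch hF).2, ← integral_complex_ofReal]
  refine integral_congr_ae (Eventually.of_forall fun w => ?_)
  simp

/-- the square integral of the smoothed function against the moment -/
theorem sq_close (k : ℕ) {u : ℕ} (hu : 1 ≤ u) {b : ℝ} (hb0 : 0 ≤ b) {ε : ℝ} (hε : 0 < ε) :
    ∃ C T0 : ℝ, 0 ≤ C ∧ 1 < T0 ∧ ∀ T : ℝ, T0 ≤ T → ∀ r : ℝ, |r| ≤ b / Real.log T → |r| ≤ 1 / 4 →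
      |M (zr k r) T - ∫ t, ‖Fn (H k u) T r t‖ ^ 2| ≤ ε * M (zr k r) T + C * (1 + B (zr k 0) T) := by
  obtain ⟨C, T0, hC, hT0, h⟩ := cor_close k hu hb0 hε
  refine ⟨C, T0, hC, hT0, fun T hT r hr hr4 => ?_⟩
  have h1 := h T hT r hr hr4 0 (by simp)
  have hu1 : (1:ℝ) ≤ u := by exact_mod_cast hu
  rw [Cor_zero', SpC_zero (Fn_decr k hu (by linarith) (by linarith)), ← Complex.ofReal_sub, Complex.norm_real,
    Real.norm_eq_abs] at h1
  exact h1

/-- the square integrals on the outer lines -/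
lemma outer (k : ℕ) {u : ℕ} (hu : 1 ≤ u) : ∃ C : ℝ, 0 ≤ C ∧ ∀ T : ℝ, 1 ≤ T →
    ∫ t, ‖Fn (H k u) T u t‖ ^ 2 ≤ C * T ∧ ∫ t, ‖Fn (H k u) T (-u) t‖ ^ 2 ≤ C * T ^ (2 * (u * k) + 1) := by
  obtain ⟨C1, hC1, h1⟩ := H_right k hu
  obtain ⟨C2, hC2, h2⟩ := H_left k hu
  obtain ⟨D0, hD0, hs0⟩ := Fn_sq 0
  obtain ⟨D1, hD1, hs1⟩ := Fn_sq (u * k)
  have hu0 : (0:ℝ) ≤ u := Nat.cast_nonneg u
  refine ⟨D0 * Real.exp (2 * (u:ℝ) ^ 2) * C1 ^ 2 + D1 * Real.exp (2 * (-(u:ℝ)) ^ 2) * C2 ^ 2, by positivity,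
    fun T hT => ⟨?_, ?_⟩⟩
  · have h := hs0 (H k u) u (H_PG k hu) T hT u (by linarith) le_rfl C1 (by linarith) (by simpa using h1)
    refine h.trans ?_
    simp only [mul_zero, zero_add, pow_one]
    refine mul_le_mul_of_nonneg_right ?_ (by linarith)
    have : 0 ≤ D1 * Real.exp (2 * (-(u:ℝ)) ^ 2) * C2 ^ 2 := by positivity
    linarith
  · have h := hs1 (H k u) u (H_PG k hu) T hT (-u) le_rfl (by linarith) C2 (by linarith) (by
      intro t
      have := h2 t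
      rwa [sub_eq_add_neg] at this)
    refine h.trans ?_
    refine mul_le_mul_of_nonneg_right ?_ (by positivity)
    have : 0 ≤ D0 * Real.exp (2 * (u:ℝ) ^ 2) * C1 ^ 2 := by positivity
    linarith

/-- the tails of the spectral measures on the lines near the critical line -/
theorem tails (k : ℕ) {u : ℕ} (hu : 1 ≤ u) {δ : ℝ} (hδ : 0 < δ) (hδ1 : δ ≤ 1) (huδ : 1 ≤ δ * u) :
    ∃ C : ℝ, 0 ≤ C ∧ ∀ T : ℝ, 1 ≤ T → ∀ r : ℝ, |r| * (4 * (k + 1)) ≤ 1 →
      ms (Fn (H k u) T r) (Ici (δ * Real.log T / (2 * Real.pi))) ≤ C ∧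
      ms (Fn (H k u) T r) (Iic (-((k + δ) * Real.log T / (2 * Real.pi)))) ≤ C := by
  obtain ⟨C, hC, ho⟩ := outer k hu
  refine ⟨C, hC, fun T hT r hr => ?_⟩
  have hT0 : 0 < T := by linarith
  have hL : 0 ≤ Real.log T := Real.log_nonneg hT
  have hk0 : (0:ℝ) ≤ k := Nat.cast_nonneg k
  have hu1 : (1:ℝ) ≤ u := by exact_mod_cast hu
  have habs := abs_nonneg r
  have hr4 : |r| ≤ 1 / 4 := by nlinarith
  have hru : |r| ≤ u := by linarith
  have hu' : |(u:ℝ)| ≤ u := by rw [Nat.abs_cast]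
  have hu'' : |-(u:ℝ)| ≤ u := by rw [abs_neg, Nat.abs_cast]
  obtain ⟨hr1, hr2⟩ := abs_le.1 (le_refl |r|)
  have hSD := VG_SD (H_PG k hu) hT
  have hp := Real.pi_pos
  obtain ⟨o1, o2⟩ := ho T hT
  set L := Real.log T with hLd
  have d0 := Fn_decr k hu hT hru
  have d1 := Fn_decr k hu hT hu'
  have d2 := Fn_decr k hu hT hu''
  constructor
  · have h1 : ms (Fn (H k u) T r) (Ici (δ * L / (2 * Real.pi))) ≤
        Real.exp (-(2 * (δ * (u - |r|))) * L) * ∫ t, ‖Fn (H k u) T u t‖ ^ 2 := by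
      unfold ms
      rw [← (planch d1).2, ← integral_const_mul]
      calc _ ≤ ∫ w in Ici (δ * L / (2 * Real.pi)), Real.exp (-(2 * (δ * (u - |r|))) * L) * ‖𝓕 (Fn (H k u) T u) w‖ ^ 2 := by
            refine setIntegral_mono_on (planch d0).1.integrableOn ((planch d1).1.integrableOn.const_mul _)
              measurableSet_Ici fun w hw => ?_
            have h2 := hSD.four hru hu' w
            rw [Fn_eq, Fn_eq, h2]
            refine mul_le_mul_of_nonneg_right (Real.exp_le_exp.2 ?_) (by positivity)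
            have hw' : δ * L / (2 * Real.pi) ≤ w := hw
            have hw0 : 0 ≤ w := le_trans (by positivity) hw'
            have h3 : (δ * L / (2 * Real.pi)) * (u - |r|) ≤ w * (u - r) := by
              calc _ ≤ w * (u - |r|) := mul_le_mul_of_nonneg_right hw' (by linarith)
                _ ≤ _ := mul_le_mul_of_nonneg_left (by linarith) hw0
            have h4 := mul_le_mul_of_nonneg_left h3 (by positivity : 0 ≤ 4 * Real.pi)
            have e : 4 * Real.pi * ((δ * L / (2 * Real.pi)) * (u - |r|)) = 2 * (δ * (u - |r|)) * L := by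
              field_simp; ring
            rw [e] at h4
            linarith
        _ ≤ _ := setIntegral_le_integral ((planch d1).1.const_mul _) (Eventually.of_forall fun w => by positivity)
    have h3 : Real.exp (-(2 * (δ * (u - |r|))) * L) * T ≤ 1 := by
      have e2 : Real.exp L = T := Real.exp_log hT0
      rw [← e2, ← Real.exp_add, Real.exp_le_one_iff]
      have : 1 ≤ 2 * (δ * (u - |r|)) := by nlinarith
      nlinarith
    have hE := Real.exp_pos (-(2 * (δ * (u - |r|))) * L)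
    calc _ ≤ Real.exp (-(2 * (δ * (u - |r|))) * L) * (C * T) := h1.trans (by gcongr)
      _ = C * (Real.exp (-(2 * (δ * (u - |r|))) * L) * T) := by ring
      _ ≤ C * 1 := by gcongr
      _ = C := mul_one _
  · have h1 : ms (Fn (H k u) T r) (Iic (-((k + δ) * L / (2 * Real.pi)))) ≤
        Real.exp (-(2 * ((k + δ) * (u - |r|))) * L) * ∫ t, ‖Fn (H k u) T (-u) t‖ ^ 2 := by
      unfold ms
      rw [← (planch d2).2, ← integral_const_mul]
      calc _ ≤ ∫ w in Iic (-((k + δ) * L / (2 * Real.pi))), Real.exp (-(2 * ((k + δ) * (u - |r|))) * L) *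
            ‖𝓕 (Fn (H k u) T (-u)) w‖ ^ 2 := by
            refine setIntegral_mono_on (planch d0).1.integrableOn ((planch d2).1.integrableOn.const_mul _)
              measurableSet_Iic fun w hw => ?_
            have h2 := hSD.four hru hu'' w
            rw [Fn_eq, Fn_eq, h2]
            refine mul_le_mul_of_nonneg_right (Real.exp_le_exp.2 ?_) (by positivity)
            have hw' : w ≤ -((k + δ) * L / (2 * Real.pi)) := hw
            have hw'' : (k + δ) * L / (2 * Real.pi) ≤ -w := by linarith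
            have hw0 : 0 ≤ -w := le_trans (by positivity) hw''
            have h3 : ((k + δ) * L / (2 * Real.pi)) * (u - |r|) ≤ (-w) * (u + r) := by
              calc _ ≤ (-w) * (u - |r|) := mul_le_mul_of_nonneg_right hw'' (by linarith)
                _ ≤ _ := mul_le_mul_of_nonneg_left (by linarith) hw0
            have h4 := mul_le_mul_of_nonneg_left h3 (by positivity : 0 ≤ 4 * Real.pi)
            have e : 4 * Real.pi * (((k + δ) * L / (2 * Real.pi)) * (u - |r|)) = 2 * ((k + δ) * (u - |r|)) * L := by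
              field_simp; ring
            rw [e] at h4
            linarith
        _ ≤ _ := setIntegral_le_integral ((planch d2).1.const_mul _) (Eventually.of_forall fun w => by positivity)
    have h3 : Real.exp (-(2 * ((k + δ) * (u - |r|))) * L) * T ^ (2 * (u * k) + 1) ≤ 1 := by
      have e2 : T ^ (2 * (u * k) + 1) = Real.exp ((2 * (u * k) + 1 : ℕ) * L) := by
        rw [Real.exp_nat_mul, Real.exp_log hT0]
      rw [e2, ← Real.exp_add, Real.exp_le_one_iff]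
      push_cast
      have h4 : 2 * ((k + δ) * |r|) ≤ 1 := by nlinarith
      have h5 : 2 * ((u:ℝ) * k) + 1 ≤ 2 * ((k + δ) * (u - |r|)) := by nlinarith
      nlinarith [mul_le_mul_of_nonneg_right h5 hL]
    have hE := Real.exp_pos (-(2 * ((k + δ) * (u - |r|))) * L)
    calc _ ≤ Real.exp (-(2 * ((k + δ) * (u - |r|))) * L) * (C * T ^ (2 * (u * k) + 1)) := h1.trans (by gcongr)
      _ = C * (Real.exp (-(2 * ((k + δ) * (u - |r|))) * L) * T ^ (2 * (u * k) + 1)) := by ring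
      _ ≤ C * 1 := by gcongr
      _ = C := mul_one _

/-- the moments on the lines near the critical line are controlled by the moment on it -/
theorem Mr_le (k : ℕ) {b : ℝ} (hb0 : 0 ≤ b) : ∃ C T0 : ℝ, 0 ≤ C ∧ 1 < T0 ∧ ∀ T : ℝ, T0 ≤ T →
    ∀ r : ℝ, |r| ≤ b / Real.log T → |r| ≤ 1 / 4 → M (zr k r) T ≤ C * (M (zr k 0) T + 1 + B (zr k 0) T) := by
  obtain ⟨C1, T1, hC1, hT1, h1⟩ := sq_close k (u := 1) le_rfl hb0 (ε := 1 / 2) (by norm_num)
  obtain ⟨C2, hC2, h2⟩ := outer k (u := 1) le_rfl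
  set E : ℝ := Real.exp (2 * (k + 1) * b) with hE
  have hE0 : 0 < E := Real.exp_pos _
  refine ⟨2 * (C1 + E * (2 + C1) + 2 * C2), max T1 (Real.exp (4 * (k + 1) * (b + 1))), by positivity,
    lt_max_of_lt_left hT1, fun T hT r hr hr4 => ?_⟩
  have hTT1 : T1 ≤ T := (le_max_left _ _).trans hT
  have hTe : Real.exp (4 * (k + 1) * (b + 1)) ≤ T := (le_max_right _ _).trans hT
  have hT0 : 0 < T := by linarith
  have hL : 4 * (k + 1) * (b + 1) ≤ Real.log T := by rwa [Real.le_log_iff_exp_le hT0]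
  have hk0 : (0:ℝ) ≤ k := Nat.cast_nonneg k
  have hL4 : 4 ≤ Real.log T := by nlinarith
  have hL0 : 0 < Real.log T := by linarith
  have hT1' : 1 ≤ T := by linarith
  have m1 := h1 T hTT1 r hr hr4
  have m2 := h1 T hTT1 0 (by rw [abs_zero]; positivity) (by norm_num)
  obtain ⟨o1, o2⟩ := h2 T hT1'
  set L := Real.log T with hLd
  have hbL : b / L * (4 * (k + 1)) ≤ 1 := by
    rw [div_mul_eq_mul_div, div_le_one hL0]
    nlinarith
  have hrk : |r| * (4 * (k + 1)) ≤ 1 := (mul_le_mul_of_nonneg_right hr (by positivity)).trans hbL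
  have hrL : |r| * L ≤ b := by rwa [le_div_iff₀ hL0] at hr
  have hp := Real.pi_pos
  have hSD := VG_SD (H_PG k (u := 1) le_rfl) hT1'
  have hint := hSD.interp (r := r) (by push_cast; linarith) (y0 := (k + 1) * L / (2 * Real.pi)) (by positivity)
  have e1 : 4 * Real.pi * ((k + 1) * L / (2 * Real.pi)) * |r| = 2 * (k + 1) * (|r| * L) := by
    field_simp; ring
  have e2 : 4 * Real.pi * ((k + 1) * L / (2 * Real.pi)) * ((1:ℕ) - |r|) = 2 * (k + 1) * (1 - |r|) * L := by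
    push_cast; field_simp; ring
  rw [e1, e2, ← Fn_eq, ← Fn_eq, ← Fn_eq, ← Fn_eq] at hint
  have hE1 : Real.exp (2 * (k + 1) * (|r| * L)) ≤ E := by
    refine Real.exp_le_exp.2 ?_
    exact mul_le_mul_of_nonneg_left hrL (by positivity)
  have hE2 : Real.exp (-(2 * (k + 1) * (1 - |r|) * L)) * T ^ (2 * (1 * k) + 1) ≤ 1 := by
    have e3 : T ^ (2 * (1 * k) + 1) = Real.exp ((2 * (1 * k) + 1 : ℕ) * L) := by
      rw [Real.exp_nat_mul, Real.exp_log hT0]
    rw [e3, ← Real.exp_add, Real.exp_le_one_iff]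
    push_cast
    have : 0 ≤ (1 - 2 * (k + 1) * |r|) * L := mul_nonneg (by linarith) hL0.le
    nlinarith
  have hE3 : Real.exp (-(2 * (k + 1) * (1 - |r|) * L)) * T ≤ 1 := by
    refine le_trans ?_ hE2
    have : T ≤ T ^ (2 * (1 * k) + 1) := le_self_pow₀ hT1' (by omega)
    gcongr
  have hB := B_nonneg (zr k 0) T
  have hM := M_nonneg (zr k 0) hT0.le
  have hX := Real.exp_pos (-(2 * (k + 1) * (1 - |r|) * L))
  have t1 : Real.exp (-(2 * (k + 1) * (1 - |r|) * L)) * ((∫ t, ‖Fn (H k 1) T ((1:ℕ) : ℝ) t‖ ^ 2) +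
      ∫ t, ‖Fn (H k 1) T (-((1:ℕ) : ℝ)) t‖ ^ 2) ≤ 2 * C2 := by
    calc _ ≤ Real.exp (-(2 * (k + 1) * (1 - |r|) * L)) * (C2 * T + C2 * T ^ (2 * (1 * k) + 1)) := by gcongr
      _ = C2 * (Real.exp (-(2 * (k + 1) * (1 - |r|) * L)) * T) +
          C2 * (Real.exp (-(2 * (k + 1) * (1 - |r|) * L)) * T ^ (2 * (1 * k) + 1)) := by ring
      _ ≤ C2 * 1 + C2 * 1 := by gcongr
      _ = _ := by ring
  have t2 : ∫ t, ‖Fn (H k 1) T 0 t‖ ^ 2 ≤ 2 * M (zr k 0) T + C1 * (1 + B (zr k 0) T) := by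
    have := (abs_le.1 m2).1
    linarith
  have t3 : Real.exp (2 * (k + 1) * (|r| * L)) * (∫ t, ‖Fn (H k 1) T 0 t‖ ^ 2) ≤
      E * (2 * M (zr k 0) T + C1 * (1 + B (zr k 0) T)) := by
    have : 0 ≤ ∫ t, ‖Fn (H k 1) T 0 t‖ ^ 2 := integral_nonneg fun t => by positivity
    calc _ ≤ E * ∫ t, ‖Fn (H k 1) T 0 t‖ ^ 2 := by gcongr
      _ ≤ _ := by gcongr
  have t4 := (abs_le.1 m1).2
  have t5 : M (zr k r) T ≤ 2 * ((∫ t, ‖Fn (H k 1) T r t‖ ^ 2) + C1 * (1 + B (zr k 0) T)) := by linarith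
  have t6 : M (zr k r) T ≤ 2 * (E * (2 * M (zr k 0) T + C1 * (1 + B (zr k 0) T)) + 2 * C2 +
      C1 * (1 + B (zr k 0) T)) := by linarith
  refine t6.trans ?_
  have u1 : 0 ≤ E * C1 * M (zr k 0) T := by positivity
  have u2 : 0 ≤ E * B (zr k 0) T := by positivity
  have u3 : 0 ≤ C2 * B (zr k 0) T := by positivity
  have u4 : 0 ≤ C2 * M (zr k 0) T := by positivity
  have u5 : 0 ≤ C1 * M (zr k 0) T := by positivity
  nlinarith

end

end Pool.Agent.K4H66.OL
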