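import Pool.Agent.K4H66.OL.D

set_option autoImplicit false

/-! Exponential polynomials in the complex shift of the correlations. -/

namespace Pool.Agent.K4H66.OL

open Complex MeasureTheory Filter Topology Set Pool.Agent.TH535.SM
open scoped FourierTransform ComplexConjugate

noncomputable section

/-- the correlation with complex shift `α` -/
def CC (k : ℕ) (α : ℂ) (T : ℝ) : ℂ := Cor (zr k (-α.im / Real.log T)) (α.re / Real.log T) T

lemma CC_zero (k : ℕ) (T : ℝ) : CC k 0 T = ((M (zr k 0) T : ℝ) : ℂ) := by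
  unfold CC
  simp only [zero_im, neg_zero, zero_div, zero_re]
  exact Cor_zero' _ _

lemma pt_eq (k : ℕ) {L : ℝ} (hL : 0 < L) (α : ℂ) (w : ℝ) :
    cexp (I * α * ((k + 4 * Real.pi * w / L : ℝ) : ℂ)) =
      cexp (I * k * α) * cexp ((4 * Real.pi * (α.re / L) * w : ℝ) * I) *
        ((Real.exp (4 * Real.pi * w * (-α.im / L - 0)) : ℝ) : ℂ) := by
  have hLc : (L : ℂ) ≠ 0 := by exact_mod_cast hL.ne'
  rw [Complex.ofReal_exp, ← Complex.exp_add, ← Complex.exp_add]
  congr 1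
  obtain ⟨x, y⟩ := α
  have hα : (⟨x, y⟩ : ℂ) = x + y * I := Complex.mk_eq_add_mul_I x y
  rw [hα]
  simp only [add_re, ofReal_re, mul_re, I_re, mul_zero, ofReal_im, I_im, mul_one, sub_self, add_zero, add_im,
    mul_im, zero_add]
  push_cast
  field_simp
  linear_combination (4 * Real.pi * w * y : ℂ) * I_sq

/-- the spectral side with complex shift -/
lemma spec_cplx (k : ℕ) {u : ℕ} (hu : 1 ≤ u) {T : ℝ} (hT : 1 ≤ T) {L : ℝ} (hL : 0 < L) (α c : ℂ)
    (hr : |-α.im / L| ≤ u) :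
    c * (cexp (I * k * α) * SpC (Fn (H k u) T (-α.im / L)) (α.re / L)) =
      ∫ w : ℝ, c * cexp (I * α * ((k + 4 * Real.pi * w / L : ℝ) : ℂ)) * ((‖𝓕 (Fn (H k u) T 0) w‖ ^ 2 : ℝ) : ℂ) := by
  have hu0 : |(0:ℝ)| ≤ u := by rw [abs_zero]; exact Nat.cast_nonneg u
  have hSD := VG_SD (H_PG k hu) hT
  unfold SpC
  rw [← integral_const_mul, ← integral_const_mul]
  refine integral_congr_ae (Eventually.of_forall fun w => ?_)
  simp only
  have h := hSD.four hr hu0 w
  rw [← Fn_eq, ← Fn_eq] at h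
  have h' : ((‖𝓕 (Fn (H k u) T (-α.im / L)) w‖ ^ 2 : ℝ) : ℂ) =
      ((Real.exp (4 * Real.pi * w * (-α.im / L - 0)) : ℝ) : ℂ) * ((‖𝓕 (Fn (H k u) T 0) w‖ ^ 2 : ℝ) : ℂ) := by
    rw [h, Complex.ofReal_mul]
  rw [h', pt_eq k hL]
  ring

theorem trigC (k : ℕ) {ι : Type} (s : Finset ι) (α : ι → ℂ) (c : ι → ℂ) {S : ℝ} (hS0 : 0 ≤ S)
    (hS : ∀ ξ : ℝ, |ξ| ≤ k → ‖∑ j ∈ s, c j * cexp (I * α j * ξ)‖ ≤ S) {ε : ℝ} (hε : 0 < ε) :
    ∃ C T0 : ℝ, 0 ≤ C ∧ 1 < T0 ∧ ∀ T : ℝ, T0 ≤ T →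
      ‖∑ j ∈ s, c j * (cexp (I * k * α j) * CC k (α j) T)‖ ≤
        (S + ε) * M (zr k 0) T + C * (1 + B (zr k 0) T) := by
  classical
  have hk0 : (0:ℝ) ≤ k := Nat.cast_nonneg k
  set n : ι → ℝ := fun j => ‖c j‖ * ‖cexp (I * k * α j)‖ with hn
  have hn0 : ∀ j, 0 ≤ n j := fun j => by positivity
  set N1 : ℝ := ∑ j ∈ s, n j with hN1
  set b : ℝ := ∑ j ∈ s, ‖α j‖ with hb
  have hN0 : 0 ≤ N1 := Finset.sum_nonneg fun j _ => hn0 j
  have hb0 : 0 ≤ b := Finset.sum_nonneg fun j _ => norm_nonneg _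
  have hbj : ∀ j ∈ s, ‖α j‖ ≤ b := fun j hj =>
    Finset.single_le_sum (f := fun j => ‖α j‖) (fun _ _ => norm_nonneg _) hj
  -- continuity
  set g : ℝ → ℂ := fun ξ => ∑ j ∈ s, c j * cexp (I * α j * ξ) with hg
  have hgc : Continuous g := by
    rw [hg]
    exact continuous_finsetSum _ fun j _ => by fun_prop
  obtain ⟨δ0, hδ0, hunif⟩ := Metric.uniformContinuousOn_iff_le.1
    ((isCompact_Icc (a := -((k:ℝ) + 2)) (b := (k:ℝ) + 2)).uniformContinuousOn_of_continuous hgc.continuousOn)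
    (ε / 2) (by positivity)
  set δ : ℝ := min 1 (δ0 / 2) with hδ
  have hδp : 0 < δ := by positivity
  have hδ1 : δ ≤ 1 := min_le_left _ _
  have hδ2 : 2 * δ ≤ δ0 := by have := min_le_right 1 (δ0 / 2); linarith
  obtain ⟨u, hu⟩ := exists_nat_ge (max 1 (1 / δ))
  have hu1 : 1 ≤ u := by
    have : (1:ℝ) ≤ u := (le_max_left _ _).trans hu
    exact_mod_cast this
  have hu1' : (1:ℝ) ≤ u := by exact_mod_cast hu1
  have hu2 : 1 ≤ δ * u := by
    have : 1 / δ ≤ u := (le_max_right _ _).trans hu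
    rw [div_le_iff₀ hδp] at this
    linarith
  obtain ⟨Ct, hCt, htail⟩ := tails k hu1 hδp hδ1 hu2
  obtain ⟨CM, TM, hCM, hTM, hMr⟩ := Mr_le k hb0
  set η : ℝ := ε / (4 * (S + ε + N1 * CM + 1)) with hη
  have hη0 : 0 < η := by positivity
  have hη1 : (S + ε / 2) * η + N1 * CM * η ≤ ε / 2 := by
    have e1 : η * (4 * (S + ε + N1 * CM + 1)) = ε := by rw [hη]; field_simp
    have e2 : 0 ≤ N1 * CM * η := by positivity
    have e3 : 0 ≤ S * η := by positivity
    have e4 : 0 ≤ ε * η := by positivity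
    linarith
  obtain ⟨Cc, Tc, hCc, hTc, hcor⟩ := cor_close k hu1 hb0 hη0
  obtain ⟨Cs, Ts, hCs, hTs, hsq⟩ := sq_close k hu1 hb0 hη0
  refine ⟨(S + ε / 2) * Cs + N1 * (2 * Ct + η * CM + Cc), max (max TM Tc) (max Ts (Real.exp (4 * (k + 1) * (b + 1)))),
    by positivity, lt_max_of_lt_left (lt_max_of_lt_left hTM), fun T hT => ?_⟩
  have hT1 : TM ≤ T := ((le_max_left _ _).trans (le_max_left _ _)).trans hT
  have hT2 : Tc ≤ T := ((le_max_right _ _).trans (le_max_left _ _)).trans hT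
  have hT3 : Ts ≤ T := ((le_max_left _ _).trans (le_max_right _ _)).trans hT
  have hT4 : Real.exp (4 * (k + 1) * (b + 1)) ≤ T := ((le_max_right _ _).trans (le_max_right _ _)).trans hT
  have hTp : 1 ≤ T := by linarith
  have hT0 : 0 < T := by linarith
  have hL : 4 * (k + 1) * (b + 1) ≤ Real.log T := by rwa [Real.le_log_iff_exp_le hT0]
  have hL4 : 4 ≤ Real.log T := by nlinarith
  have hL0 : 0 < Real.log T := by linarith
  have hbL1 : b ≤ Real.log T := by nlinarith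
  set L := Real.log T with hLd
  have hbL : b / L * (4 * (k + 1)) ≤ 1 := by
    rw [div_mul_eq_mul_div, div_le_one hL0]
    nlinarith
  set r : ι → ℝ := fun j => -(α j).im / L with hr
  set a : ι → ℝ := fun j => (α j).re / L with ha
  have hrj : ∀ j ∈ s, |r j| ≤ b / L := by
    intro j hj
    simp only [hr]
    rw [abs_div, abs_of_pos hL0, abs_neg]
    gcongr
    exact (Complex.abs_im_le_norm _).trans (hbj j hj)
  have haj : ∀ j ∈ s, |a j| ≤ 1 := by
    intro j hj
    simp only [ha]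
    rw [abs_div, abs_of_pos hL0, div_le_one hL0]
    exact ((Complex.abs_re_le_norm _).trans (hbj j hj)).trans hbL1
  have hrk : ∀ j ∈ s, |r j| * (4 * (k + 1)) ≤ 1 := fun j hj =>
    (mul_le_mul_of_nonneg_right (hrj j hj) (by positivity)).trans hbL
  have hr4 : ∀ j ∈ s, |r j| ≤ 1 / 4 := by
    intro j hj
    have := hrk j hj
    nlinarith [abs_nonneg (r j)]
  have hru : ∀ j ∈ s, |r j| ≤ u := fun j hj => by linarith [hr4 j hj]
  have hu0 : |(0:ℝ)| ≤ u := by rw [abs_zero]; linarith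
  set F := Fn (H k u) T 0 with hF
  have hdec : Dec F := Fn_decr k hu1 hTp hu0
  have hM := M_nonneg (zr k 0) hT0.le
  have hB := B_nonneg (zr k 0) T
  -- the total mass
  have hI : ∫ t, ‖F t‖ ^ 2 ≤ (1 + η) * M (zr k 0) T + Cs * (1 + B (zr k 0) T) := by
    have h2 := hsq T hT3 0 (by rw [abs_zero]; positivity) (by norm_num)
    have := (abs_le.1 h2).1
    linarith
  set J := Ioo (-((k + δ) * L / (2 * Real.pi))) (δ * L / (2 * Real.pi)) with hJ
  have hout : ∀ j ∈ s, ms (Fn (H k u) T (r j)) Jᶜ ≤ 2 * Ct := by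
    intro j hj
    obtain ⟨t1, t2⟩ := htail T hTp (r j) (hrk j hj)
    refine (ms_union (Fn_decr k hu1 hTp (hru j hj)) (A1 := Iic (-((k + δ) * L / (2 * Real.pi))))
      (A2 := Ici (δ * L / (2 * Real.pi))) measurableSet_Iic measurableSet_Ici ?_).trans
      ((add_le_add t2 t1).trans (le_of_eq (by ring)))
    intro w hw
    simp only [hJ, mem_compl_iff, mem_Ioo, not_and_or, not_lt] at hw
    exact hw
  -- the errors
  have herr : ‖∑ j ∈ s, c j * (cexp (I * k * α j) * CC k (α j) T) -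
      ∑ j ∈ s, c j * (cexp (I * k * α j) * SpC (Fn (H k u) T (r j)) (a j))‖ ≤
      N1 * (η * (CM * (M (zr k 0) T + 1 + B (zr k 0) T)) + Cc * (1 + B (zr k 0) T)) := by
    rw [← Finset.sum_sub_distrib, hN1, Finset.sum_mul]
    refine (norm_sum_le _ _).trans (Finset.sum_le_sum fun j hj => ?_)
    rw [← mul_sub, ← mul_sub, norm_mul, norm_mul, ← mul_assoc]
    refine mul_le_mul_of_nonneg_left ?_ (hn0 j)
    have h2 := hcor T hT2 (r j) (hrj j hj) (hr4 j hj) (a j) (haj j hj)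
    have h3 := hMr T hT1 (r j) (hrj j hj) (hr4 j hj)
    have h4 : η * M (zr k (r j)) T ≤ η * (CM * (M (zr k 0) T + 1 + B (zr k 0) T)) :=
      mul_le_mul_of_nonneg_left h3 hη0.le
    exact h2.trans (by linarith)
  -- the spectral sum
  set ψ : ℝ → ℂ := fun w => ((‖𝓕 F w‖ ^ 2 : ℝ) : ℂ) with hψ
  have hterm : ∀ j ∈ s, Integrable (fun w : ℝ => c j * cexp (I * α j * ((k + 4 * Real.pi * w / L : ℝ) : ℂ)) * ψ w) := by
    intro j hj
    have hi := SpC_int (Fn_decr k hu1 hTp (hru j hj)) (a j)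
    have hi2 := (hi.const_mul (cexp (I * k * α j))).const_mul (c j)
    refine hi2.congr (Eventually.of_forall fun w => ?_)
    simp only
    have h := (VG_SD (H_PG k hu1) hTp).four (hru j hj) hu0 w
    rw [← Fn_eq, ← Fn_eq] at h
    have h' : ((‖𝓕 (Fn (H k u) T (r j)) w‖ ^ 2 : ℝ) : ℂ) =
        ((Real.exp (4 * Real.pi * w * (r j - 0)) : ℝ) : ℂ) * ((‖𝓕 (Fn (H k u) T 0) w‖ ^ 2 : ℝ) : ℂ) := by
      rw [h, Complex.ofReal_mul]
    rw [h', pt_eq k hL0]
    simp only [hr, ha, hψ]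
    ring
  have hsum : ∑ j ∈ s, c j * (cexp (I * k * α j) * SpC (Fn (H k u) T (r j)) (a j)) =
      ∫ w : ℝ, g (k + 4 * Real.pi * w / L) * ψ w := by
    have e1 : ∀ w : ℝ, g (k + 4 * Real.pi * w / L) * ψ w =
        ∑ j ∈ s, c j * cexp (I * α j * ((k + 4 * Real.pi * w / L : ℝ) : ℂ)) * ψ w := by
      intro w
      rw [hg]
      simp only
      rw [Finset.sum_mul]
    simp_rw [e1]
    rw [integral_finsetSum _ hterm]
    refine Finset.sum_congr rfl fun j hj => ?_
    exact spec_cplx k hu1 hTp hL0 (α j) (c j) (hru j hj)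
  -- pointwise bound
  have hpi := Real.pi_pos
  have hPin : ∀ w ∈ J, ‖g (k + 4 * Real.pi * w / L)‖ ≤ S + ε / 2 := by
    intro w hw
    set ξ : ℝ := k + 4 * Real.pi * w / L with hξ
    have hξ1 : -(k + 2 * δ) < ξ := by
      have h2 : -((k + δ) * L / (2 * Real.pi)) * (4 * Real.pi / L) < w * (4 * Real.pi / L) :=
        mul_lt_mul_of_pos_right hw.1 (by positivity)
      have e3 : -((k + δ) * L / (2 * Real.pi)) * (4 * Real.pi / L) = -(2 * (k + δ)) := by
        field_simp; ring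
      rw [e3] at h2
      have e4 : w * (4 * Real.pi / L) = 4 * Real.pi * w / L := by ring
      rw [e4] at h2
      rw [hξ]; linarith
    have hξ2 : ξ < k + 2 * δ := by
      have h2 : w * (4 * Real.pi / L) < δ * L / (2 * Real.pi) * (4 * Real.pi / L) :=
        mul_lt_mul_of_pos_right hw.2 (by positivity)
      have e3 : δ * L / (2 * Real.pi) * (4 * Real.pi / L) = 2 * δ := by
        field_simp; ring
      rw [e3] at h2
      have e4 : w * (4 * Real.pi / L) = 4 * Real.pi * w / L := by ring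
      rw [e4] at h2
      rw [hξ]; linarith
    set ξ' : ℝ := max (-(k:ℝ)) (min k ξ) with hξ'
    have hn1 : |ξ'| ≤ k := by
      rw [abs_le]
      refine ⟨le_max_left _ _, max_le (by linarith) (min_le_left _ _)⟩
    have hn2 : |ξ - ξ'| ≤ 2 * δ := by
      rw [hξ', abs_le]
      rcases le_total (k:ℝ) ξ with h3 | h3
      · rw [min_eq_left h3, max_eq_right (by linarith)]
        constructor <;> linarith
      · rw [min_eq_right h3]
        rcases le_total (-(k:ℝ)) ξ with h4 | h4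
        · rw [max_eq_right h4]; constructor <;> linarith
        · rw [max_eq_left h4]; constructor <;> linarith
    have h5 := hunif ξ ⟨by linarith, by linarith⟩ ξ' ⟨by linarith [(abs_le.1 hn1).1], by linarith [(abs_le.1 hn1).2]⟩
      (by rw [Real.dist_eq]; linarith)
    rw [dist_eq_norm] at h5
    have h7 := hS ξ' hn1
    have h8 := norm_sub_norm_le (g ξ) (g ξ')
    have h9 : g ξ' = ∑ j ∈ s, c j * cexp (I * α j * ξ') := rfl
    rw [← h9] at h7
    linarith
  have hPout : ∀ w : ℝ, ‖g (k + 4 * Real.pi * w / L)‖ * ‖𝓕 F w‖ ^ 2 ≤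
      ∑ j ∈ s, n j * ‖𝓕 (Fn (H k u) T (r j)) w‖ ^ 2 := by
    intro w
    have h1 : ‖g (k + 4 * Real.pi * w / L)‖ ≤ ∑ j ∈ s, ‖c j * cexp (I * α j * ((k + 4 * Real.pi * w / L : ℝ) : ℂ))‖ := by
      rw [hg]
      exact norm_sum_le _ _
    refine (mul_le_mul_of_nonneg_right h1 (by positivity)).trans (le_of_eq ?_)
    rw [Finset.sum_mul]
    refine Finset.sum_congr rfl fun j hj => ?_
    have h := (VG_SD (H_PG k hu1) hTp).four (hru j hj) hu0 w
    rw [← Fn_eq, ← Fn_eq] at h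
    rw [h, norm_mul, hn]
    simp only
    have hLc : (L : ℂ) ≠ 0 := by exact_mod_cast hL0.ne'
    have e : ‖cexp (I * α j * ((k + 4 * Real.pi * w / L : ℝ) : ℂ))‖ =
        ‖cexp (I * k * α j)‖ * Real.exp (4 * Real.pi * w * (r j - 0)) := by
      rw [Complex.norm_exp, Complex.norm_exp, ← Real.exp_add]
      congr 1
      have e1 : (I * α j * ((k + 4 * Real.pi * w / L : ℝ) : ℂ)).re = -(α j).im * (k + 4 * Real.pi * w / L) := by
        rw [mul_comm, Complex.re_ofReal_mul]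
        simp
        ring
      have e2 : (I * k * α j).re = -(α j).im * k := by
        have : I * (k:ℂ) * α j = ((k:ℝ) : ℂ) * (I * α j) := by push_cast; ring
        rw [this, Complex.re_ofReal_mul]
        simp
        ring
      rw [e1, e2]
      simp only [hr]
      field_simp
      ring
    rw [e]
    ring
  have hnI : Integrable (fun w => ∑ j ∈ s, n j * ‖𝓕 (Fn (H k u) T (r j)) w‖ ^ 2) :=
    integrable_finsetSum _ fun j hj => (planch (Fn_decr k hu1 hTp (hru j hj))).1.const_mul _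
  have hbound : ‖∫ w : ℝ, g (k + 4 * Real.pi * w / L) * ψ w‖ ≤ (S + ε / 2) * (∫ t, ‖F t‖ ^ 2) + N1 * (2 * Ct) := by
    have hI1 := (planch hdec).1
    have hInd : Integrable (Jᶜ.indicator (fun w => ∑ j ∈ s, n j * ‖𝓕 (Fn (H k u) T (r j)) w‖ ^ 2)) :=
      hnI.indicator measurableSet_Ioo.compl
    have hIt : Integrable (fun w => (S + ε / 2) * ‖𝓕 F w‖ ^ 2 +
        Jᶜ.indicator (fun w => ∑ j ∈ s, n j * ‖𝓕 (Fn (H k u) T (r j)) w‖ ^ 2) w) := iadd (hI1.const_mul _) hInd
    refine (norm_integral_le_of_norm_le hIt (Eventually.of_forall fun w => ?_)).trans ?_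
    · rw [norm_mul, hψ]
      simp only
      rw [Complex.norm_real, Real.norm_of_nonneg (by positivity : 0 ≤ ‖𝓕 F w‖ ^ 2)]
      have hF0 : 0 ≤ ‖𝓕 F w‖ ^ 2 := by positivity
      by_cases hw : w ∈ J
      · rw [indicator_of_notMem (by simpa using hw), add_zero]
        exact mul_le_mul_of_nonneg_right (hPin w hw) hF0
      · rw [indicator_of_mem (by simpa using hw)]
        have := hPout w
        have : 0 ≤ (S + ε / 2) * ‖𝓕 F w‖ ^ 2 := by positivity
        linarith [hPout w]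
    · rw [integral_add (hI1.const_mul _) hInd, integral_const_mul, (planch hdec).2,
        integral_indicator measurableSet_Ioo.compl]
      refine add_le_add le_rfl ?_
      rw [integral_finsetSum _ fun j hj => ((planch (Fn_decr k hu1 hTp (hru j hj))).1.const_mul _).integrableOn,
        hN1, Finset.sum_mul]
      refine Finset.sum_le_sum fun j hj => ?_
      rw [integral_const_mul]
      exact mul_le_mul_of_nonneg_left (hout j hj) (hn0 j)
  -- assembling
  rw [hsum] at herr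
  have h8 := norm_sub_norm_le (∑ j ∈ s, c j * (cexp (I * k * α j) * CC k (α j) T))
    (∫ w : ℝ, g (k + 4 * Real.pi * w / L) * ψ w)
  have h9 : (S + ε / 2) * (∫ t, ‖F t‖ ^ 2) ≤ (S + ε / 2) * ((1 + η) * M (zr k 0) T + Cs * (1 + B (zr k 0) T)) :=
    mul_le_mul_of_nonneg_left hI (by positivity)
  have h10 := mul_le_mul_of_nonneg_right hη1 hM
  have h11 : 0 ≤ N1 * (2 * Ct) * B (zr k 0) T := by positivity
  calc ‖∑ j ∈ s, c j * (cexp (I * k * α j) * CC k (α j) T)‖ ≤
        (S + ε / 2) * ((1 + η) * M (zr k 0) T + Cs * (1 + B (zr k 0) T)) + N1 * (2 * Ct) +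
        N1 * (η * (CM * (M (zr k 0) T + 1 + B (zr k 0) T)) + Cc * (1 + B (zr k 0) T)) := by linarith
    _ = (S + ε / 2) * M (zr k 0) T + ((S + ε / 2) * η + N1 * CM * η) * M (zr k 0) T +
        ((S + ε / 2) * Cs + N1 * (η * CM + Cc)) * (1 + B (zr k 0) T) + N1 * (2 * Ct) := by ring
    _ ≤ _ := by linarith

end

end Pool.Agent.K4H66.OL
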