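import Pool.Agent.R446.KR.Rmt
import Pool.Agent.K4H66.OL.F

set_option autoImplicit false

/-! The moments of characteristic polynomials with complex shift. -/

namespace Pool.Agent.K4H66.OL

open Complex MeasureTheory Filter Topology Set Pool.Agent.R446.KR
open scoped ComplexConjugate Matrix

noncomputable section

/-- `W_k(α, N)` for complex `α` -/
def WC (k : ℕ) (α : ℂ) (N : ℕ) : ℂ :=
  ((N : ℂ) ^ (k ^ 2))⁻¹ * ∫ U : Matrix.unitaryGroup (Fin N) ℂ,
    (1 - cexp (-(I * α / N)) • (U : Matrix (Fin N) (Fin N) ℂ)).det ^ k *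
      (1 - cexp (-(I * α / N)) • (U : Matrix (Fin N) (Fin N) ℂ)ᴴ).det ^ k ∂(haarU N)

/-- the exponential polynomial inequality for `W_k(·, N)` -/
theorem WC_trig (k : ℕ) {N : ℕ} (hN : 1 ≤ N) {ι : Type} (s : Finset ι) (α : ι → ℂ) (c : ι → ℂ) {S : ℝ}
    (hS : ∀ ξ : ℝ, |ξ| ≤ k → ‖∑ j ∈ s, c j * cexp (I * α j * ξ)‖ ≤ S) :
    ‖∑ j ∈ s, c j * (cexp (I * k * α j) * WC k (α j) N)‖ ≤ S * ‖WC k 0 N‖ := by
  have hN0 : (0:ℝ) < N := by exact_mod_cast hN
  have hNc : (N : ℂ) ≠ 0 := by exact_mod_cast hN0.ne'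
  have hW : ∀ a : ℂ, WC k a N = ((N : ℂ) ^ (k ^ 2))⁻¹ * ∫ U, av k N (cexp (-(I * a / N))) U ∂(haarU N) := by
    intro a
    rw [← av_int]; rfl
  have e1 : ∑ j ∈ s, c j * (cexp (I * k * α j) * WC k (α j) N) = ((N : ℂ) ^ (k ^ 2))⁻¹ *
      ∫ U, ∑ j ∈ s, c j * (cexp (I * k * α j) * av k N (cexp (-(I * α j / N))) U) ∂(haarU N) := by
    rw [integral_finsetSum _ fun j _ => (((cont_int (av_cont k N _)).const_mul _).const_mul _), Finset.mul_sum]
    refine Finset.sum_congr rfl fun j _ => ?_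
    rw [integral_const_mul, integral_const_mul, hW]
    ring
  have e2 : ∀ U : Matrix.unitaryGroup (Fin N) ℂ,
      ‖∑ j ∈ s, c j * (cexp (I * k * α j) * av k N (cexp (-(I * α j / N))) U)‖ ≤ S * (av k N 1 U).re := by
    intro U
    have e3 : ∑ j ∈ s, c j * (cexp (I * k * α j) * av k N (cexp (-(I * α j / N))) U) =
        ∑ m ∈ Finset.range (k * N + 1), ((‖(pp k (U : Matrix (Fin N) (Fin N) ℂ)).coeff m‖ ^ 2 : ℝ) : ℂ) *
          ∑ j ∈ s, c j * cexp (I * α j * ((k - 2 * m / N : ℝ) : ℂ)) := by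
      unfold av
      simp_rw [Finset.mul_sum]
      rw [Finset.sum_comm]
      refine Finset.sum_congr rfl fun m _ => Finset.sum_congr rfl fun j _ => ?_
      rw [← Complex.exp_nat_mul]
      have e4 : I * α j * ((k - 2 * m / N : ℝ) : ℂ) = I * k * α j + ((2 * m : ℕ) : ℂ) * (-(I * α j / N)) := by
        push_cast
        field_simp
        ring
      rw [e4, Complex.exp_add]
      ring
    rw [e3]
    have e5 : (av k N 1 U).re = ∑ m ∈ Finset.range (k * N + 1), ‖(pp k (U : Matrix (Fin N) (Fin N) ℂ)).coeff m‖ ^ 2 := by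
      unfold av
      simp only [one_pow, mul_one]
      rw [← Complex.ofReal_sum, Complex.ofReal_re]
    rw [e5, Finset.mul_sum]
    refine (norm_sum_le _ _).trans (Finset.sum_le_sum fun m hm => ?_)
    rw [norm_mul, Complex.norm_real, Real.norm_of_nonneg (by positivity), mul_comm]
    refine mul_le_mul_of_nonneg_right (hS _ ?_) (by positivity)
    have hm1 : m ≤ k * N := by have := Finset.mem_range.1 hm; omega
    have hm2 : (m : ℝ) ≤ k * N := by exact_mod_cast hm1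
    have hm3 : 2 * (m : ℝ) / N ≤ 2 * k := by rw [div_le_iff₀ hN0]; linarith
    have hm4 : 0 ≤ 2 * (m : ℝ) / N := by positivity
    rw [abs_le]; constructor <;> linarith
  have e6 : ‖WC k 0 N‖ = ‖((N : ℂ) ^ (k ^ 2))⁻¹‖ * ∫ U, (av k N 1 U).re ∂(haarU N) := by
    rw [hW 0, norm_mul]
    congr 1
    have e7 : (cexp (-(I * (0:ℂ) / N))) = 1 := by simp
    rw [e7]
    have e8 : ∀ U : Matrix.unitaryGroup (Fin N) ℂ, av k N 1 U = (((av k N 1 U).re : ℝ) : ℂ) := by
      intro U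
      unfold av
      simp only [one_pow, mul_one]
      rw [← Complex.ofReal_sum, Complex.ofReal_re]
    have e9 : ∫ U, av k N 1 U ∂(haarU N) = ((∫ U, (av k N 1 U).re ∂(haarU N) : ℝ) : ℂ) := by
      rw [← integral_complex_ofReal]
      exact integral_congr_ae (Eventually.of_forall e8)
    rw [e9, Complex.norm_real, Real.norm_of_nonneg]
    refine integral_nonneg fun U => ?_
    unfold av
    simp only [one_pow, mul_one]
    rw [← Complex.ofReal_sum, Complex.ofReal_re]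
    exact Finset.sum_nonneg fun m _ => by positivity
  rw [e1, norm_mul, e6]
  have e10 : ‖∫ U, ∑ j ∈ s, c j * (cexp (I * k * α j) * av k N (cexp (-(I * α j / N))) U) ∂(haarU N)‖ ≤
      S * ∫ U, (av k N 1 U).re ∂(haarU N) := by
    rw [← integral_const_mul]
    refine norm_integral_le_of_norm_le ?_ (Eventually.of_forall e2)
    exact ((cont_int (av_cont k N 1)).re).const_mul S
  calc _ ≤ ‖((N : ℂ) ^ (k ^ 2))⁻¹‖ * (S * ∫ U, (av k N 1 U).re ∂(haarU N)) := by gcongr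
    _ = _ := by ring

theorem WC_rel (k : ℕ) {N : ℕ} (hN : 1 ≤ N) (α : ℂ) (s : Finset ℂ) (c : ℂ → ℂ) {S : ℝ}
    (hS : ∀ ξ : ℝ, |ξ| ≤ k → ‖cexp (I * α * ξ) - ∑ a ∈ s, c a * cexp (I * a * ξ)‖ ≤ S) :
    ‖cexp (I * k * α) * WC k α N - ∑ a ∈ s, c a * (cexp (I * k * a) * WC k a N)‖ ≤ S * ‖WC k 0 N‖ := by
  have h := WC_trig k hN (Finset.insertNone s) (fun o => o.elim α id)
    (fun o => o.elim 1 (fun a => -c a)) (S := S) (by
      intro ξ hξ
      refine le_of_eq_of_le ?_ (hS ξ hξ)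
      rw [Finset.sum_insertNone]
      simp only [Option.elim_none, Option.elim_some, id, one_mul, neg_mul, Finset.sum_neg_distrib]
      rw [← sub_eq_add_neg])
  refine le_of_eq_of_le ?_ h
  rw [Finset.sum_insertNone]
  simp only [Option.elim_none, Option.elim_some, id, one_mul, neg_mul, Finset.sum_neg_distrib]
  rw [← sub_eq_add_neg]

lemma WC_bdd (k : ℕ) {x : ℂ} (h : Tendsto (fun N : ℕ => WC k 0 N) atTop (𝓝 x)) :
    ∃ C : ℝ, 0 ≤ C ∧ ∀ N : ℕ, ‖WC k 0 N‖ ≤ C := by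
  obtain ⟨C, hC⟩ := (Metric.isBounded_range_of_tendsto _ h).exists_norm_le
  exact ⟨C, (norm_nonneg _).trans (hC _ ⟨0, rfl⟩), fun N => hC _ ⟨N, rfl⟩⟩

/-- if the limits exist for the shifts in a complete set, they exist for all complex shifts -/
theorem WC_conv (k : ℕ) {A : Set ℂ} (hA : CplC A k) (h0 : (0:ℂ) ∈ A)
    (h : ∀ a ∈ A, ∃ x : ℂ, Tendsto (fun N : ℕ => WC k a N) atTop (𝓝 x)) (α : ℂ) :
    ∃ x : ℂ, Tendsto (fun N : ℕ => WC k α N) atTop (𝓝 x) := by
  obtain ⟨x0, hx0⟩ := h 0 h0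
  obtain ⟨C, hC, hb⟩ := WC_bdd k hx0
  have hne : cexp (I * k * α) ≠ 0 := Complex.exp_ne_zero _
  -- Cauchy
  have hcau : CauchySeq (fun N : ℕ => cexp (I * k * α) * WC k α N) := by
    rw [Metric.cauchySeq_iff]
    intro ε hε
    obtain ⟨s, c, hs, hc⟩ := hA α (ε / (4 * (C + 1))) (by positivity)
    choose! y hy using h
    have hlim : Tendsto (fun N : ℕ => ∑ a ∈ s, c a * (cexp (I * k * a) * WC k a N)) atTop
        (𝓝 (∑ a ∈ s, c a * (cexp (I * k * a) * y a))) :=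
      tendsto_finsetSum _ fun a ha => ((hy a (hs a ha)).const_mul _).const_mul _
    obtain ⟨N0, hN0⟩ := (Metric.cauchySeq_iff.1 hlim.cauchySeq) (ε / 2) (by positivity)
    refine ⟨max N0 1, fun m hm n hn => ?_⟩
    have h1 := hN0 m ((le_max_left _ _).trans hm) n ((le_max_left _ _).trans hn)
    have h2 := WC_rel k ((le_max_right _ _).trans hm) α s c hc
    have h3 := WC_rel k ((le_max_right _ _).trans hn) α s c hc
    have h4 : ε / (4 * (C + 1)) * C ≤ ε / 4 - ε / (4 * (C + 1)) := by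
      have : ε / (4 * (C + 1)) * (C + 1) = ε / 4 := by field_simp
      linarith
    have h5 : 0 < ε / (4 * (C + 1)) := by positivity
    have h6 : ε / (4 * (C + 1)) * ‖WC k 0 m‖ ≤ ε / (4 * (C + 1)) * C := mul_le_mul_of_nonneg_left (hb m) h5.le
    have h7 : ε / (4 * (C + 1)) * ‖WC k 0 n‖ ≤ ε / (4 * (C + 1)) * C := mul_le_mul_of_nonneg_left (hb n) h5.le
    have h8 := dist_triangle4 (cexp (I * k * α) * WC k α m) (∑ a ∈ s, c a * (cexp (I * k * a) * WC k a m))
      (∑ a ∈ s, c a * (cexp (I * k * a) * WC k a n)) (cexp (I * k * α) * WC k α n)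
    rw [← dist_eq_norm] at h2 h3
    rw [dist_comm] at h3
    linarith
  obtain ⟨x, hx⟩ := cauchySeq_tendsto_of_complete hcau
  refine ⟨(cexp (I * k * α))⁻¹ * x, ?_⟩
  have := hx.const_mul (cexp (I * k * α))⁻¹
  refine this.congr fun N => ?_
  rw [inv_mul_cancel_left₀ hne]

end

end Pool.Agent.K4H66.OL
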