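import Pool.Agent.K4H66.OL.E
import Pool.Agent.K4H66.OL.G
import Pool.Agent.R446.KR.Asm

set_option autoImplicit false

/-! Rigidity of the correlations in the complex shift. -/

namespace Pool.Agent.K4H66.OL

open Complex MeasureTheory Filter Topology Set Pool.Agent.TH535.SM Pool.Agent.R446.KR
open scoped ComplexConjugate

noncomputable section

/-- the correlation with its phase -/
def XX (k : ℕ) (α : ℂ) (T : ℝ) : ℂ := cexp (I * k * α) * CC k α T

lemma XX_zero (k : ℕ) (T : ℝ) : XX k 0 T = ((M (zr k 0) T : ℝ) : ℂ) := by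
  unfold XX
  rw [mul_zero, Complex.exp_zero, one_mul, CC_zero]

theorem rel1C (k : ℕ) {α : ℂ} {s : Finset ℂ} {c : ℂ → ℂ} {S : ℝ}
    (hS0 : 0 ≤ S) (hS : ∀ ξ : ℝ, |ξ| ≤ k → ‖cexp (I * α * ξ) - ∑ a ∈ s, c a * cexp (I * a * ξ)‖ ≤ S)
    {ε : ℝ} (hε : 0 < ε) : ∃ C T0 : ℝ, 0 ≤ C ∧ 1 < T0 ∧ ∀ T : ℝ, T0 ≤ T →
      ‖XX k α T - ∑ a ∈ s, c a * XX k a T‖ ≤ (S + ε) * M (zr k 0) T + C * (1 + B (zr k 0) T) := by
  obtain ⟨C, T0, hC, hT0, h⟩ := trigC k (Finset.insertNone s) (fun o => o.elim α id)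
    (fun o => o.elim 1 (fun a => -c a)) hS0 (by
      intro ξ hξ
      refine le_of_eq_of_le ?_ (hS ξ hξ)
      rw [Finset.sum_insertNone]
      simp only [Option.elim_none, Option.elim_some, id, one_mul, neg_mul, Finset.sum_neg_distrib]
      rw [← sub_eq_add_neg]) hε
  refine ⟨C, T0, hC, hT0, fun T hT => ?_⟩
  refine le_of_eq_of_le ?_ (h T hT)
  rw [Finset.sum_insertNone]
  simp only [Option.elim_none, Option.elim_some, id, one_mul, neg_mul, Finset.sum_neg_distrib]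
  rw [← sub_eq_add_neg]
  rfl

theorem rel2C (k : ℕ) {α : ℂ} {s : Finset ℂ} {c : ℂ → ℂ} {S : ℝ}
    (hS0 : 0 ≤ S) (hS : ∀ ξ : ℝ, |ξ| ≤ k → ‖cexp (I * α * ξ) - ∑ a ∈ s, c a * cexp (I * a * ξ)‖ ≤ S)
    {ε : ℝ} (hε : 0 < ε) : ∃ C X0 : ℝ, 0 ≤ C ∧ 1 ≤ X0 ∧ ∀ X : ℝ, X0 ≤ X → ∃ E : Set ℝ,
      MeasurableSet E ∧ E ⊆ Icc X (2 * X) ∧ (volume : Measure ℝ).real E ≤ C * Real.log X ^ 2 ∧
      ∀ T ∈ Icc X (2 * X), T ∉ E → ‖XX k α T - ∑ a ∈ s, c a * XX k a T‖ ≤ (S + ε) * M (zr k 0) T + C := by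
  obtain ⟨C1, T0, hC1, hT0, h1⟩ := rel1C k hS0 hS (ε := ε / 2) (by positivity)
  obtain ⟨G, K, D⟩ := zr_dat k (r := 0) (by norm_num)
  obtain ⟨C2, X0, hC2, hX0, h2⟩ := exc D (ε := min 1 (ε / (2 * (C1 + 1)))) (by positivity) (min_le_left _ _)
  refine ⟨max C2 (3 * C1), max T0 X0, le_max_of_le_left hC2, le_max_of_le_left hT0.le, fun X hX => ?_⟩
  obtain ⟨E, e1, e2, e3, e4⟩ := h2 X ((le_max_right _ _).trans hX)
  refine ⟨E, e1, e2, e3.trans (mul_le_mul_of_nonneg_right (le_max_left _ _) (by positivity)), fun T hT hTE => ?_⟩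
  have hXT : T0 ≤ T := ((le_max_left _ _).trans hX).trans hT.1
  have hM := M_nonneg (zr k 0) (T := T) (by linarith)
  have h3 := h1 T hXT
  have h4 := e4 T hT hTE
  have h5 : C1 * (1 + B (zr k 0) T) ≤ C1 * (1 + (min 1 (ε / (2 * (C1 + 1))) * M (zr k 0) T + 2)) := by gcongr
  have h6 : C1 * (min 1 (ε / (2 * (C1 + 1))) * M (zr k 0) T) ≤ ε / 2 * M (zr k 0) T := by
    rw [← mul_assoc]
    refine mul_le_mul_of_nonneg_right ?_ hM
    have h7 : min 1 (ε / (2 * (C1 + 1))) ≤ ε / (2 * (C1 + 1)) := min_le_right _ _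
    rw [le_div_iff₀ (by positivity)] at h7
    have h8 : 0 ≤ min 1 (ε / (2 * (C1 + 1))) := by positivity
    nlinarith
  have h9 : 3 * C1 ≤ max C2 (3 * C1) := le_max_right _ _
  calc _ ≤ (S + ε / 2) * M (zr k 0) T + C1 * (1 + B (zr k 0) T) := h3
    _ ≤ (S + ε) * M (zr k 0) T + max C2 (3 * C1) := by linarith

lemma NN_inf (q : ℕ) : Tendsto (NN q) atTop atTop := by
  refine tendsto_atTop_mono' atTop ?_ tendsto_id
  filter_upwards [eventually_ge_atTop (Real.exp 1)] with T hT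
  have h1 : 1 ≤ Real.log T := by
    rwa [Real.le_log_iff_exp_le (lt_of_lt_of_le (Real.exp_pos 1) hT)]
  have h2 : (1:ℝ) ≤ Real.log T ^ q := one_le_pow₀ h1
  have h3 : 0 < T := lt_of_lt_of_le (Real.exp_pos 1) hT
  unfold NN
  simp only [id]
  nlinarith

/-- the moment is bounded if the correlations are bounded for the shifts in a complete set -/
theorem mboundC (k : ℕ) {q : ℕ} {A : Set ℂ} (hA : CplC A k) {Y : ℂ → ℂ}
    (hlim : ∀ a ∈ A, Tendsto (fun T : ℝ => XX k a T / ((NN q T : ℝ) : ℂ)) atTop (𝓝 (Y a))) :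
    ∃ C : ℝ, 0 ≤ C ∧ ∀ᶠ T : ℝ in atTop, M (zr k 0) T ≤ C * NN q T := by
  obtain ⟨s, c, hs, hc⟩ := hA 0 (1 / 4) (by norm_num)
  obtain ⟨C, X0, hC, hX0, h⟩ := rel2C k (by norm_num : (0:ℝ) ≤ 1 / 4) hc (ε := 1 / 4) (by norm_num)
  obtain ⟨G, K, D⟩ := zr_dat k (r := 0) (by norm_num)
  -- a bound for the finite sum
  have hlims : Tendsto (fun T : ℝ => ∑ a ∈ s, ‖c a‖ * ‖XX k a T / ((NN q T : ℝ) : ℂ)‖) atTop
      (𝓝 (∑ a ∈ s, ‖c a‖ * ‖Y a‖)) :=
    tendsto_finsetSum _ fun a ha => ((hlim a (hs a ha)).norm).const_mul _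
  set b : ℝ := (∑ a ∈ s, ‖c a‖ * ‖Y a‖) + 1 with hb
  have hb0 : 0 ≤ b := by
    have : 0 ≤ ∑ a ∈ s, ‖c a‖ * ‖Y a‖ := Finset.sum_nonneg fun a _ => by positivity
    linarith
  have hev : ∀ᶠ T : ℝ in atTop, ∑ a ∈ s, ‖c a‖ * ‖XX k a T / ((NN q T : ℝ) : ℂ)‖ < b :=
    hlims.eventually_lt_const (lt_add_one _)
  obtain ⟨T1, hT1⟩ := eventually_atTop.1 hev
  obtain ⟨T2, hT2⟩ := eventually_atTop.1 (log_sq_small C (δ := 1 / 2) (by norm_num))
  refine ⟨2 * (b + C) * (2 * 2 ^ q), by positivity, ?_⟩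
  filter_upwards [eventually_ge_atTop X0, eventually_ge_atTop T1, eventually_ge_atTop T2,
    eventually_ge_atTop 4] with X a1 a2 a3 a4
  obtain ⟨E, -, e2, e3, e4⟩ := h X a1
  have hEf : volume E ≠ ⊤ := ne_top_of_le_ne_top (by rw [Real.volume_Icc]; exact ENNReal.ofReal_ne_top)
    (measure_mono e2)
  have h5 := hT2 X a3
  obtain ⟨T, hTT, hT, hTE⟩ := exists_good (X := X) (a := X) (b := 2 * X) (m := C * Real.log X ^ 2) e3 hEf
    (by linarith) le_rfl le_rfl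
  have h6 := e4 T hT hTE
  have hN : 1 ≤ NN q T := by
    unfold NN
    have h8 : 1 ≤ Real.log T := by
      rw [Real.le_log_iff_exp_le (by linarith [hT.1])]
      have := Real.exp_one_lt_d9
      linarith [hT.1]
    have h9 : (1:ℝ) ≤ Real.log T ^ q := one_le_pow₀ h8
    nlinarith [hT.1]
  have hNp : 0 < NN q T := by linarith
  have h7 : ‖∑ a ∈ s, c a * XX k a T‖ ≤ b * NN q T := by
    have h8 := hT1 T (a2.trans hT.1)
    calc ‖∑ a ∈ s, c a * XX k a T‖ ≤ ∑ a ∈ s, ‖c a‖ * ‖XX k a T‖ :=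
          (norm_sum_le _ _).trans (le_of_eq (Finset.sum_congr rfl fun a _ => norm_mul _ _))
      _ = (∑ a ∈ s, ‖c a‖ * ‖XX k a T / ((NN q T : ℝ) : ℂ)‖) * NN q T := by
          rw [Finset.sum_mul]
          refine Finset.sum_congr rfl fun a _ => ?_
          rw [norm_div, Complex.norm_real, Real.norm_of_nonneg hNp.le, mul_assoc, div_mul_cancel₀ _ hNp.ne']
      _ ≤ _ := by gcongr
  have hMn := M_nonneg (zr k 0) (T := T) (by linarith [hT.1])
  have h10 : M (zr k 0) T ≤ 2 * (b + C) * NN q T := by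
    have h11 : M (zr k 0) T = ‖XX k 0 T‖ := by
      rw [XX_zero, Complex.norm_real, Real.norm_of_nonneg hMn]
    have h12 := norm_sub_norm_le (XX k 0 T) (∑ a ∈ s, c a * XX k a T)
    rw [← h11] at h12
    have h13 : C ≤ C * NN q T := by nlinarith
    linarith
  have h13 : M (zr k 0) X ≤ M (zr k 0) T := M_mono D hT.1
  have h14 : NN q T ≤ NN q (2 * X) := NN_mono q (by linarith [hT.1]) hT.2
  have h15 : NN q (2 * X) ≤ 2 * 2 ^ q * NN q X := by
    unfold NN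
    have h16 : Real.log (2 * X) ≤ 2 * Real.log X := by
      rw [Real.log_mul (by norm_num) (by linarith)]
      have := Real.log_le_log (by norm_num) (show (2:ℝ) ≤ X by linarith)
      linarith
    have h17 : 0 ≤ Real.log (2 * X) := Real.log_nonneg (by linarith)
    calc 2 * X * Real.log (2 * X) ^ q ≤ 2 * X * (2 * Real.log X) ^ q := by gcongr
      _ = 2 * 2 ^ q * (X * Real.log X ^ q) := by rw [mul_pow]; ring
  calc M (zr k 0) X ≤ 2 * (b + C) * NN q T := h13.trans h10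
    _ ≤ 2 * (b + C) * (2 * 2 ^ q * NN q X) := by gcongr; exact h14.trans h15
    _ = _ := by ring

/-- combination of the two linear relations -/
lemma combineC (k : ℕ) {Y : ℂ → ℂ} (α : ℂ) (s : Finset ℂ) (c : ℂ → ℂ) {N : ℝ} (hN : 0 < N) (T : ℝ) :
    ‖XX k α T / (N : ℂ) - Y α‖ ≤ ‖XX k α T - ∑ a ∈ s, c a * XX k a T‖ / N +
      ‖Y α - ∑ a ∈ s, c a * Y a‖ + ∑ a ∈ s, ‖c a‖ * ‖XX k a T / (N : ℂ) - Y a‖ := by
  have e : XX k α T / (N : ℂ) - Y α = (XX k α T - ∑ a ∈ s, c a * XX k a T) / (N : ℂ) -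
      (Y α - ∑ a ∈ s, c a * Y a) + ∑ a ∈ s, c a * (XX k a T / (N : ℂ) - Y a) := by
    have e2 : ∑ a ∈ s, c a * (XX k a T / (N : ℂ) - Y a) =
        (∑ a ∈ s, c a * XX k a T) / (N : ℂ) - ∑ a ∈ s, c a * Y a := by
      rw [Finset.sum_div, ← Finset.sum_sub_distrib]
      exact Finset.sum_congr rfl fun a _ => by ring
    rw [e2]
    ring
  rw [e]
  refine (norm_add_le _ _).trans (add_le_add ((norm_sub_le _ _).trans (add_le_add ?_ le_rfl)) ?_)
  · rw [norm_div, Complex.norm_real, Real.norm_of_nonneg hN.le]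
  · refine (norm_sum_le _ _).trans (Finset.sum_le_sum fun a _ => ?_)
    rw [norm_mul]

/-- rigidity -/
theorem rigidC (k : ℕ) {q : ℕ} {A : Set ℂ} (hA : CplC A k) {Y : ℂ → ℂ} {g : ℝ} (hg : 0 ≤ g)
    (hY : ∀ (α : ℂ) (s : Finset ℂ) (c : ℂ → ℂ) (S : ℝ), 0 ≤ S →
      (∀ ξ : ℝ, |ξ| ≤ k → ‖cexp (I * α * ξ) - ∑ a ∈ s, c a * cexp (I * a * ξ)‖ ≤ S) →
      ‖Y α - ∑ a ∈ s, c a * Y a‖ ≤ S * g)
    (hlim : ∀ a ∈ A, Tendsto (fun T : ℝ => XX k a T / ((NN q T : ℝ) : ℂ)) atTop (𝓝 (Y a))) :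
    ∀ α : ℂ, Tendsto (fun T : ℝ => XX k α T / ((NN q T : ℝ) : ℂ)) atTop (𝓝 (Y α)) := by
  obtain ⟨b, hb0, hb⟩ := mboundC k hA hlim
  have hNinf := NN_inf q
  have hsmall : ∀ (s : Finset ℂ) (c : ℂ → ℂ), (∀ a ∈ s, a ∈ A) → ∀ ε : ℝ, 0 < ε → ∀ᶠ T : ℝ in atTop,
      ∑ a ∈ s, ‖c a‖ * ‖XX k a T / ((NN q T : ℝ) : ℂ) - Y a‖ < ε := by
    intro s c hs ε hε
    have h1 : Tendsto (fun T : ℝ => ∑ a ∈ s, ‖c a‖ * ‖XX k a T / ((NN q T : ℝ) : ℂ) - Y a‖)
        atTop (𝓝 (∑ a ∈ s, ‖c a‖ * 0)) := by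
      refine tendsto_finsetSum _ fun a ha => ?_
      refine Tendsto.const_mul _ ?_
      exact tendsto_iff_norm_sub_tendsto_zero.1 (hlim a (hs a ha))
    simp only [mul_zero, Finset.sum_const_zero] at h1
    exact h1.eventually_lt_const hε
  -- the unshifted case
  have hM0 : Tendsto (fun T => M (zr k 0) T / NN q T) atTop (𝓝 (Y 0).re) := by
    obtain ⟨G1, K1, D⟩ := zr_dat k (r := 0) (by norm_num)
    refine monotone_step (fun S T _ h => M_mono D h) fun ε hε => ?_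
    set η : ℝ := ε / (4 * (2 * b + g + 1)) with hη
    have hη0 : 0 < η := by positivity
    obtain ⟨s, c, hs, hc⟩ := hA 0 η hη0
    obtain ⟨C, X0, hC, hX0, h1⟩ := rel2C k hη0.le hc hη0
    obtain ⟨T1, hT1⟩ := eventually_atTop.1 (hsmall s c hs (ε / 4) (by positivity))
    obtain ⟨T2, hT2⟩ := eventually_atTop.1 hb
    obtain ⟨T3, hT3⟩ := eventually_atTop.1 (hNinf.eventually_ge_atTop (4 * C / ε))
    refine ⟨C, max (max X0 T1) (max (max T2 T3) 2), fun X hX => ?_⟩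
    have x1 : X0 ≤ X := ((le_max_left _ _).trans (le_max_left _ _)).trans hX
    have x2 : T1 ≤ X := ((le_max_right _ _).trans (le_max_left _ _)).trans hX
    have x3 : T2 ≤ X := (((le_max_left _ _).trans (le_max_left _ _)).trans (le_max_right _ _)).trans hX
    have x4 : T3 ≤ X := (((le_max_right _ _).trans (le_max_left _ _)).trans (le_max_right _ _)).trans hX
    have x5 : 2 ≤ X := ((le_max_right _ _).trans (le_max_right _ _)).trans hX
    obtain ⟨E, -, e2, e3, e4⟩ := h1 X x1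
    refine ⟨E, e2, e3, fun T hT hTE => ?_⟩
    have hN : 0 < NN q T := NN_pos q (by linarith [hT.1])
    have y1 := e4 T hT hTE
    have y2 := hT1 T (x2.trans hT.1)
    have y3 := hT2 T (x3.trans hT.1)
    have y4 := hT3 T (x4.trans hT.1)
    have y5 := combineC k (Y := Y) 0 s c hN T
    have y6 := hY 0 s c η hη0.le hc
    have y7 : ‖XX k 0 T - ∑ a ∈ s, c a * XX k a T‖ / NN q T ≤ (η + η) * b + ε / 4 := by
      rw [div_le_iff₀ hN]
      have y8 : (η + η) * M (zr k 0) T ≤ (η + η) * (b * NN q T) := mul_le_mul_of_nonneg_left y3 (by positivity)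
      have y9 : C ≤ ε / 4 * NN q T := by
        rw [div_le_iff₀ hε] at y4; linarith
      linarith
    have y10 : (η + η) * b + η * g ≤ ε / 4 := by
      have : η * (4 * (2 * b + g + 1)) = ε := by rw [hη]; field_simp
      nlinarith
    have y11 : ‖XX k 0 T / ((NN q T : ℝ) : ℂ) - Y 0‖ ≤ ε := by linarith
    rw [XX_zero] at y11
    have y12 : |(((M (zr k 0) T : ℝ) : ℂ) / ((NN q T : ℝ) : ℂ) - Y 0).re| ≤ ε := (Complex.abs_re_le_norm _).trans y11
    rw [← Complex.ofReal_div, Complex.sub_re, Complex.ofReal_re] at y12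
    rw [show M (zr k 0) T - (Y 0).re * NN q T = (M (zr k 0) T / NN q T - (Y 0).re) * NN q T by field_simp, abs_mul,
      abs_of_pos hN]
    exact mul_le_mul_of_nonneg_right y12 hN.le
  intro α
  rw [Metric.tendsto_atTop]
  intro ε hε
  set η : ℝ := ε / (8 * (2 * b + g + 1)) with hη
  have hη0 : 0 < η := by positivity
  obtain ⟨s, c, hs, hc⟩ := hA α η hη0
  obtain ⟨C, T0, hC, hT0, h1⟩ := rel1C k hη0.le hc hη0
  obtain ⟨G1, K1, D⟩ := zr_dat k (r := 0) (by norm_num)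
  have hBs := bsmall D hM0 (ε := ε / (8 * (C + 1))) (by positivity)
  have hev : ∀ᶠ T : ℝ in atTop, dist (XX k α T / ((NN q T : ℝ) : ℂ)) (Y α) < ε := by
    filter_upwards [hBs, hsmall s c hs (ε / 8) (by positivity), hb, hNinf.eventually_ge_atTop (8 * C / ε),
      eventually_ge_atTop T0, eventually_gt_atTop 1] with T c1 c2 c3 c4 c5 c6
    have hN : 0 < NN q T := NN_pos q c6
    have y1 := h1 T c5
    have y5 := combineC k (Y := Y) α s c hN T
    have y6 := hY α s c η hη0.le hc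
    have y7 : ‖XX k α T - ∑ a ∈ s, c a * XX k a T‖ / NN q T ≤ (η + η) * b + ε / 4 := by
      rw [div_le_iff₀ hN]
      have y8 : (η + η) * M (zr k 0) T ≤ (η + η) * (b * NN q T) := mul_le_mul_of_nonneg_left c3 (by positivity)
      have y9 : C ≤ ε / 8 * NN q T := by
        rw [div_le_iff₀ hε] at c4; linarith
      have y10 : C * B (zr k 0) T ≤ ε / 8 * NN q T := by
        have y11 : C * B (zr k 0) T ≤ C * (ε / (8 * (C + 1)) * NN q T) := mul_le_mul_of_nonneg_left c1 hC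
        have y12 : C * (ε / (8 * (C + 1)) * NN q T) = ε / 8 * NN q T * (C / (C + 1)) := by
          field_simp
        have y13 : C / (C + 1) ≤ 1 := by rw [div_le_one (by linarith)]; linarith
        have y14 : ε / 8 * NN q T * (C / (C + 1)) ≤ ε / 8 * NN q T * 1 :=
          mul_le_mul_of_nonneg_left y13 (by positivity)
        linarith
      linarith
    have y10 : (η + η) * b + η * g ≤ ε / 8 := by
      have : η * (8 * (2 * b + g + 1)) = ε := by rw [hη]; field_simp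
      nlinarith
    rw [dist_eq_norm]
    linarith
  exact eventually_atTop.1 hev

/-- moving the phases into the coefficients -/
lemma phaseC (k : ℕ) (α : ℂ) (s : Finset ℂ) (c : ℂ → ℂ) (w : ℂ → ℂ) :
    ‖cexp (I * k * α)‖ * ‖w α - ∑ a ∈ s, (c a * cexp (I * k * (a - α))) * w a‖ =
      ‖cexp (I * k * α) * w α - ∑ a ∈ s, c a * (cexp (I * k * a) * w a)‖ := by
  have e : cexp (I * k * α) * (w α - ∑ a ∈ s, (c a * cexp (I * k * (a - α))) * w a) =
      cexp (I * k * α) * w α - ∑ a ∈ s, c a * (cexp (I * k * a) * w a) := by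
    rw [mul_sub, Finset.mul_sum]
    congr 1
    refine Finset.sum_congr rfl fun a _ => ?_
    have e2 : I * k * a = I * k * α + I * k * (a - α) := by ring
    rw [e2, Complex.exp_add]
    ring
  rw [← e, norm_mul]

/-- both sides satisfy the same approximate linear relations -/
theorem commonC (k : ℕ) {A : Set ℂ} (hA : CplC A k) (α : ℂ) {ε : ℝ} (hε : 0 < ε) :
    ∃ (s : Finset ℂ) (c : ℂ → ℂ), (∀ a ∈ s, a ∈ A) ∧
      (∀ N : ℕ, 1 ≤ N → ‖WC k α N - ∑ a ∈ s, c a * WC k a N‖ ≤ ε * ‖WC k 0 N‖) ∧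
      ∃ C X₀ : ℝ, ∀ X : ℝ, X₀ ≤ X → ∃ E : Set ℝ, MeasurableSet E ∧ E ⊆ Icc X (2 * X) ∧
        volume E ≤ ENNReal.ofReal (C * Real.log X ^ 2) ∧
        ∀ T ∈ Icc X (2 * X), T ∉ E →
          ‖CC k α T / ((NN (k ^ 2) T : ℝ) : ℂ) - ∑ a ∈ s, c a * (CC k a T / ((NN (k ^ 2) T : ℝ) : ℂ))‖ ≤
            ε * (M (zr k 0) T / NN (k ^ 2) T + 1) := by
  have hP : 0 < ‖cexp (I * k * α)‖ := norm_pos_iff.2 (Complex.exp_ne_zero _)
  obtain ⟨P, hPd⟩ : ∃ P, P = ‖cexp (I * k * α)‖ := ⟨_, rfl⟩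
  rw [← hPd] at hP
  obtain ⟨s, c, hs, hc⟩ := hA α (P * ε / 2) (by positivity)
  refine ⟨s, fun a => c a * cexp (I * k * (a - α)), hs, fun N hN => ?_, ?_⟩
  · have h1 := phaseC k α s c (fun a => WC k a N)
    have h2 := WC_rel k hN α s c hc
    rw [← h1, ← hPd] at h2
    refine le_of_mul_le_mul_left (h2.trans ?_) hP
    have : 0 ≤ P * ε * ‖WC k 0 N‖ := by positivity
    linarith
  obtain ⟨C, X0, hC, hX0, h⟩ := rel2C k (by positivity) hc (ε := P * ε / 2) (by positivity)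
  refine ⟨C, max (max X0 (Real.exp 1)) (C / (P * ε)), fun X hX => ?_⟩
  obtain ⟨E, e1, e2, e3, e4⟩ := h X (((le_max_left _ _).trans (le_max_left _ _)).trans hX)
  have hfin : volume E ≠ ⊤ :=
    ne_top_of_le_ne_top (by rw [Real.volume_Icc]; exact ENNReal.ofReal_ne_top) (measure_mono e2)
  refine ⟨E, e1, e2, ?_, fun T hT hTE => ?_⟩
  · rw [← ENNReal.ofReal_toReal hfin]
    exact ENNReal.ofReal_le_ofReal e3
  have hX1 : Real.exp 1 ≤ T := (((le_max_right _ _).trans (le_max_left _ _)).trans hX).trans hT.1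
  have hX2 : C / (P * ε) ≤ T := ((le_max_right _ _).trans hX).trans hT.1
  have hT0 : 0 < T := lt_of_lt_of_le (Real.exp_pos 1) hX1
  have hL : 1 ≤ Real.log T := by rwa [Real.le_log_iff_exp_le hT0]
  have hN : T ≤ NN (k ^ 2) T := by
    unfold NN
    have h2 : (1:ℝ) ≤ Real.log T ^ (k ^ 2) := one_le_pow₀ hL
    nlinarith
  have hN0 : 0 < NN (k ^ 2) T := lt_of_lt_of_le hT0 hN
  have h1 := phaseC k α s c (fun a => CC k a T / ((NN (k ^ 2) T : ℝ) : ℂ))
  have e5 : cexp (I * k * α) * (CC k α T / ((NN (k ^ 2) T : ℝ) : ℂ)) -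
      ∑ a ∈ s, c a * (cexp (I * k * a) * (CC k a T / ((NN (k ^ 2) T : ℝ) : ℂ))) =
      (XX k α T - ∑ a ∈ s, c a * XX k a T) / ((NN (k ^ 2) T : ℝ) : ℂ) := by
    unfold XX
    rw [sub_div, Finset.sum_div]
    congr 1
    · ring
    · exact Finset.sum_congr rfl fun a _ => by ring
  rw [e5, norm_div, Complex.norm_real, Real.norm_of_nonneg hN0.le, ← hPd] at h1
  refine le_of_mul_le_mul_left ?_ hP
  rw [h1, div_le_iff₀ hN0]
  have h6 := e4 T hT hTE
  have h7 : P * (ε * (M (zr k 0) T / NN (k ^ 2) T + 1)) * NN (k ^ 2) T =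
      P * ε * M (zr k 0) T + P * ε * NN (k ^ 2) T := by
    field_simp
  rw [h7]
  rw [div_le_iff₀ (by positivity)] at hX2
  have h8 : P * ε * T ≤ P * ε * NN (k ^ 2) T := by gcongr
  linarith

/-- rigidity for the powers of zeta -/
theorem rigid_zetaC (k : ℕ) {A : Set ℂ} (hA : CplC A k) (b : ℂ) (W : ℂ → ℂ)
    (hW : ∀ α : ℂ, Tendsto (fun N : ℕ => WC k α N) atTop (𝓝 (W α)))
    (hlim : ∀ a ∈ A, Tendsto (fun T : ℝ => CC k a T / ((NN (k ^ 2) T : ℝ) : ℂ)) atTop (𝓝 (b * W a))) :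
    ∀ α : ℂ, Tendsto (fun T : ℝ => CC k α T / ((NN (k ^ 2) T : ℝ) : ℂ)) atTop (𝓝 (b * W α)) := by
  have hXC : ∀ (a : ℂ) (T : ℝ), XX k a T / ((NN (k ^ 2) T : ℝ) : ℂ) =
      cexp (I * k * a) * (CC k a T / ((NN (k ^ 2) T : ℝ) : ℂ)) := fun a T => by unfold XX; ring
  have key := rigidC k (q := k ^ 2) hA (Y := fun a => cexp (I * k * a) * (b * W a)) (g := ‖b‖ * ‖W 0‖)
    (by positivity) ?_ ?_
  · intro α
    have h := (key α).const_mul (cexp (I * k * α))⁻¹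
    have hne : cexp (I * k * α) ≠ 0 := Complex.exp_ne_zero _
    rw [inv_mul_cancel_left₀ hne] at h
    refine h.congr fun T => ?_
    rw [hXC, inv_mul_cancel_left₀ hne]
  · intro α s c S hS0 hS
    have h1 : ‖cexp (I * k * α) * W α - ∑ a ∈ s, c a * (cexp (I * k * a) * W a)‖ ≤ S * ‖W 0‖ := by
      have l1 : Tendsto (fun N : ℕ => ‖cexp (I * k * α) * WC k α N - ∑ a ∈ s, c a * (cexp (I * k * a) * WC k a N)‖)
          atTop (𝓝 ‖cexp (I * k * α) * W α - ∑ a ∈ s, c a * (cexp (I * k * a) * W a)‖) := by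
        refine (Tendsto.sub ((hW α).const_mul _) (tendsto_finsetSum _ fun a _ => ?_)).norm
        exact ((hW a).const_mul _).const_mul _
      have l2 : Tendsto (fun N : ℕ => S * ‖WC k 0 N‖) atTop (𝓝 (S * ‖W 0‖)) := ((hW 0).norm).const_mul S
      refine le_of_tendsto_of_tendsto l1 l2 ?_
      filter_upwards [eventually_ge_atTop 1] with N hN
      exact WC_rel k hN α s c hS
    have e : cexp (I * k * α) * (b * W α) - ∑ a ∈ s, c a * (cexp (I * k * a) * (b * W a)) =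
        b * (cexp (I * k * α) * W α - ∑ a ∈ s, c a * (cexp (I * k * a) * W a)) := by
      rw [mul_sub, Finset.mul_sum]
      congr 1
      · ring
      · exact Finset.sum_congr rfl fun a _ => by ring
    rw [e, norm_mul]
    calc ‖b‖ * ‖cexp (I * k * α) * W α - ∑ a ∈ s, c a * (cexp (I * k * a) * W a)‖ ≤ ‖b‖ * (S * ‖W 0‖) := by gcongr
      _ = S * (‖b‖ * ‖W 0‖) := by ring
  · intro a ha
    simp only [hXC]
    exact (hlim a ha).const_mul _

lemma integrandC (k : ℕ) (α : ℂ) (L t : ℝ) : riemannZeta (1 / 2 + I * α / L + I * t) ^ k *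
    riemannZeta (1 / 2 + I * α / L - I * t) ^ k =
    zr k (-α.im / L) (t + α.re / L) * conj (zr k (-α.im / L) (t + -(α.re / L))) := by
  unfold zr
  have hα : α = α.re + α.im * I := (Complex.re_add_im α).symm
  have e0 : I * α / L = ((-α.im / L : ℝ) : ℂ) + ((α.re / L : ℝ) : ℂ) * I := by
    conv_lhs => rw [hα]
    push_cast
    have : I * ((α.re : ℂ) + α.im * I) = (α.re : ℂ) * I + (I * I) * α.im := by ring
    rw [this, I_mul_I]
    ring
  have e1 : (1 / 2 + I * α / L + I * t : ℂ) = ((1 / 2 + -α.im / L : ℝ) : ℂ) + ((t + α.re / L : ℝ) : ℂ) * I := by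
    rw [e0]; push_cast; ring
  have e2 : (1 / 2 + I * α / L - I * t : ℂ) =
      conj (((1 / 2 + -α.im / L : ℝ) : ℂ) + ((t + -(α.re / L) : ℝ) : ℂ) * I) := by
    rw [map_add, map_mul, conj_I, Complex.conj_ofReal, Complex.conj_ofReal, e0]
    push_cast
    ring
  rw [e1, e2, riemannZeta_conj, map_pow]

end

end Pool.Agent.K4H66.OL
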