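import Pool.Agent.K4H66.OL.H

set_option autoImplicit false

/-! The shifted moments are Fourier-Laplace transforms of positive measures on `[-k, k]`. -/

namespace Pool.Agent.K4H66.OL

open Complex MeasureTheory Filter Topology Set Pool.Agent.TH535.SM Pool.Agent.R446.KR
open scoped FourierTransform ComplexConjugate ENNReal

noncomputable section

/-- the nearest point of `[-k, k]` -/
def clip (k : ℕ) (x : ℝ) : ℝ := max (-(k:ℝ)) (min k x)

lemma clip_cont (k : ℕ) : Continuous (clip k) := by unfold clip; fun_prop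

lemma clip_abs (k : ℕ) (x : ℝ) : |clip k x| ≤ k := by
  have hk0 : (0:ℝ) ≤ k := Nat.cast_nonneg k
  unfold clip
  rw [abs_le]
  exact ⟨le_max_left _ _, max_le (by linarith) (min_le_left _ _)⟩

lemma clip_dist (k : ℕ) {x d : ℝ} (hd : 0 ≤ d) (h : |x| ≤ k + d) : |x - clip k x| ≤ d := by
  obtain ⟨h1, h2⟩ := abs_le.1 h
  have hk0 : (0:ℝ) ≤ k := Nat.cast_nonneg k
  unfold clip
  rw [abs_le]
  rcases le_total (k:ℝ) x with h3 | h3
  · rw [min_eq_left h3, max_eq_right (by linarith)]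
    constructor <;> linarith
  · rw [min_eq_right h3]
    rcases le_total (-(k:ℝ)) x with h4 | h4
    · rw [max_eq_right h4]; constructor <;> linarith
    · rw [max_eq_left h4]; constructor <;> linarith

/-- the spectral measure of the smoothed function, transported to `[-k, k]` and divided by `N` -/
def nu (k : ℕ) (F : ℝ → ℂ) (L N : ℝ) : Measure ℝ :=
  ((volume : Measure ℝ).withDensity (fun w => ENNReal.ofReal (‖𝓕 F w‖ ^ 2 / N))).map
    (fun w => clip k (k + 4 * Real.pi * w / L))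

lemma nu_meas (k : ℕ) (L : ℝ) : Measurable (fun w : ℝ => clip k (k + 4 * Real.pi * w / L)) :=
  ((clip_cont k).comp (by fun_prop)).measurable

lemma nu_fin (k : ℕ) {F : ℝ → ℂ} (hF : Dec F) (L N : ℝ) : IsFiniteMeasure (nu k F L N) := by
  have h1 : Integrable (fun w => ‖𝓕 F w‖ ^ 2 / N) := (planch hF).1.div_const N
  have h2 : IsFiniteMeasure ((volume : Measure ℝ).withDensity (fun w => ENNReal.ofReal (‖𝓕 F w‖ ^ 2 / N))) :=
    isFiniteMeasure_withDensity_ofReal h1.2
  unfold nu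
  infer_instance

lemma nu_supp (k : ℕ) (F : ℝ → ℂ) (L N : ℝ) : nu k F L N (Icc (-(k:ℝ)) k)ᶜ = 0 := by
  unfold nu
  rw [Measure.map_apply (nu_meas k L) measurableSet_Icc.compl]
  have : (fun w : ℝ => clip k (k + 4 * Real.pi * w / L)) ⁻¹' (Icc (-(k:ℝ)) k)ᶜ = ∅ := by
    ext w
    simp only [mem_preimage, mem_compl_iff, mem_empty_iff_false, iff_false, not_not]
    exact abs_le.1 (clip_abs k _)
  rw [this, measure_empty]

lemma nu_int (k : ℕ) {F : ℝ → ℂ} (hF : Dec F) (L : ℝ) {N : ℝ} (hN : 0 < N) (α : ℂ) :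
    ∫ ξ, cexp (I * α * ξ) ∂(nu k F L N) =
      (∫ w, cexp (I * α * (clip k (k + 4 * Real.pi * w / L) : ℝ)) * ((‖𝓕 F w‖ ^ 2 : ℝ) : ℂ)) / (N : ℂ) := by
  unfold nu
  have hc : Continuous (fun ξ : ℝ => cexp (I * α * ξ)) := by fun_prop
  rw [integral_map (nu_meas k L).aemeasurable hc.aestronglyMeasurable]
  have hm : Measurable (fun w => (‖𝓕 F w‖ ^ 2 / N).toNNReal) := by
    have := (ft_cont hF).measurable
    fun_prop
  have e1 : (volume : Measure ℝ).withDensity (fun w => ENNReal.ofReal (‖𝓕 F w‖ ^ 2 / N)) =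
      (volume : Measure ℝ).withDensity (fun w => (((‖𝓕 F w‖ ^ 2 / N).toNNReal : NNReal) : ℝ≥0∞)) := rfl
  rw [e1, integral_withDensity_eq_integral_smul hm, ← integral_div]
  refine integral_congr_ae (Eventually.of_forall fun w => ?_)
  simp only
  rw [NNReal.smul_def, Real.coe_toNNReal _ (by positivity), Complex.real_smul]
  push_cast
  ring

theorem measures (k : ℕ) {R : ℝ} (hR : 0 ≤ R) {ε : ℝ} (hε : 0 < ε) : ∃ (u : ℕ) (C T0 : ℝ), 1 ≤ u ∧ 0 ≤ C ∧
    1 < T0 ∧ ∀ T : ℝ, T0 ≤ T → ∀ α : ℂ, ‖α‖ ≤ R →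
      ‖XX k α T - ∫ w, cexp (I * α * (clip k (k + 4 * Real.pi * w / Real.log T) : ℝ)) *
        ((‖𝓕 (Fn (H k u) T 0) w‖ ^ 2 : ℝ) : ℂ)‖ ≤ ε * M (zr k 0) T + C * (1 + B (zr k 0) T) := by
  have hk0 : (0:ℝ) ≤ k := Nat.cast_nonneg k
  set P : ℝ := Real.exp (R * (k + 2)) with hP
  have hP0 : 0 < P := Real.exp_pos _
  set δ : ℝ := min 1 (ε / (8 * (R * P + 1))) with hδ
  have hδp : 0 < δ := by positivity
  have hδ1 : δ ≤ 1 := min_le_left _ _
  have hδ2 : δ * (8 * (R * P + 1)) ≤ ε := by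
    rw [← le_div_iff₀ (by positivity)]; exact min_le_right _ _
  obtain ⟨u, hu⟩ := exists_nat_ge (max 1 (1 / δ))
  have hu1 : 1 ≤ u := by
    have : (1:ℝ) ≤ u := (le_max_left _ _).trans hu
    exact_mod_cast this
  have hu1' : (1:ℝ) ≤ u := by exact_mod_cast hu1
  have hu2 : 1 ≤ δ * u := by
    have : 1 / δ ≤ u := (le_max_right _ _).trans hu
    rw [div_le_iff₀ hδp] at this
    linarith
  obtain ⟨Ct, hCt, htail⟩ := tails k hu1 hδp hδ1 hu2
  obtain ⟨CM, TM, hCM, hTM, hMr⟩ := Mr_le k hR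
  set η : ℝ := ε / (4 * (P * CM + 1)) with hη
  have hη0 : 0 < η := by positivity
  have hη1 : P * (η * CM) ≤ ε / 4 := by
    have e1 : η * (4 * (P * CM + 1)) = ε := by rw [hη]; field_simp
    nlinarith
  obtain ⟨Cc, Tc, hCc, hTc, hcor⟩ := cor_close k hu1 hR hη0
  obtain ⟨Cs, Ts, hCs, hTs, hsq⟩ := sq_close k hu1 hR (ε := 1) one_pos
  refine ⟨u, P * (ε * CM + Cc + η * CM) + Cs * (2 * δ * (R * P)) + P * (4 * Ct),
    max (max TM Tc) (max Ts (Real.exp (4 * (k + 1) * (R + 1)))), hu1,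
    by positivity, lt_max_of_lt_left (lt_max_of_lt_left hTM), fun T hT α hα => ?_⟩
  have hT1 : TM ≤ T := ((le_max_left _ _).trans (le_max_left _ _)).trans hT
  have hT2 : Tc ≤ T := ((le_max_right _ _).trans (le_max_left _ _)).trans hT
  have hT3 : Ts ≤ T := ((le_max_left _ _).trans (le_max_right _ _)).trans hT
  have hT4 : Real.exp (4 * (k + 1) * (R + 1)) ≤ T := ((le_max_right _ _).trans (le_max_right _ _)).trans hT
  have hTp : 1 ≤ T := by linarith
  have hT0 : 0 < T := by linarith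
  have hL : 4 * (k + 1) * (R + 1) ≤ Real.log T := by rwa [Real.le_log_iff_exp_le hT0]
  have hL4 : 4 ≤ Real.log T := by nlinarith
  have hL0 : 0 < Real.log T := by linarith
  have hbL1 : R ≤ Real.log T := by nlinarith
  set L := Real.log T with hLd
  have hbL : R / L * (4 * (k + 1)) ≤ 1 := by
    rw [div_mul_eq_mul_div, div_le_one hL0]
    nlinarith
  obtain ⟨r, hr⟩ : ∃ r, r = -α.im / L := ⟨_, rfl⟩
  obtain ⟨a, ha⟩ : ∃ a, a = α.re / L := ⟨_, rfl⟩
  have hrj : |r| ≤ R / L := by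
    rw [hr, abs_div, abs_of_pos hL0, abs_neg]
    gcongr
    exact (Complex.abs_im_le_norm _).trans hα
  have haj : |a| ≤ 1 := by
    rw [ha, abs_div, abs_of_pos hL0, div_le_one hL0]
    exact ((Complex.abs_re_le_norm _).trans hα).trans hbL1
  have hrk : |r| * (4 * (k + 1)) ≤ 1 := (mul_le_mul_of_nonneg_right hrj (by positivity)).trans hbL
  have hr4 : |r| ≤ 1 / 4 := by nlinarith [abs_nonneg r]
  have hru : |r| ≤ u := by linarith
  have hu0 : |(0:ℝ)| ≤ u := by rw [abs_zero]; linarith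
  set F := Fn (H k u) T 0 with hF
  have hdec : Dec F := Fn_decr k hu1 hTp hu0
  have hdecr : Dec (Fn (H k u) T r) := Fn_decr k hu1 hTp hru
  have hM := M_nonneg (zr k 0) hT0.le
  have hB := B_nonneg (zr k 0) T
  have hPk : ‖cexp (I * k * α)‖ ≤ P := by
    rw [Complex.norm_exp, hP]
    refine Real.exp_le_exp.2 ?_
    have e : (I * k * α).re = -(k * α.im) := by
      have : I * (k:ℂ) * α = ((k:ℝ) : ℂ) * (I * α) := by push_cast; ring
      rw [this, Complex.re_ofReal_mul]
      simp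
    rw [e]
    have h1 := (Complex.abs_im_le_norm α).trans hα
    have h2 := (abs_le.1 h1).1
    nlinarith
  -- the square integral
  have hI : ∫ t, ‖F t‖ ^ 2 ≤ 2 * M (zr k 0) T + Cs * (1 + B (zr k 0) T) := by
    have h2 := hsq T hT3 0 (by rw [abs_zero]; positivity) (by norm_num)
    have := (abs_le.1 h2).1
    linarith
  set J := Ioo (-((k + δ) * L / (2 * Real.pi))) (δ * L / (2 * Real.pi)) with hJ
  have hout : ∀ r' : ℝ, |r'| * (4 * (k + 1)) ≤ 1 → ms (Fn (H k u) T r') Jᶜ ≤ 2 * Ct := by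
    intro r' hr'
    obtain ⟨t1, t2⟩ := htail T hTp r' hr'
    have hr'' : |r'| ≤ u := by nlinarith [abs_nonneg r']
    refine (ms_union (Fn_decr k hu1 hTp hr'') (A1 := Iic (-((k + δ) * L / (2 * Real.pi))))
      (A2 := Ici (δ * L / (2 * Real.pi))) measurableSet_Iic measurableSet_Ici ?_).trans
      ((add_le_add t2 t1).trans (le_of_eq (by ring)))
    intro w hw
    simp only [hJ, mem_compl_iff, mem_Ioo, not_and_or, not_lt] at hw
    exact hw
  -- first step: the spectral side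
  have h1 := hcor T hT2 r hrj hr4 a haj
  have h2 := hMr T hT1 r hrj hr4
  have hst1 : ‖XX k α T - ∫ w : ℝ, cexp (I * α * ((k + 4 * Real.pi * w / L : ℝ) : ℂ)) * ((‖𝓕 F w‖ ^ 2 : ℝ) : ℂ)‖ ≤
      P * (η * (CM * (M (zr k 0) T + 1 + B (zr k 0) T)) + Cc * (1 + B (zr k 0) T)) := by
    have e1 := spec_cplx k hu1 hTp hL0 α 1 (by rw [← hr]; exact hru)
    simp only [one_mul] at e1
    rw [← e1, ← hr, ← ha]
    unfold XX CC
    rw [← hLd, ← hr, ← ha, ← mul_sub, norm_mul]
    have h3 : η * M (zr k r) T ≤ η * (CM * (M (zr k 0) T + 1 + B (zr k 0) T)) :=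
      mul_le_mul_of_nonneg_left h2 hη0.le
    exact mul_le_mul hPk (h1.trans (by linarith)) (norm_nonneg _) hP0.le
  -- second step: clipping
  have hpi := Real.pi_pos
  have hin : ∀ w ∈ J, ‖cexp (I * α * ((k + 4 * Real.pi * w / L : ℝ) : ℂ)) -
      cexp (I * α * (clip k (k + 4 * Real.pi * w / L) : ℝ))‖ ≤ 2 * δ * (R * P) := by
    intro w hw
    set ξ : ℝ := k + 4 * Real.pi * w / L with hξ
    have hξ1 : -(k + 2 * δ) < ξ := by
      have h2 : -((k + δ) * L / (2 * Real.pi)) * (4 * Real.pi / L) < w * (4 * Real.pi / L) :=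
        mul_lt_mul_of_pos_right hw.1 (by positivity)
      have e3 : -((k + δ) * L / (2 * Real.pi)) * (4 * Real.pi / L) = -(2 * (k + δ)) := by
        field_simp; ring
      rw [e3] at h2
      have e4 : w * (4 * Real.pi / L) = 4 * Real.pi * w / L := by ring
      rw [e4] at h2
      rw [hξ]; linarith
    have hξ2 : ξ < k + 2 * δ := by
      have h2 : w * (4 * Real.pi / L) < δ * L / (2 * Real.pi) * (4 * Real.pi / L) :=
        mul_lt_mul_of_pos_right hw.2 (by positivity)
      have e3 : δ * L / (2 * Real.pi) * (4 * Real.pi / L) = 2 * δ := by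
        field_simp; ring
      rw [e3] at h2
      have e4 : w * (4 * Real.pi / L) = 4 * Real.pi * w / L := by ring
      rw [e4] at h2
      rw [hξ]; linarith
    have hξa : |ξ| ≤ k + 2 * δ := abs_le.2 ⟨hξ1.le, hξ2.le⟩
    have hd := clip_dist k (by positivity : 0 ≤ 2 * δ) hξa
    have hca := clip_abs k ξ
    -- mean value inequality
    have hder : ∀ x ∈ Icc (-((k:ℝ) + 2)) (k + 2), HasDerivWithinAt (fun x : ℝ => cexp (I * α * x))
        (cexp (I * α * x) * (I * α)) (Icc (-((k:ℝ) + 2)) (k + 2)) x := by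
      intro x _
      have h3 : HasDerivAt (fun x : ℝ => I * α * (x : ℂ)) (I * α) x := by
        have := (Complex.ofRealCLM.hasDerivAt (x := x)).const_mul (I * α)
        simpa using this
      exact (h3.cexp).hasDerivWithinAt
    have hbd : ∀ x ∈ Icc (-((k:ℝ) + 2)) (k + 2), ‖cexp (I * α * x) * (I * α)‖ ≤ R * P := by
      intro x hx
      rw [norm_mul, norm_mul, norm_I, one_mul, mul_comm]
      refine mul_le_mul hα ?_ (norm_nonneg _) hR
      rw [Complex.norm_exp, hP]
      refine Real.exp_le_exp.2 ?_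
      have e : (I * α * (x : ℂ)).re = -(α.im * x) := by
        rw [mul_comm, Complex.re_ofReal_mul]
        simp
        ring
      rw [e]
      have h3 := (Complex.abs_im_le_norm α).trans hα
      have h4 : |x| ≤ k + 2 := abs_le.2 hx
      calc -(α.im * x) ≤ |α.im * x| := neg_le_abs _
        _ = |α.im| * |x| := abs_mul _ _
        _ ≤ R * (k + 2) := by gcongr
    have hcv := (convex_Icc (-((k:ℝ) + 2)) (k + 2)).norm_image_sub_le_of_norm_hasDerivWithin_le hder hbd
      (x := clip k ξ) (y := ξ) ⟨by linarith [(abs_le.1 hca).1], by linarith [(abs_le.1 hca).2]⟩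
      ⟨by linarith, by linarith⟩
    refine hcv.trans ?_
    rw [Real.norm_eq_abs]
    have : R * P * |ξ - clip k ξ| ≤ R * P * (2 * δ) := by gcongr
    linarith
  have i1 : Integrable (fun w : ℝ => cexp (I * α * ((k + 4 * Real.pi * w / L : ℝ) : ℂ)) * ((‖𝓕 F w‖ ^ 2 : ℝ) : ℂ)) := by
    have hi := SpC_int hdecr a
    have hi2 := hi.const_mul (cexp (I * k * α))
    refine hi2.congr (Eventually.of_forall fun w => ?_)
    simp only
    have h := (VG_SD (H_PG k hu1) hTp).four hru hu0 w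
    rw [← Fn_eq, ← Fn_eq] at h
    have h' : ((‖𝓕 (Fn (H k u) T r) w‖ ^ 2 : ℝ) : ℂ) =
        ((Real.exp (4 * Real.pi * w * (r - 0)) : ℝ) : ℂ) * ((‖𝓕 (Fn (H k u) T 0) w‖ ^ 2 : ℝ) : ℂ) := by
      rw [h, Complex.ofReal_mul]
    rw [h', pt_eq k hL0, hr, ha]
    ring
  have i2 : Integrable (fun w : ℝ => cexp (I * α * (clip k (k + 4 * Real.pi * w / L) : ℝ)) *
      ((‖𝓕 F w‖ ^ 2 : ℝ) : ℂ)) := by
    refine ((planch hdec).1.const_mul P).mono' ?_ (Eventually.of_forall fun w => ?_)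
    · have h3 := ft_cont hdec
      have h4 := clip_cont k
      have : Continuous (fun w : ℝ => cexp (I * α * (clip k (k + 4 * Real.pi * w / L) : ℝ)) *
        ((‖𝓕 F w‖ ^ 2 : ℝ) : ℂ)) := by fun_prop
      exact this.aestronglyMeasurable
    · rw [norm_mul, Complex.norm_real, Real.norm_of_nonneg (by positivity)]
      refine mul_le_mul_of_nonneg_right ?_ (by positivity)
      rw [Complex.norm_exp, hP]
      refine Real.exp_le_exp.2 ?_
      have e : (I * α * ((clip k (k + 4 * Real.pi * w / L) : ℝ) : ℂ)).re = -(α.im * clip k (k + 4 * Real.pi * w / L)) := by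
        rw [mul_comm, Complex.re_ofReal_mul]
        simp
        ring
      rw [e]
      have h3 := (Complex.abs_im_le_norm α).trans hα
      have h4 := clip_abs k (k + 4 * Real.pi * w / L)
      calc -(α.im * clip k (k + 4 * Real.pi * w / L)) ≤ |α.im * clip k (k + 4 * Real.pi * w / L)| := neg_le_abs _
        _ = |α.im| * |clip k (k + 4 * Real.pi * w / L)| := abs_mul _ _
        _ ≤ R * k := by gcongr
        _ ≤ R * (k + 2) := by nlinarith
  have hst2 : ‖(∫ w : ℝ, cexp (I * α * ((k + 4 * Real.pi * w / L : ℝ) : ℂ)) * ((‖𝓕 F w‖ ^ 2 : ℝ) : ℂ)) -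
      ∫ w, cexp (I * α * (clip k (k + 4 * Real.pi * w / L) : ℝ)) * ((‖𝓕 F w‖ ^ 2 : ℝ) : ℂ)‖ ≤
      2 * δ * (R * P) * (∫ t, ‖F t‖ ^ 2) + P * (4 * Ct) := by
    rw [← integral_sub i1 i2]
    have j1 := (planch hdec).1
    have j2 := (planch hdecr).1
    have j3 : Integrable (Jᶜ.indicator (fun w => P * (‖𝓕 (Fn (H k u) T r) w‖ ^ 2 + ‖𝓕 F w‖ ^ 2))) :=
      ((iadd j2 j1).const_mul P).indicator measurableSet_Ioo.compl
    have j4 : Integrable (fun w => 2 * δ * (R * P) * ‖𝓕 F w‖ ^ 2 +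
        Jᶜ.indicator (fun w => P * (‖𝓕 (Fn (H k u) T r) w‖ ^ 2 + ‖𝓕 F w‖ ^ 2)) w) := iadd (j1.const_mul _) j3
    refine (norm_integral_le_of_norm_le j4 (Eventually.of_forall fun w => ?_)).trans ?_
    · have hF0 : 0 ≤ ‖𝓕 F w‖ ^ 2 := by positivity
      by_cases hw : w ∈ J
      · rw [indicator_of_notMem (by simpa using hw), add_zero, ← sub_mul, norm_mul, Complex.norm_real,
          Real.norm_of_nonneg hF0]
        exact mul_le_mul_of_nonneg_right (hin w hw) hF0
      · rw [indicator_of_mem (by simpa using hw)]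
        refine (norm_sub_le _ _).trans ?_
        have k0 : 0 ≤ 2 * δ * (R * P) * ‖𝓕 F w‖ ^ 2 := by positivity
        have k1 : ‖cexp (I * α * ((k + 4 * Real.pi * w / L : ℝ) : ℂ)) * ((‖𝓕 F w‖ ^ 2 : ℝ) : ℂ)‖ ≤
            P * ‖𝓕 (Fn (H k u) T r) w‖ ^ 2 := by
          have h := (VG_SD (H_PG k hu1) hTp).four hru hu0 w
          rw [← Fn_eq, ← Fn_eq] at h
          rw [pt_eq k hL0, ← hr, ← ha, norm_mul, norm_mul, norm_mul, Complex.norm_exp_ofReal_mul_I, mul_one,
            Complex.norm_real, Complex.norm_real, Real.norm_of_nonneg (Real.exp_pos _).le, Real.norm_of_nonneg hF0, h,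
            mul_assoc]
          gcongr
        have k2 : ‖cexp (I * α * (clip k (k + 4 * Real.pi * w / L) : ℝ)) * ((‖𝓕 F w‖ ^ 2 : ℝ) : ℂ)‖ ≤
            P * ‖𝓕 F w‖ ^ 2 := by
          rw [norm_mul, Complex.norm_real, Real.norm_of_nonneg hF0]
          refine mul_le_mul_of_nonneg_right ?_ hF0
          rw [Complex.norm_exp, hP]
          refine Real.exp_le_exp.2 ?_
          have e : (I * α * ((clip k (k + 4 * Real.pi * w / L) : ℝ) : ℂ)).re =
              -(α.im * clip k (k + 4 * Real.pi * w / L)) := by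
            rw [mul_comm, Complex.re_ofReal_mul]
            simp
            ring
          rw [e]
          have h3 := (Complex.abs_im_le_norm α).trans hα
          have h4 := clip_abs k (k + 4 * Real.pi * w / L)
          calc -(α.im * clip k (k + 4 * Real.pi * w / L)) ≤ |α.im * clip k (k + 4 * Real.pi * w / L)| := neg_le_abs _
            _ = |α.im| * |clip k (k + 4 * Real.pi * w / L)| := abs_mul _ _
            _ ≤ R * k := by gcongr
            _ ≤ R * (k + 2) := by nlinarith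
        linarith
    · rw [integral_add (j1.const_mul _) j3, integral_const_mul, (planch hdec).2,
        integral_indicator measurableSet_Ioo.compl, integral_const_mul, integral_add j2.integrableOn j1.integrableOn]
      have o1 := hout r hrk
      have o2 := hout 0 (by rw [abs_zero]; linarith)
      unfold ms at o1 o2
      refine add_le_add le_rfl ?_
      refine mul_le_mul_of_nonneg_left ?_ hP0.le
      linarith
  -- assembling
  have hfin := norm_sub_le_norm_sub_add_norm_sub (XX k α T)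
    (∫ w : ℝ, cexp (I * α * ((k + 4 * Real.pi * w / L : ℝ) : ℂ)) * ((‖𝓕 F w‖ ^ 2 : ℝ) : ℂ))
    (∫ w, cexp (I * α * (clip k (k + 4 * Real.pi * w / L) : ℝ)) * ((‖𝓕 F w‖ ^ 2 : ℝ) : ℂ))
  have q1 : 2 * δ * (R * P) * (∫ t, ‖F t‖ ^ 2) ≤ 2 * δ * (R * P) * (2 * M (zr k 0) T + Cs * (1 + B (zr k 0) T)) := by
    gcongr
  have q2 : 2 * δ * (R * P) * 2 ≤ ε / 2 := by nlinarith
  have q3 := mul_le_mul_of_nonneg_right q2 hM
  have q4 := mul_le_mul_of_nonneg_right hη1 hM
  have q5 : 0 ≤ P * (4 * Ct) * B (zr k 0) T := by positivity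
  have q6 : 0 ≤ P * (ε * CM) * (1 + B (zr k 0) T) := by positivity
  have q7 : 0 ≤ ε * M (zr k 0) T := by positivity
  calc _ ≤ P * (η * (CM * (M (zr k 0) T + 1 + B (zr k 0) T)) + Cc * (1 + B (zr k 0) T)) +
        (2 * δ * (R * P) * (2 * M (zr k 0) T + Cs * (1 + B (zr k 0) T)) + P * (4 * Ct)) := by linarith
    _ = P * (η * CM) * M (zr k 0) T + 2 * δ * (R * P) * 2 * M (zr k 0) T +
        (P * (Cc + η * CM) + Cs * (2 * δ * (R * P))) * (1 + B (zr k 0) T) + P * (4 * Ct) := by ring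
    _ ≤ _ := by linarith

end

end Pool.Agent.K4H66.OL
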